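import Pool.Agent.Lib.SkS.Defs

/-!
# Module Burn: Burnside's theorem, irreducible subspaces, common kernels

`burnside`: make `V` a module over `R = Algebra.adjoin k (Set.range ρ)` (a subalgebra of `End k V` acts on `V`); it is a simple
module by `Irr`; `End R V = k` by Schur (`IsAlgClosed`, f.d.); then `Module.Finite.toModuleEnd_moduleEnd_surjective` or
`jacobson_density` (Mathlib.RingTheory.SimpleModule.Basic) with a basis of `V`.
`exists_irr`: take `W'` of minimal positive dimension among the subspaces `≠ ⊥` of `W` stable under `A`.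
`common_kernel`: strong induction on `finrank V`: if some `a ∈ S` is not `0`, pass to `ker a`, stable under `S`.
-/

namespace Pool.Agent.SkS

open Module

variable {k L V : Type} [Field k] [LieRing L] [LieAlgebra k L] [AddCommGroup V] [Module k V]
  [FiniteDimensional k V]

/-- Schur's lemma in the form needed -/
theorem schur [IsAlgClosed k] (ρ : L →ₗ[k] End k V) (h : Irr ρ) (a : End k V)
    (ha : ∀ x, a * ρ x = ρ x * a) : ∃ c : k, a = algebraMap k (End k V) c := by
  have : Nontrivial V := h.1
  obtain ⟨c, hc⟩ := Module.End.exists_eigenvalue a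
  refine ⟨c, ?_⟩
  have h1 : Module.End.eigenspace a c ≠ ⊥ := hc
  rcases h.2 (Module.End.eigenspace a c) (by
    intro x w hw
    rw [Module.End.mem_eigenspace_iff] at hw ⊢
    have h2 := congrArg (fun g : End k V => g w) (ha x)
    simp only [Module.End.mul_apply] at h2
    rw [h2, hw, map_smul]) with h3 | h3
  · exact absurd h3 h1
  · ext v
    have h4 : v ∈ Module.End.eigenspace a c := by rw [h3]; trivial
    rw [Module.End.mem_eigenspace_iff] at h4
    rw [h4, Module.algebraMap_end_apply]

theorem burnside [IsAlgClosed k] (ρ : L →ₗ[k] End k V) (h : Irr ρ) :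
    Algebra.adjoin k (Set.range ρ) = ⊤ := by
  classical
  have : Nontrivial V := h.1
  set A : Subalgebra k (End k V) := Algebra.adjoin k (Set.range ρ) with hA
  have hmemA : ∀ x, ρ x ∈ A := fun x => Algebra.subset_adjoin ⟨x, rfl⟩
  have hsm : ∀ (r : A) (v : V), r • v = (r : End k V) v := fun _ _ => rfl
  have hsimple : IsSimpleModule A V := by
    refine { toIsSimpleOrder := { exists_pair_ne := exists_pair_ne _, eq_bot_or_eq_top := ?_ } }
    intro N
    let W : Submodule k V :=
      { carrier := N
        add_mem' := fun ha hb => N.add_mem ha hb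
        zero_mem' := N.zero_mem
        smul_mem' := fun c v hv => by
          have h1 : (algebraMap k A c) • v ∈ N := N.smul_mem _ hv
          have h2 : (algebraMap k A c) • v = c • v := by
            rw [hsm]
            change (algebraMap k (End k V) c) v = c • v
            rw [Module.algebraMap_end_apply]
          rw [← h2]
          exact h1 }
    have hW : ∀ v, v ∈ W ↔ v ∈ N := fun _ => Iff.rfl
    rcases h.2 W (fun x w hw => by
      have : (⟨ρ x, hmemA x⟩ : A) • w ∈ N := N.smul_mem _ hw
      exact this) with h1 | h1
    · left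
      rw [eq_bot_iff]
      intro v hv
      have : v ∈ W := hv
      rw [h1] at this
      simpa using this
    · right
      rw [eq_top_iff]
      intro v _
      have : v ∈ W := by rw [h1]; trivial
      exact this
  rw [eq_top_iff]
  intro g _
  have hscal : ∀ e : Module.End A V, ∃ c : k, ∀ v, e v = c • v := by
    intro e
    let a : End k V :=
      { toFun := e
        map_add' := fun x y => map_add e x y
        map_smul' := fun c v => by
          have h2 : ∀ v : V, (algebraMap k A c) • v = c • v := by
            intro v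
            rw [hsm]
            change (algebraMap k (End k V) c) v = c • v
            rw [Module.algebraMap_end_apply]
          rw [← h2, map_smul, h2, RingHom.id_apply] }
    have haa : ∀ v, a v = e v := fun _ => rfl
    obtain ⟨c, hc⟩ := schur ρ h a (by
      intro x
      ext v
      simp only [Module.End.mul_apply]
      rw [haa, haa]
      have h3 := map_smul e (⟨ρ x, hmemA x⟩ : A) v
      exact h3)
    refine ⟨c, fun v => ?_⟩
    rw [← haa, hc, Module.algebraMap_end_apply]
  let f : Module.End (Module.End A V) V :=
    { toFun := g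
      map_add' := fun x y => map_add g x y
      map_smul' := fun e v => by
        obtain ⟨c, hc⟩ := hscal e
        rw [RingHom.id_apply, Module.End.smul_def, Module.End.smul_def, hc, hc, map_smul] }
  have hfg : ∀ v, f v = g v := fun _ => rfl
  let b := Module.finBasis k V
  obtain ⟨r, hr⟩ := jacobson_density f (Finset.univ.image b)
  have : g = (r : End k V) := by
    apply b.ext
    intro i
    have := hr (b i) (Finset.mem_image_of_mem _ (Finset.mem_univ _))
    rw [hfg] at this
    exact this
  rw [this]
  exact r.2

theorem exists_irr (ρ : L →ₗ[k] End k V) (A : LieSubalgebra k L) (W : Submodule k V) (hW0 : W ≠ ⊥)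
    (hW : ∀ x ∈ A, ∀ w ∈ W, ρ x w ∈ W) :
    ∃ (W' : Submodule k V) (h' : ∀ x ∈ A, ∀ w ∈ W', ρ x w ∈ W'), W' ≤ W ∧ W' ≠ ⊥ ∧
      Irr (rs ρ A W' h') := by
  classical
  have hex : ∃ n : ℕ, ∃ W' : Submodule k V, (∀ x ∈ A, ∀ w ∈ W', ρ x w ∈ W') ∧ W' ≤ W ∧ W' ≠ ⊥ ∧
      finrank k W' = n := ⟨_, W, hW, le_rfl, hW0, rfl⟩
  obtain ⟨W', h1, h2, h3, h4⟩ := Nat.find_spec hex
  refine ⟨W', h1, h2, h3, ?_, ?_⟩
  · exact Submodule.nontrivial_iff_ne_bot.mpr h3
  · intro U hU
    by_cases hU0 : U = ⊥
    · exact Or.inl hU0
    · right
      have h5 : U.map W'.subtype ≠ ⊥ := by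
        intro h
        apply hU0
        exact Submodule.map_injective_of_injective W'.injective_subtype (by rw [h, Submodule.map_bot])
      have h6 : U.map W'.subtype ≤ W' := Submodule.map_subtype_le _ _
      have h7 : ∀ x ∈ A, ∀ w ∈ U.map W'.subtype, ρ x w ∈ U.map W'.subtype := by
        rintro x hx _ ⟨u, hu, rfl⟩
        exact ⟨_, hU ⟨x, hx⟩ u hu, rfl⟩
      have h8 : Nat.find hex ≤ finrank k (U.map W'.subtype) :=
        Nat.find_min' hex ⟨_, h7, h6.trans h2, h5, rfl⟩
      have h9 : U.map W'.subtype = W' := by
        apply Submodule.eq_of_le_of_finrank_le h6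
        rw [h4]
        exact h8
      rw [eq_top_iff]
      intro w _
      have h10 : (w : V) ∈ U.map W'.subtype := by rw [h9]; exact w.2
      obtain ⟨u, hu, hu'⟩ := h10
      have : u = w := Subtype.ext hu'
      rw [← this]
      exact hu

/-- commuting nilpotent operators have a common kernel vector in every nonzero stable subspace -/
theorem common_kernel (S : Set (End k V)) (hc : ∀ a ∈ S, ∀ b ∈ S, a * b = b * a)
    (hn : ∀ a ∈ S, IsNilpotent a) (W : Submodule k V) (hW0 : W ≠ ⊥)
    (hW : ∀ a ∈ S, ∀ w ∈ W, a w ∈ W) : ∃ v ∈ W, v ≠ 0 ∧ ∀ a ∈ S, a v = 0 := by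
  classical
  have main : ∀ (n : ℕ) (W : Submodule k V), W ≠ ⊥ → (∀ a ∈ S, ∀ w ∈ W, a w ∈ W) →
      finrank k W = n → ∃ v ∈ W, v ≠ 0 ∧ ∀ a ∈ S, a v = 0 := by
    intro n
    induction n using Nat.strong_induction_on with
    | _ n ih =>
      intro W hW0 hW hn'
      by_cases hall : ∀ a ∈ S, ∀ w ∈ W, a w = 0
      · obtain ⟨v, hv, hv0⟩ := Submodule.exists_mem_ne_zero_of_ne_bot hW0
        exact ⟨v, hv, hv0, fun a ha => hall a ha v hv⟩
      · push Not at hall
        obtain ⟨a, ha, w, hw, haw⟩ := hall
        have hpow : ∀ (j : ℕ), ∀ w ∈ W, (a ^ j) w ∈ W := by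
          intro j
          induction j with
          | zero => intro w hw; simpa using hw
          | succ j ihj =>
            intro w hw
            rw [pow_succ', Module.End.mul_apply]
            exact hW a ha _ (ihj w hw)
        -- the kernel of `a` on `W`
        have hker : W ⊓ LinearMap.ker a ≠ ⊥ := by
          obtain ⟨N, hN⟩ := hn a ha
          have hex : ∃ j, (a ^ j) w = 0 := ⟨N, by rw [hN]; rfl⟩
          have hj0 : Nat.find hex ≠ 0 := by
            intro h0
            have := Nat.find_spec hex
            rw [h0, pow_zero, Module.End.one_apply] at this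
            exact haw (by rw [this, map_zero])
          obtain ⟨j, hj⟩ := Nat.exists_eq_succ_of_ne_zero hj0
          have h1 : (a ^ j) w ≠ 0 := Nat.find_min hex (by omega)
          have h2 : a ((a ^ j) w) = 0 := by
            have := Nat.find_spec hex
            rw [hj, Nat.succ_eq_add_one, pow_succ', Module.End.mul_apply] at this
            exact this
          intro hbot
          apply h1
          have h3 : (a ^ j) w ∈ W ⊓ LinearMap.ker a :=
            ⟨hpow j w hw, LinearMap.mem_ker.mpr h2⟩
          rw [hbot] at h3
          simpa using h3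
        have hlt : finrank k (W ⊓ LinearMap.ker a : Submodule k V) < n := by
          rw [← hn']
          apply Submodule.finrank_lt_finrank_of_lt
          refine lt_of_le_of_ne inf_le_left ?_
          intro h
          have : w ∈ W ⊓ LinearMap.ker a := by rw [h]; exact hw
          exact haw (LinearMap.mem_ker.mp this.2)
        obtain ⟨v, hv, hv0, hv1⟩ := ih _ hlt (W ⊓ LinearMap.ker a) hker (by
          intro b hb w hw
          refine ⟨hW b hb w hw.1, LinearMap.mem_ker.mpr ?_⟩
          have h1 := congrArg (fun g : End k V => g w) (hc a ha b hb)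
          simp only [Module.End.mul_apply] at h1
          rw [h1, LinearMap.mem_ker.mp hw.2, map_zero]) rfl
        exact ⟨v, hv.1, hv0, hv1⟩
  exact main _ W hW0 hW rfl

end Pool.Agent.SkS
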