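import Pool.Agent.Lib.SkS.Defs
import Pool.Agent.Lib.MP_fc2f40_al.PBW

/-!
# Module Basic: the frozen hypotheses imply the formal properties; the canonical map is a `Rep`

Proof. `ι` is injective (`Pool.Agent.Lib.MP_fc2f40_al.PBW.ι_injective`).  In the associative algebra
`U(L)`: `(ι x + ι y)^2 = ι x^2 + ι y^2 + ι x ι y + ι y ι x` and in characteristic two
`ι x ι y + ι y ι x = ι x ι y - ι y ι x = ι [x,y]` (`LieHom.map_lie` and `LieRing.of_associative_ring_bracket`, with
`attribute [local instance 100] LieRing.ofAssociativeRing`).  So the first hypothesis gives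
`ι (f (x+y)) = ι (f x + f y + [x,y])`.  The second: `a^2 ι(x)^2 - ι(f(ax)) = a^2 ι(x)^2 - a^2 ι (f x)`.
The third: `[ι x^2, ι y] = [ι x,[ι x, ι y]]` in characteristic two.
`rep_uι`: the relations of `RingQuot` (`RingQuot.mkAlgHom_rel`).  `adjoin_uι`: `U(L)` is generated by `ι`,
`RingQuot.mkAlgHom` is surjective.
-/

set_option linter.unusedSectionVars false

namespace Pool.Agent.SkS

open Module

variable {k L : Type} [Field k] [CharP k 2] [LieRing L] [LieAlgebra k L]

attribute [local instance 100] LieRing.ofAssociativeRing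

private lemma two_zero (A : Type) [Ring A] [Algebra k A] (a : A) : a + a = 0 := by
  have h : (2 : k) = 0 := CharP.cast_eq_zero k 2
  have h2 : a + a = (2 : k) • a := by
    rw [two_smul]
  rw [h2, h, zero_smul]

private lemma ι_lie (x y : L) : (UniversalEnvelopingAlgebra.ι k ⁅x, y⁆ : UniversalEnvelopingAlgebra k L) =
    UniversalEnvelopingAlgebra.ι k x * UniversalEnvelopingAlgebra.ι k y -
      UniversalEnvelopingAlgebra.ι k y * UniversalEnvelopingAlgebra.ι k x := by
  rw [LieHom.map_lie, LieRing.of_associative_ring_bracket]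

theorem rst_of_frz {f : L → L} (h : Frz k f) : Rst k f := by
  have inj := Pool.Agent.Lib.MP_fc2f40_al.PBW.ι_injective k L
  have tz := two_zero (k := k) (UniversalEnvelopingAlgebra k L)
  refine ⟨?_, ?_, ?_⟩
  · intro x y
    apply inj
    have h1 := h.add x y
    rw [map_add, map_add, ι_lie]
    rw [map_add] at h1
    set X := (UniversalEnvelopingAlgebra.ι k x : UniversalEnvelopingAlgebra k L)
    set Y := (UniversalEnvelopingAlgebra.ι k y : UniversalEnvelopingAlgebra k L)
    set FX := (UniversalEnvelopingAlgebra.ι k (f x) : UniversalEnvelopingAlgebra k L)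
    set FY := (UniversalEnvelopingAlgebra.ι k (f y) : UniversalEnvelopingAlgebra k L)
    set FXY := (UniversalEnvelopingAlgebra.ι k (f (x + y)) : UniversalEnvelopingAlgebra k L)
    have h2 : FXY = (X + Y) ^ 2 - (X ^ 2 - FX + (Y ^ 2 - FY)) := by rw [← h1]; abel
    have h3 : (X + Y) ^ 2 = X ^ 2 + Y ^ 2 + (X * Y - Y * X) + (Y * X + Y * X) := by noncomm_ring
    rw [h2, h3, tz]
    abel
  · intro a x
    apply inj
    have h1 := h.smul a x
    rw [map_smul] at h1
    rw [map_smul]
    have h2 : (a • (UniversalEnvelopingAlgebra.ι k x : UniversalEnvelopingAlgebra k L)) ^ 2 =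
        a ^ 2 • (UniversalEnvelopingAlgebra.ι k x : UniversalEnvelopingAlgebra k L) ^ 2 := smul_pow _ _ _
    rw [h2, smul_sub] at h1
    exact sub_right_injective h1
  · intro x y
    apply inj
    have h1 := h.comm x y
    rw [ι_lie, ι_lie, ι_lie]
    set X := (UniversalEnvelopingAlgebra.ι k x : UniversalEnvelopingAlgebra k L)
    set Y := (UniversalEnvelopingAlgebra.ι k y : UniversalEnvelopingAlgebra k L)
    set FX := (UniversalEnvelopingAlgebra.ι k (f x) : UniversalEnvelopingAlgebra k L)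
    have h2 : (X ^ 2 - FX) * Y = Y * (X ^ 2 - FX) := h1
    have h3 : FX * Y - Y * FX = X ^ 2 * Y - Y * X ^ 2 := by
      have e1 : FX * Y = X ^ 2 * Y - (X ^ 2 - FX) * Y := by noncomm_ring
      have e2 : Y * FX = Y * X ^ 2 - Y * (X ^ 2 - FX) := by noncomm_ring
      rw [e1, e2, h2]; abel
    have h4 : X * (X * Y - Y * X) - (X * Y - Y * X) * X =
        X ^ 2 * Y - Y * X ^ 2 + (Y * X ^ 2 + Y * X ^ 2) - (X * Y * X + X * Y * X) := by noncomm_ring
    rw [h3, h4, tz, tz]
    abel

theorem rep_uι (f : L → L) (χ : Dual k L) : Rep f χ (uι f χ) := by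
  refine ⟨?_, ?_⟩
  · intro x y
    change RingQuot.mkAlgHom k (Urel f χ) _ = RingQuot.mkAlgHom k (Urel f χ) _ *
      RingQuot.mkAlgHom k (Urel f χ) _ - RingQuot.mkAlgHom k (Urel f χ) _ *
      RingQuot.mkAlgHom k (Urel f χ) _
    rw [ι_lie, map_sub, map_mul, map_mul]
  · intro x
    change RingQuot.mkAlgHom k (Urel f χ) _ * RingQuot.mkAlgHom k (Urel f χ) _ =
      RingQuot.mkAlgHom k (Urel f χ) _ + _
    have h1 : RingQuot.mkAlgHom k (Urel f χ)
        (UniversalEnvelopingAlgebra.ι k x ^ 2 - UniversalEnvelopingAlgebra.ι k (f x)) =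
        RingQuot.mkAlgHom k (Urel f χ)
          (algebraMap k (UniversalEnvelopingAlgebra k L) (χ x ^ 2)) :=
      RingQuot.mkAlgHom_rel k ⟨x, rfl, rfl⟩
    rw [map_sub, map_pow, AlgHom.commutes, sub_eq_iff_eq_add'] at h1
    rw [← sq, h1]

theorem adjoin_uι (f : L → L) (χ : Dual k L) :
    Algebra.adjoin k (Set.range (uι f χ)) = ⊤ := by
  rw [eq_top_iff]
  rintro u -
  obtain ⟨v, rfl⟩ := RingQuot.mkAlgHom_surjective k (Urel f χ) u
  induction v using Pool.Agent.Lib.MP_fc2f40_al.PBW.U_induction with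
  | algebraMap r =>
    rw [AlgHom.commutes]
    exact Subalgebra.algebraMap_mem _ r
  | ι x => exact Algebra.subset_adjoin ⟨x, rfl⟩
  | mul a b ha hb => rw [map_mul]; exact Subalgebra.mul_mem _ ha hb
  | add a b ha hb => rw [map_add]; exact Subalgebra.add_mem _ ha hb

end Pool.Agent.SkS
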