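import Pool.Agent.Lib.SkS.Cnt
import Pool.Agent.Lib.SkS.Burn

/-!
# Module BC: the Burnside bound, and the restriction of representations

`bc`: `burnside` and `cnt` with `A = End k V` (`finrank (End k V) = (finrank V)^2`).
`bc_scalar`: if `ρ x` is scalar for `x ∈ D` then `adjoin (ρ '' D)` is the line of scalars (dimension at most 1).
`rep_rs`, `irr_top`: restriction of a `Rep` to a Lie subalgebra closed under `f` and to a stable subspace.
`exists_irr_of_nontrivial`: every nonzero rep has an irreducible subrep (`exists_irr` with `A = ⊤`), here in the form of a new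
representation of `L` itself on a subspace.
`gen_irr`: `gen` for an irreducible `V` and `W ≠ ⊥` (the condition `hgen` is automatic).
-/

namespace Pool.Agent.SkS

open Module

variable {k L V : Type} [Field k] [LieRing L] [LieAlgebra k L] [AddCommGroup V] [Module k V]
  [FiniteDimensional k V] [FiniteDimensional k L]

theorem bc [IsAlgClosed k] {f : L → L} {χ : Dual k L} (ρ : L →ₗ[k] End k V) (hρ : Rep f χ ρ)
    (h : Irr ρ) (D : Submodule k L) :
    finrank k V ^ 2 ≤
      finrank k (Algebra.adjoin k (ρ '' (D : Set L))) * 2 ^ (finrank k L - finrank k D) := by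
  have h1 := cnt ρ hρ D
  rw [burnside ρ h, subalgebra_top_finrank_eq_submodule_top_finrank, finrank_top] at h1
  have h2 : finrank k (End k V) = finrank k V ^ 2 := by
    rw [sq]
    exact Module.finrank_linearMap k k V V
  rwa [h2] at h1

theorem bc_scalar [IsAlgClosed k] {f : L → L} {χ : Dual k L} (ρ : L →ₗ[k] End k V)
    (hρ : Rep f χ ρ) (h : Irr ρ) (D : Submodule k L)
    (hD : ∀ x ∈ D, ∃ c : k, ρ x = algebraMap k (End k V) c) :
    finrank k V ^ 2 ≤ 2 ^ (finrank k L - finrank k D) := by
  have h1 := bc ρ hρ h D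
  have := h.1
  have h2 : Algebra.adjoin k (ρ '' (D : Set L)) = ⊥ := by
    rw [eq_bot_iff, Algebra.adjoin_le_iff]
    rintro _ ⟨x, hx, rfl⟩
    obtain ⟨c, hc⟩ := hD x hx
    rw [SetLike.mem_coe, Algebra.mem_bot]
    exact ⟨c, hc.symm⟩
  rw [h2] at h1
  have h3 : finrank k (⊥ : Subalgebra k (End k V)) = 1 := Subalgebra.finrank_bot
  rwa [h3, one_mul] at h1

theorem rep_rs {f : L → L} {χ : Dual k L} (ρ : L →ₗ[k] End k V) (hρ : Rep f χ ρ)
    (A : LieSubalgebra k L) (hA : ∀ x ∈ A, f x ∈ A) (W : Submodule k V)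
    (h : ∀ x ∈ A, ∀ w ∈ W, ρ x w ∈ W) :
    Rep (fs f A hA) (χ.comp A.toSubmodule.subtype) (rs ρ A W h) := by
  constructor
  · intro x y
    ext w
    have e := congrArg (fun g : End k V => g (w : V)) (hρ.lie (x : L) (y : L))
    simpa using e
  · intro x
    ext w
    have e : ρ (x : L) (ρ (x : L) (w : V)) = ρ (f (x : L)) (w : V) + χ (x : L) ^ 2 • (w : V) := by
      have e' := congrArg (fun g : End k V => g (w : V)) (hρ.sq (x : L))
      simpa [Algebra.algebraMap_eq_smul_one] using e'
    have e2 : (((algebraMap k (End k W)) ((χ.comp A.toSubmodule.subtype) x ^ 2) w : W) : V) =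
        χ (x : L) ^ 2 • (w : V) := by
      rw [Module.algebraMap_end_apply]
      rfl
    rw [LinearMap.add_apply, Submodule.coe_add, e2]
    exact e

theorem gen_irr {f : L → L} {χ : Dual k L} (ρ : L →ₗ[k] End k V) (hρ : Rep f χ ρ) (h : Irr ρ)
    (D : Submodule k L) (W : Submodule k V) (hW0 : W ≠ ⊥)
    (hW : ∀ x ∈ D, ∀ w ∈ W, ρ x w ∈ W) :
    finrank k V ≤ 2 ^ (finrank k L - finrank k D) * finrank k W := by
  refine gen ρ hρ D W hW fun X hX hWX => ?_
  rcases h.2 X hX with h1 | h1
  · exact absurd (le_bot_iff.1 (h1 ▸ hWX)) hW0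
  · exact h1

end Pool.Agent.SkS
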