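import Pool.Agent.Lib.SkS.Defs
import Pool.Agent.Lib.MP_fc2f40_al.PBW

/-!
# Module Pbw: the reduced enveloping algebra has dimension at least `2^n`

Proof.  Let `b` be a basis of `L` indexed by `I = Fin n`, `P = MvPolynomial I k`, and let
`Ξ x = ι(x)^2 - ι(f x) - χ(x)^2 ∈ U(L)`, central, additive and square homogeneous in `x`.  Let
`Θ : P → U(L)`, `Θ (X^a) = (∏ Ξ_i ^ (a_i / 2)) * Phi (X^(a % 2))`.  Then `Psi (Θ p) - p` has smaller degree
than `p`, so `Θ` is bijective; and `Θ (X_i^2 p) = Ξ_i Θ(p)`.  The left ideal `J` generated by the `Ξ_i` is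
two-sided and contains all `Ξ x`; an element of `J` is `∑ Ξ_i u_i = Θ (∑ X_i^2 q_i)`, so the elements
`Θ(X^ε) = Phi (X^ε)`, `ε ∈ {0,1}^n`, are linearly independent modulo `J`.  The left regular representation on
`U(L) / J` gives a map from `u(L,χ)` and so the classes of `Phi (X^ε)` in `u(L,χ)` are linearly independent.
-/

set_option linter.unusedSectionVars false

namespace Pool.Agent.SkS

open Module MvPolynomial Finsupp

open Pool.Agent.Lib.MP_fc2f40_al.PBW (mon W mon_mem_W W_mono X_mul_mon X_mul_mem_W A AL A_sub_mem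
  AL_basis rhoU rhoU_ι Phi Psi Phi_Psi Psi_apply Phi_mon mon_zero rhoU_Phi_mon coeff_of_mem_W exists_W)

noncomputable section

variable {k L : Type} [Field k] [LieRing L] [LieAlgebra k L]

/-- the central elements -/
private def Xi (f : L → L) (χ : Dual k L) (x : L) : UniversalEnvelopingAlgebra k L :=
  UniversalEnvelopingAlgebra.ι k x ^ 2 - UniversalEnvelopingAlgebra.ι k (f x) -
    algebraMap k (UniversalEnvelopingAlgebra k L) (χ x ^ 2)

private lemma Xi_comm {f : L → L} (h : Frz k f) (χ : Dual k L) (x : L)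
    (u : UniversalEnvelopingAlgebra k L) : Xi f χ x * u = u * Xi f χ x := by
  have key : ∀ u, Commute (UniversalEnvelopingAlgebra.ι k x ^ 2 - UniversalEnvelopingAlgebra.ι k (f x)) u := by
    intro u
    induction u using Pool.Agent.Lib.MP_fc2f40_al.PBW.U_induction with
    | algebraMap r => exact (Algebra.commutes r _).symm
    | ι y => exact h.comm x y
    | mul a b ha hb => exact ha.mul_right hb
    | add a b ha hb => exact ha.add_right hb
  have h2 : Commute (algebraMap k (UniversalEnvelopingAlgebra k L) (χ x ^ 2)) u :=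
    Algebra.commutes _ u
  exact ((key u).sub_left h2)

private lemma Xi_add [CharP k 2] {f : L → L} (h : Frz k f) (χ : Dual k L) (x y : L) :
    Xi f χ (x + y) = Xi f χ x + Xi f χ y := by
  unfold Xi
  have h2 : (2 : k) = 0 := CharP.cast_eq_zero k 2
  have e : χ (x + y) ^ 2 = χ x ^ 2 + χ y ^ 2 := by
    rw [map_add]
    linear_combination (χ x * χ y) * h2
  rw [h.add x y, e, map_add]
  abel

private lemma Xi_smul {f : L → L} (h : Frz k f) (χ : Dual k L) (a : k) (x : L) :
    Xi f χ (a • x) = a ^ 2 • Xi f χ x := by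
  unfold Xi
  have e : χ (a • x) ^ 2 = a ^ 2 * χ x ^ 2 := by
    rw [map_smul, smul_eq_mul, mul_pow]
  rw [h.smul a x, e, map_mul, ← Algebra.smul_def]
  simp only [smul_sub]

variable {n : ℕ} (b : Basis (Fin n) k L)

/-- the map to the center -/
private def zeta {f : L → L} (h : Frz k f) (χ : Dual k L) :
    MvPolynomial (Fin n) k →ₐ[k] Subalgebra.center k (UniversalEnvelopingAlgebra k L) :=
  MvPolynomial.aeval (fun i => ⟨Xi f χ (b i), Subalgebra.mem_center_iff.mpr
    (fun u => (Xi_comm h χ (b i) u).symm)⟩)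

private def hf (m : Fin n →₀ ℕ) : Fin n →₀ ℕ := m.mapRange (fun x => x / 2) rfl

private def md (m : Fin n →₀ ℕ) : Fin n →₀ ℕ := m.mapRange (fun x => x % 2) rfl

private lemma hf_md (m : Fin n →₀ ℕ) : (hf m + hf m) + md m = m := by
  ext i
  simp only [hf, md, Finsupp.add_apply, Finsupp.mapRange_apply]
  omega

/-- the adapted basis -/
private def Th {f : L → L} (h : Frz k f) (χ : Dual k L) :
    MvPolynomial (Fin n) k →ₗ[k] UniversalEnvelopingAlgebra k L :=
  (basisMonomials (Fin n) k).constr k (fun m =>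
    ((zeta b h χ (mon (hf m)) : Subalgebra.center k (UniversalEnvelopingAlgebra k L)) :
      UniversalEnvelopingAlgebra k L) * Phi b (mon (md m)))

private lemma Th_mon {f : L → L} (h : Frz k f) (χ : Dual k L) (m : Fin n →₀ ℕ) :
    Th b h χ (mon m) =
    ((zeta b h χ (mon (hf m)) : Subalgebra.center k (UniversalEnvelopingAlgebra k L)) :
      UniversalEnvelopingAlgebra k L) * Phi b (mon (md m)) := by
  have h1 := (basisMonomials (Fin n) k).constr_basis k (fun m : Fin n →₀ ℕ =>
    ((zeta b h χ (mon (hf m)) : Subalgebra.center k (UniversalEnvelopingAlgebra k L)) :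
      UniversalEnvelopingAlgebra k L) * Phi b (mon (md m))) m
  rw [coe_basisMonomials] at h1
  exact h1

private lemma lin_ext {V : Type} [AddCommGroup V] [Module k V]
    (F G : MvPolynomial (Fin n) k →ₗ[k] V) (h : ∀ m, F (mon m) = G (mon m)) : F = G := by
  apply (basisMonomials (Fin n) k).ext
  intro m
  rw [coe_basisMonomials]
  exact h m

private lemma zeta_single {f : L → L} (h : Frz k f) (χ : Dual k L) (i : Fin n) (c : Fin n →₀ ℕ) :
    ((zeta b h χ (mon (single i 1 + c)) : Subalgebra.center k (UniversalEnvelopingAlgebra k L)) :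
      UniversalEnvelopingAlgebra k L) = Xi f χ (b i) *
    ((zeta b h χ (mon c) : Subalgebra.center k (UniversalEnvelopingAlgebra k L)) :
      UniversalEnvelopingAlgebra k L) := by
  rw [← X_mul_mon, map_mul]
  have : zeta b h χ (X i) = ⟨Xi f χ (b i), Subalgebra.mem_center_iff.mpr
    (fun u => (Xi_comm h χ (b i) u).symm)⟩ := by
    unfold zeta
    rw [aeval_X]
  rw [this]
  rfl

private lemma zeta_zero {f : L → L} (h : Frz k f) (χ : Dual k L) :
    ((zeta b h χ (mon 0) : Subalgebra.center k (UniversalEnvelopingAlgebra k L)) :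
      UniversalEnvelopingAlgebra k L) = 1 := by
  rw [mon_zero, map_one]
  rfl

private lemma Th_X_sq {f : L → L} (h : Frz k f) (χ : Dual k L) (i : Fin n)
    (p : MvPolynomial (Fin n) k) :
    Th b h χ (X i * (X i * p)) = Xi f χ (b i) * Th b h χ p := by
  have : (Th b h χ).comp ((LinearMap.mulLeft k (X i)).comp (LinearMap.mulLeft k (X i))) =
      (LinearMap.mulLeft k (Xi f χ (b i))).comp (Th b h χ) := by
    apply lin_ext
    intro m
    simp only [LinearMap.comp_apply, LinearMap.mulLeft_apply]
    have e1 : (X i * (X i * mon m) : MvPolynomial (Fin n) k) = mon (single i 1 + (single i 1 + m)) := by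
      rw [X_mul_mon, X_mul_mon]
    have e2 : hf (single i 1 + (single i 1 + m)) = single i 1 + hf m := by
      ext j
      simp only [hf, Finsupp.add_apply, Finsupp.mapRange_apply, Finsupp.single_apply]
      split_ifs <;> omega
    have e3 : md (single i 1 + (single i 1 + m)) = md m := by
      ext j
      simp only [md, Finsupp.add_apply, Finsupp.mapRange_apply, Finsupp.single_apply]
      split_ifs <;> omega
    rw [e1, Th_mon, e2, e3, zeta_single, Th_mon, mul_assoc]
  have h2 := congrArg (fun G => G p) this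
  simpa using h2

private lemma AL_mem (x : L) (d : ℕ) (p : MvPolynomial (Fin n) k) (hp : p ∈ W k (Fin n) (d + 1)) :
    AL b x p ∈ W k (Fin n) (d + 1 + 1) := by
  have h1 : ∀ i, A b i p ∈ W k (Fin n) (d + 1 + 1) := by
    intro i
    have e1 := A_sub_mem b d i p hp
    have e2 := X_mul_mem_W i hp
    have e3 := Submodule.add_mem _ (W_mono (Nat.le_succ _) e1) e2
    rwa [sub_add_cancel] at e3
  rw [AL, Basis.constr_apply, Finsupp.sum, LinearMap.sum_apply]
  refine Submodule.sum_mem _ (fun j _ => ?_)
  rw [LinearMap.smul_apply]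
  exact Submodule.smul_mem _ _ (h1 j)

private lemma rhoU_Xi (f : L → L) (χ : Dual k L) (i : Fin n) (d : ℕ)
    (p : MvPolynomial (Fin n) k) (hp : p ∈ W k (Fin n) (d + 1)) :
    rhoU b (Xi f χ (b i)) p - X i * (X i * p) ∈ W k (Fin n) (d + 2) := by
  have e : rhoU b (Xi f χ (b i)) p = A b i (A b i p) - AL b (f (b i)) p - (χ (b i) ^ 2) • p := by
    unfold Xi
    rw [map_sub, map_sub, LinearMap.sub_apply, LinearMap.sub_apply, sq, map_mul,
      Module.End.mul_apply, rhoU_ι, rhoU_ι, rhoU_ι, AL_basis, AlgHom.commutes,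
      Module.algebraMap_end_apply]
  rw [e]
  have h1 := A_sub_mem b d i p hp
  have h2 := X_mul_mem_W i hp
  have h3 : A b i p ∈ W k (Fin n) (d + 1 + 1) := by
    have e3 := Submodule.add_mem _ (W_mono (Nat.le_succ _) h1) h2
    rwa [sub_add_cancel] at e3
  have h4 := A_sub_mem b (d + 1) i (A b i p) h3
  have h5 := X_mul_mem_W i h1
  have h6 := AL_mem b (f (b i)) d p hp
  have h7 := Submodule.smul_mem _ (χ (b i) ^ 2) (W_mono (Nat.le_succ _) hp)
  have h8 : A b i (A b i p) - AL b (f (b i)) p - (χ (b i) ^ 2) • p - X i * (X i * p) =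
      (A b i (A b i p) - X i * A b i p) + X i * (A b i p - X i * p) - AL b (f (b i)) p -
        (χ (b i) ^ 2) • p := by ring
  rw [h8]
  exact Submodule.sub_mem _ (Submodule.sub_mem _ (Submodule.add_mem _ h4 h5) h6) h7

private lemma mon_mul_mem_W (c : Fin n →₀ ℕ) (d : ℕ) (p : MvPolynomial (Fin n) k)
    (hp : p ∈ W k (Fin n) d) : mon c * p ∈ W k (Fin n) (d + c.degree) := by
  have : W k (Fin n) d ≤ (W k (Fin n) (d + c.degree)).comap
      (LinearMap.mulLeft k (mon c : MvPolynomial (Fin n) k)) := by
    rw [W, Submodule.span_le]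
    rintro _ ⟨m, hm, rfl⟩
    simp only [SetLike.mem_coe, Submodule.mem_comap, LinearMap.mulLeft_apply]
    have hm' : m.degree < d := hm
    have e : (mon c * monomial m 1 : MvPolynomial (Fin n) k) = mon (c + m) := by
      simp [monomial_mul]
    rw [e]
    apply mon_mem_W
    rw [map_add]
    omega
  exact this hp

private lemma exists_single (c : Fin n →₀ ℕ) (hc : c ≠ 0) : ∃ i c', c = single i 1 + c' := by
  obtain ⟨i, hi⟩ : ∃ i, c i ≠ 0 := by
    by_contra hcon
    push Not at hcon
    exact hc (Finsupp.ext hcon)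
  refine ⟨i, c - single i 1, ?_⟩
  rw [add_tsub_cancel_of_le]
  rw [Finsupp.single_le_iff]
  omega

private lemma rhoU_zeta {f : L → L} (h : Frz k f) (χ : Dual k L) (N : ℕ) :
    ∀ (c : Fin n →₀ ℕ), c.degree = N → ∀ (d : ℕ)
    (p : MvPolynomial (Fin n) k), p ∈ W k (Fin n) (d + 1) →
    rhoU b ((zeta b h χ (mon c) : Subalgebra.center k (UniversalEnvelopingAlgebra k L)) :
      UniversalEnvelopingAlgebra k L) p - mon (c + c) * p ∈ W k (Fin n) (d + 2 * N) := by
  induction N with
  | zero =>
    intro c hc d p hp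
    have hc0 : c = 0 := (Finsupp.degree_eq_zero_iff c).mp hc
    subst hc0
    rw [zeta_zero, map_one, Module.End.one_apply, add_zero, mon_zero, one_mul, sub_self]
    exact Submodule.zero_mem _
  | succ N ih =>
    intro c hc d p hp
    obtain ⟨i, c', rfl⟩ := exists_single c (by
      rintro rfl
      simp at hc)
    have hc' : c'.degree = N := by
      rw [map_add, degree_single] at hc
      omega
    have h1 := ih c' hc' d p hp
    rw [zeta_single, map_mul, Module.End.mul_apply]
    set q := rhoU b ((zeta b h χ (mon c') : Subalgebra.center k (UniversalEnvelopingAlgebra k L)) :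
      UniversalEnvelopingAlgebra k L) p with hq
    have h2 : mon (c' + c') * p ∈ W k (Fin n) (d + 2 * N + 1) := by
      have := mon_mul_mem_W (c' + c') (d + 1) p hp
      rw [map_add, hc'] at this
      exact W_mono (by omega) this
    have h3 : q ∈ W k (Fin n) (d + 2 * N + 1) := by
      have := Submodule.add_mem _ (W_mono (Nat.le_succ _) h1) h2
      rwa [sub_add_cancel] at this
    have h4 := rhoU_Xi b f χ i (d + 2 * N) q h3
    have h5 := X_mul_mem_W i (X_mul_mem_W i h1)
    have h6 := Submodule.add_mem _ h4 h5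
    have e : (mon (single i 1 + c' + (single i 1 + c')) : MvPolynomial (Fin n) k) =
        X i * (X i * mon (c' + c')) := by
      rw [X_mul_mon, X_mul_mon]
      congr 1
      abel
    have e2 : rhoU b (Xi f χ (b i)) q - mon (single i 1 + c' + (single i 1 + c')) * p =
        rhoU b (Xi f χ (b i)) q - X i * (X i * q) + X i * (X i * (q - mon (c' + c') * p)) := by
      rw [e]; ring
    rw [e2]
    exact W_mono (by omega) h6

private lemma Psi_Th_mon {f : L → L} (h : Frz k f) (χ : Dual k L) (m : Fin n →₀ ℕ) :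
    Psi b (Th b h χ (mon m)) - mon m ∈ W k (Fin n) m.degree := by
  rw [Th_mon, Psi_apply, map_mul, Module.End.mul_apply]
  have h1 := rhoU_Phi_mon b (md m) 0 1 (by rw [← mon_zero]; exact mon_mem_W (by simp))
  rw [mul_one, add_zero] at h1
  set q := rhoU b (Phi b (mon (md m))) 1 with hq
  have h2 : q ∈ W k (Fin n) ((md m).degree + 1) := by
    have := Submodule.add_mem _ (W_mono (Nat.le_succ _) h1)
      (mon_mem_W (R := k) (Nat.lt_succ_self (md m).degree))
    rwa [sub_add_cancel] at this
  have h3 := rhoU_zeta b h χ _ (hf m) rfl _ q h2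
  have h4 := mon_mul_mem_W (hf m + hf m) _ _ h1
  have h5 := Submodule.add_mem _ h3 (W_mono (by rw [map_add]; omega) h4)
  have e : (mon m : MvPolynomial (Fin n) k) = mon (hf m + hf m) * mon (md m) := by
    conv_lhs => rw [← hf_md m]
    simp [monomial_mul]
  have hdeg : m.degree = (hf m).degree + (hf m).degree + (md m).degree := by
    conv_lhs => rw [← hf_md m]
    rw [map_add, map_add]
  rw [hdeg, e]
  refine W_mono (by omega) (?_ : _ ∈ W k (Fin n) ((md m).degree + 2 * (hf m).degree))
  have e2 : ∀ u v w z : MvPolynomial (Fin n) k, u - v * z = (u - v * w) + v * (w - z) := by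
    intros; ring
  rw [e2 _ _ q]
  exact h5

private lemma Psi_Th {f : L → L} (h : Frz k f) (χ : Dual k L) (d : ℕ)
    (p : MvPolynomial (Fin n) k) (hp : p ∈ W k (Fin n) (d + 1)) :
    Psi b (Th b h χ p) - p ∈ W k (Fin n) d := by
  have : W k (Fin n) (d + 1) ≤ (W k (Fin n) d).comap
      ((Psi b).comp (Th b h χ) - LinearMap.id) := by
    conv_lhs => rw [W]
    rw [Submodule.span_le]
    rintro _ ⟨m, hm, rfl⟩
    have hm' : m.degree < d + 1 := hm
    exact W_mono (by omega) (Psi_Th_mon b h χ m)
  exact this hp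

private lemma W_zero (p : MvPolynomial (Fin n) k) (hp : p ∈ W k (Fin n) 0) : p = 0 := by
  have h0 : W k (Fin n) 0 = ⊥ := by
    rw [W]
    simp
  rw [h0] at hp
  exact hp

private lemma Th_inj {f : L → L} (h : Frz k f) (χ : Dual k L) :
    Function.Injective (Th b h χ) := by
  rw [injective_iff_map_eq_zero]
  intro p hp
  have key : ∀ d, p ∈ W k (Fin n) d → p = 0 := by
    intro d
    induction d with
    | zero => exact W_zero p
    | succ d ih =>
      intro hd
      apply ih
      have := Psi_Th b h χ d p hd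
      rw [hp, map_zero, zero_sub] at this
      have h2 := Submodule.neg_mem _ this
      rwa [neg_neg] at h2
  obtain ⟨d, hd⟩ := exists_W p
  exact key _ hd

private lemma Th_surj {f : L → L} (h : Frz k f) (χ : Dual k L) :
    Function.Surjective (Th b h χ) := by
  have key : ∀ d, ∀ q ∈ W k (Fin n) d, ∃ p, Psi b (Th b h χ p) = q := by
    intro d
    induction d with
    | zero =>
      intro q hq
      refine ⟨0, ?_⟩
      rw [W_zero q hq, map_zero, map_zero]
    | succ d ih =>
      intro q hq
      obtain ⟨p, hp⟩ := ih _ (Psi_Th b h χ d q hq)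
      refine ⟨q - p, ?_⟩
      rw [map_sub, map_sub, hp]
      abel
  intro u
  obtain ⟨d, hd⟩ := exists_W (Psi b u)
  obtain ⟨p, hp⟩ := key _ _ hd
  refine ⟨p, ?_⟩
  have := congrArg (Phi b) hp
  rwa [Phi_Psi, Phi_Psi] at this

/-- the ideal -/
private def JJ (f : L → L) (χ : Dual k L) :
    Submodule (UniversalEnvelopingAlgebra k L) (UniversalEnvelopingAlgebra k L) :=
  Submodule.span _ (Set.range (fun i => Xi f χ (b i)))

private lemma mem_JJ [CharP k 2] {f : L → L} (h : Frz k f) (χ : Dual k L) (x : L) :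
    Xi f χ x ∈ JJ b f χ := by
  have h0 : Xi f χ (0 : L) = 0 := by
    have := Xi_smul h χ 0 (0 : L)
    rw [zero_smul] at this
    rw [this]
    simp
  rw [← b.sum_repr x]
  induction (Finset.univ : Finset (Fin n)) using Finset.induction with
  | empty => rw [Finset.sum_empty, h0]; exact Submodule.zero_mem _
  | insert i s hi ih =>
    rw [Finset.sum_insert hi, Xi_add h, Xi_smul h]
    refine Submodule.add_mem _ ?_ ih
    rw [Algebra.smul_def]
    exact Submodule.smul_mem _ (algebraMap k (UniversalEnvelopingAlgebra k L) _)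
      (Submodule.subset_span ⟨i, rfl⟩)

private lemma JJ_repr {f : L → L} (h : Frz k f) (χ : Dual k L)
    (u : UniversalEnvelopingAlgebra k L) (hu : u ∈ JJ b f χ) :
    ∃ q : Fin n → MvPolynomial (Fin n) k, u = Th b h χ (∑ i, X i * (X i * q i)) := by
  rw [JJ, Submodule.mem_span_range_iff_exists_fun] at hu
  obtain ⟨c, hc⟩ := hu
  choose q hq using fun i => Th_surj b h χ (c i)
  refine ⟨q, ?_⟩
  rw [map_sum, ← hc]
  refine Finset.sum_congr rfl (fun i _ => ?_)
  rw [Th_X_sq, hq, smul_eq_mul, Xi_comm h]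

/-- exponent vectors -/
private def ex (ε : Fin n → Fin 2) : Fin n →₀ ℕ := Finsupp.equivFunOnFinite.symm (fun i => (ε i : ℕ))

private lemma ex_inj : Function.Injective (ex (n := n)) := by
  intro ε ε' h
  have h1 := Finsupp.equivFunOnFinite.symm.injective h
  funext i
  exact Fin.ext (congrFun h1 i)

private lemma coeff_sq (ε : Fin n → Fin 2) (i : Fin n) (q : MvPolynomial (Fin n) k) :
    coeff (ex ε) (X i * (X i * q)) = 0 := by
  classical
  rw [coeff_X_mul']
  split_ifs with h1
  · rw [coeff_X_mul', if_neg]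
    intro h2
    rw [Finsupp.mem_support_iff] at h2
    apply h2
    have := (ε i).isLt
    simp only [ex, Finsupp.tsub_apply, Finsupp.equivFunOnFinite_symm_apply_apply,
      Finsupp.single_eq_same]
    omega
  · rfl

private lemma Th_ex {f : L → L} (h : Frz k f) (χ : Dual k L) (ε : Fin n → Fin 2) :
    Th b h χ (mon (ex ε)) = Phi b (mon (ex ε)) := by
  have h1 : hf (ex ε) = 0 := by
    ext i
    have := (ε i).isLt
    simp only [hf, ex, Finsupp.mapRange_apply, Finsupp.equivFunOnFinite_symm_apply_apply,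
      Finsupp.coe_zero, Pi.zero_apply]
    omega
  have h2 : md (ex ε) = ex ε := by
    ext i
    have := (ε i).isLt
    simp only [md, ex, Finsupp.mapRange_apply, Finsupp.equivFunOnFinite_symm_apply_apply]
    omega
  rw [Th_mon, h1, h2, zeta_zero, one_mul]

/-- the map from the reduced enveloping algebra to the endomorphisms of `U / J` -/
private def liftQ [CharP k 2] {f : L → L} (h : Frz k f) (χ : Dual k L) :
    UU f χ →ₐ[k] Module.End k (UniversalEnvelopingAlgebra k L ⧸ JJ b f χ) :=
  RingQuot.liftAlgHom k ⟨Algebra.lsmul k k (UniversalEnvelopingAlgebra k L ⧸ JJ b f χ), by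
    rintro _ _ ⟨x, rfl, rfl⟩
    rw [← sub_eq_zero, ← map_sub]
    apply LinearMap.ext
    intro w
    obtain ⟨v, rfl⟩ := Submodule.Quotient.mk_surjective _ w
    change Submodule.Quotient.mk (Xi f χ x * v) = (0 : UniversalEnvelopingAlgebra k L ⧸ JJ b f χ)
    rw [Submodule.Quotient.mk_eq_zero, Xi_comm h]
    exact Submodule.smul_mem _ _ (mem_JJ b h χ x)⟩

private theorem main_aux [CharP k 2] {f : L → L} (h : Frz k f) (χ : Dual k L) :
    LinearIndependent k (fun ε : Fin n → Fin 2 =>
      RingQuot.mkAlgHom k (Urel f χ) (Phi b (mon (ex ε)))) := by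
  set g : UU f χ →ₗ[k] (UniversalEnvelopingAlgebra k L ⧸ JJ b f χ) :=
    (LinearMap.applyₗ (Submodule.Quotient.mk (1 : UniversalEnvelopingAlgebra k L) :
      UniversalEnvelopingAlgebra k L ⧸ JJ b f χ)).comp (liftQ b h χ).toLinearMap with hg
  have hgu : ∀ u, g (RingQuot.mkAlgHom k (Urel f χ) u) = Submodule.Quotient.mk u := by
    intro u
    have e : liftQ b h χ (RingQuot.mkAlgHom k (Urel f χ) u) =
        Algebra.lsmul k k (UniversalEnvelopingAlgebra k L ⧸ JJ b f χ) u := by
      unfold liftQ
      rw [RingQuot.liftAlgHom_mkAlgHom_apply]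
    change liftQ b h χ (RingQuot.mkAlgHom k (Urel f χ) u) _ = _
    rw [e]
    change Submodule.Quotient.mk (u * 1) = (Submodule.Quotient.mk u : UniversalEnvelopingAlgebra k L ⧸ JJ b f χ)
    rw [mul_one]
  apply LinearIndependent.of_comp g
  rw [Fintype.linearIndependent_iff]
  intro c hc ε0
  have h1 : (Submodule.Quotient.mk (∑ ε, c ε • Phi b (mon (ex ε))) :
      UniversalEnvelopingAlgebra k L ⧸ JJ b f χ) = 0 := by
    rw [← hgu, map_sum, map_sum, ← hc]
    refine Finset.sum_congr rfl (fun ε _ => ?_)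
    rw [map_smul, map_smul]
    rfl
  rw [Submodule.Quotient.mk_eq_zero] at h1
  obtain ⟨q, hq⟩ := JJ_repr b h χ _ h1
  have h2 : ∑ ε, c ε • Phi b (mon (ex ε)) = Th b h χ (∑ ε, c ε • mon (ex ε)) := by
    rw [map_sum]
    refine Finset.sum_congr rfl (fun ε _ => ?_)
    rw [map_smul, Th_ex]
  rw [h2] at hq
  have h3 := congrArg (coeff (ex ε0)) (Th_inj b h χ hq)
  rw [coeff_sum, coeff_sum] at h3
  simp only [coeff_sq, Finset.sum_const_zero, coeff_smul, smul_eq_mul] at h3
  rw [← h3]
  rw [Finset.sum_eq_single ε0]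
  · simp
  · intro ε _ hne
    rw [mon, coeff_monomial, if_neg, mul_zero]
    intro he
    exact hne (ex_inj he)
  · intro hn
    exact absurd (Finset.mem_univ _) hn

end

variable {k L : Type} [Field k] [CharP k 2] [LieRing L] [LieAlgebra k L] [FiniteDimensional k L]

theorem exists_linearIndependent_UU {f : L → L} (h : Frz k f) (χ : Dual k L) :
    ∃ v : (Fin (finrank k L) → Fin 2) → UU f χ, LinearIndependent k v :=
  ⟨_, main_aux (finBasis k L) h χ⟩

end Pool.Agent.SkS
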