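import Pool.Agent.Lib.SkS.BC

/-!
# Module G12: facts (G1), (G2) for an irreducible representation of dimension `≥ 2^{n/2}`

`center_zero`: `ρ c` commutes with all `ρ y`, so it is scalar (`schur`); if `c ≠ 0`, `bc_scalar` with `D = k c`
(`finrank = 1`) gives `(finrank V)^2 ≤ 2^{n-1} < 2^n`.
`G2`: for `m ∈ M`: `⁅f m, y⁆ = ⁅m,⁅m,y⁆⁆ = 0` so `f m = 0` by `center_zero`; `ρ m` commute and `(ρ m - χ m)^2 = (ρ m)^2 + χ(m)^2 = 0` in characteristic 2.
`V1 = {v : ρ m v = χ(m) v ∀ m ∈ M} ≠ 0` (`common_kernel` for the operators `ρ m - χ m`).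
`Lw = {x : χ ⁅x, m⁆ = 0 ∀ m ∈ M}` is a Lie subalgebra (as in module Red; here `⁅y,m⁆ ∈ M` suffices), closed under `f`, contains `M`;
`V1` is `Lw`-stable (`ρ m ρ x v = ρ x ρ m v + ρ ⁅m,x⁆ v`, `ρ ⁅m,x⁆ v = χ ⁅m,x⁆ v = 0`).
`exists_irr` gives `W' ≤ V1`; `bc_scalar` for the restricted representation on `W'` (`rep_rs`) with `D = M` as a submodule of `Lw`:
`(finrank W')^2 ≤ 2^{dim Lw - dim M}`; `gen_irr`: `finrank V ≤ 2^{n - dim Lw} finrank W'`.
Hence `2^n ≤ 2^{2(n - dim Lw)} 2^{dim Lw - dim M}`, so `dim Lw + dim M ≤ n`.  If `0 ≠ m0 ∈ M` has `χ ⁅y, m0⁆ = 0` for all `y`, then the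
map `L → Dual k M`, `x ↦ χ ⁅x, ·⁆` (kernel `Lw`) has image in the annihilator of `m0`, so `n - dim Lw ≤ dim M - 1`: contradiction.
-/

namespace Pool.Agent.SkS

open Module

variable {k L V : Type} [Field k] [CharP k 2] [IsAlgClosed k] [LieRing L] [LieAlgebra k L]
  [AddCommGroup V] [Module k V] [FiniteDimensional k V] [FiniteDimensional k L]

theorem center_zero {f : L → L} {χ : Dual k L} (ρ : L →ₗ[k] End k V) (hρ : Rep f χ ρ) (h : Irr ρ)
    (hd : 2 ^ finrank k L ≤ finrank k V ^ 2) (c : L) (hc : ∀ y : L, ⁅c, y⁆ = 0) : c = 0 := by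
  by_contra hne
  obtain ⟨a, ha⟩ := schur ρ h (ρ c) (fun x => by
    have h1 := hρ.lie c x
    rw [hc x, map_zero] at h1
    exact (sub_eq_zero.1 h1.symm))
  have h2 := bc_scalar ρ hρ h (Submodule.span k {c}) (fun x hx => by
    obtain ⟨b, rfl⟩ := Submodule.mem_span_singleton.1 hx
    refine ⟨b * a, ?_⟩
    rw [map_smul, ha, map_mul, Algebra.smul_def])
  rw [finrank_span_singleton hne] at h2
  have h3 : 0 < finrank k L := by
    have : Nontrivial L := ⟨⟨c, 0, hne⟩⟩
    exact finrank_pos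
  have h4 : 2 ^ finrank k L ≤ 2 ^ (finrank k L - 1) := hd.trans h2
  have h5 := (Nat.pow_le_pow_iff_right (by norm_num : 1 < 2)).1 h4
  omega

/-- the orthogonal of an ideal -/
private def Lw (χ : Dual k L) (M : LieIdeal k L) : LieSubalgebra k L where
  carrier := {x | ∀ m ∈ M, χ ⁅x, m⁆ = 0}
  add_mem' := by
    intro a b ha hb m hm
    rw [add_lie, map_add, ha m hm, hb m hm, add_zero]
  zero_mem' := by
    intro m _
    rw [zero_lie, map_zero]
  smul_mem' := by
    intro c x hx m hm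
    rw [smul_lie, map_smul, hx m hm, smul_zero]
  lie_mem' := by
    intro x y hx hy m hm
    rw [lie_lie, map_sub, hx _ (lie_mem_right k L M y m hm), hy _ (lie_mem_right k L M x m hm), sub_zero]

omit [CharP k 2] [IsAlgClosed k] [FiniteDimensional k L] in
private lemma mem_Lw (χ : Dual k L) (M : LieIdeal k L) (x : L) :
    x ∈ Lw χ M ↔ ∀ m ∈ M, χ ⁅x, m⁆ = 0 := Iff.rfl

/-- the weight space -/
private def Vw (χ : Dual k L) (ρ : L →ₗ[k] End k V) (M : LieIdeal k L) : Submodule k V where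
  carrier := {v | ∀ m ∈ M, ρ m v = χ m • v}
  add_mem' := by
    intro a b ha hb m hm
    rw [map_add, ha m hm, hb m hm, smul_add]
  zero_mem' := by
    intro m _
    rw [map_zero, smul_zero]
  smul_mem' := by
    intro c x hx m hm
    rw [map_smul, hx m hm, smul_comm]

omit [CharP k 2] [IsAlgClosed k] [FiniteDimensional k L] [FiniteDimensional k V] in
private lemma mem_Vw (χ : Dual k L) (ρ : L →ₗ[k] End k V) (M : LieIdeal k L) (v : V) :
    v ∈ Vw χ ρ M ↔ ∀ m ∈ M, ρ m v = χ m • v := Iff.rfl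

/-- the pairing -/
private def Phi (χ : Dual k L) (M : LieIdeal k L) : L →ₗ[k] Dual k M where
  toFun x :=
    { toFun := fun m => χ ⁅x, (m : L)⁆
      map_add' := fun a b => by
        rw [LieSubmodule.coe_add, lie_add, map_add]
      map_smul' := fun c a => by
        rw [LieSubmodule.coe_smul, lie_smul, map_smul, RingHom.id_apply] }
  map_add' x y := by
    ext m
    simp only [LinearMap.coe_mk, AddHom.coe_mk, LinearMap.add_apply, add_lie, map_add]
  map_smul' c x := by
    ext m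
    simp only [LinearMap.coe_mk, AddHom.coe_mk, LinearMap.smul_apply, smul_lie, map_smul,
      RingHom.id_apply]

theorem G2 {f : L → L} (hf : Rst k f) {χ : Dual k L} (ρ : L →ₗ[k] End k V) (hρ : Rep f χ ρ)
    (h : Irr ρ) (hd : 2 ^ finrank k L ≤ finrank k V ^ 2) (M : LieIdeal k L)
    (hM : ∀ x ∈ M, ∀ y ∈ M, ⁅x, y⁆ = 0) (m : L) (hm : m ∈ M) (hy : ∀ y : L, χ ⁅y, m⁆ = 0) :
    m = 0 := by
  have hf0 : ∀ x ∈ M, f x = 0 := by
    intro x hx
    refine center_zero ρ hρ h hd (f x) (fun y => ?_)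
    rw [hf.lie]
    exact hM x hx _ (lie_mem_left k L M x y hx)
  have h2 : (2 : k) = 0 := CharTwo.two_eq_zero
  -- the weight space is nonzero
  obtain ⟨v, -, hv0, hv⟩ := common_kernel
    {a : End k V | ∃ x ∈ M, a = ρ x - algebraMap k (End k V) (χ x)} (by
      rintro a ⟨x, hx, rfl⟩ b ⟨y, hy', rfl⟩
      have h3 : ρ x * ρ y = ρ y * ρ x := by
        have h4 := hρ.lie x y
        rw [hM x hx y hy', map_zero] at h4
        exact sub_eq_zero.1 h4.symm
      have c1 := Algebra.commutes (χ x) (ρ y)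
      have c2 := Algebra.commutes (χ y) (ρ x)
      have c3 := Algebra.commutes (χ y) (algebraMap k (End k V) (χ x))
      simp only [sub_mul, mul_sub, h3, c1, c2, c3]
      abel) (by
      rintro a ⟨x, hx, rfl⟩
      refine ⟨2, ?_⟩
      have h3 := hρ.sq x
      rw [hf0 x hx, map_zero, zero_add, map_pow] at h3
      have c1 := Algebra.commutes (χ x) (ρ x)
      have h5 : (ρ x - algebraMap k (End k V) (χ x)) ^ 2 =
          (2 : k) • (algebraMap k (End k V) (χ x) ^ 2 - algebraMap k (End k V) (χ x) * ρ x) := by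
        rw [two_smul, pow_two, sub_mul, mul_sub, mul_sub, h3, c1, pow_two]
        abel
      rw [h5, h2, zero_smul])
    ⊤ (by
      have := h.1
      exact top_ne_bot) (fun _ _ _ _ => Submodule.mem_top)
  have hvV : v ∈ Vw χ ρ M := by
    intro x hx
    have h3 := hv _ ⟨x, hx, rfl⟩
    rw [LinearMap.sub_apply, Module.algebraMap_end_apply] at h3
    exact sub_eq_zero.1 h3
  have hVne : Vw χ ρ M ≠ ⊥ := fun hb => by
    rw [hb] at hvV
    exact hv0 ((Submodule.mem_bot k).1 hvV)
  have hst : ∀ x ∈ Lw χ M, ∀ w ∈ Vw χ ρ M, ρ x w ∈ Vw χ ρ M := by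
    intro x hx w hw y hy'
    have h3 := congrArg (fun a : End k V => a w) (hρ.lie y x)
    simp only [LinearMap.sub_apply, Module.End.mul_apply] at h3
    have h4 : ⁅y, x⁆ ∈ M := lie_mem_left k L M y x hy'
    rw [hw _ h4, hw y hy', map_smul] at h3
    have h5 : χ ⁅y, x⁆ = 0 := by
      rw [← lie_skew, map_neg, hx y hy', neg_zero]
    rw [h5, zero_smul] at h3
    exact sub_eq_zero.1 h3.symm
  have hfm : ∀ x ∈ Lw χ M, f x ∈ Lw χ M := by
    intro x hx y hy'
    rw [hf.lie]
    exact hx _ (lie_mem_right k L M x y hy')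
  have hMLw : ∀ x ∈ M, x ∈ Lw χ M := by
    intro x hx y hy'
    rw [hM x hx y hy', map_zero]
  obtain ⟨W', h', hW'le, hW'ne, hirr⟩ := exists_irr ρ (Lw χ M) (Vw χ ρ M) hVne hst
  have hrep := rep_rs ρ hρ (Lw χ M) hfm W' h'
  have hle : M.toSubmodule ≤ (Lw χ M).toSubmodule := fun x hx => hMLw x hx
  let D : Submodule k (Lw χ M) := Submodule.comap (Lw χ M).toSubmodule.subtype M.toSubmodule
  have b1 := bc_scalar (rs ρ (Lw χ M) W' h') hrep hirr D (by
      intro x hx
      have hx' : (x : L) ∈ M := hx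
      refine ⟨χ (x : L), ?_⟩
      ext w
      rw [rs_apply, Module.algebraMap_end_apply]
      exact hW'le w.2 _ hx')
  have e1 : finrank k D = finrank k M :=
    LinearEquiv.finrank_eq (Submodule.comapSubtypeEquivOfLe hle)
  rw [e1] at b1
  have b2 := gen_irr ρ hρ h (Lw χ M).toSubmodule W' hW'ne h'
  have d1 : finrank k M ≤ finrank k (Lw χ M) := Submodule.finrank_mono hle
  have d2 : finrank k (Lw χ M) ≤ finrank k L := Submodule.finrank_le _
  have e2 : finrank k (Lw χ M).toSubmodule = finrank k (Lw χ M) := rfl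
  rw [e2] at b2
  have b3 : 2 ^ finrank k L ≤
      2 ^ (2 * (finrank k L - finrank k (Lw χ M)) + (finrank k (Lw χ M) - finrank k M)) := by
    calc 2 ^ finrank k L ≤ finrank k V ^ 2 := hd
      _ ≤ (2 ^ (finrank k L - finrank k (Lw χ M)) * finrank k W') ^ 2 := Nat.pow_le_pow_left b2 2
      _ = (2 ^ (finrank k L - finrank k (Lw χ M))) ^ 2 * finrank k W' ^ 2 := by rw [mul_pow]
      _ ≤ (2 ^ (finrank k L - finrank k (Lw χ M))) ^ 2 *
          2 ^ (finrank k (Lw χ M) - finrank k M) := Nat.mul_le_mul_left _ b1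
      _ = _ := by
        rw [← pow_mul, ← pow_add, mul_comm (finrank k L - finrank k (Lw χ M)) 2]
  have b4 := (Nat.pow_le_pow_iff_right (by norm_num : 1 < 2)).1 b3
  have b5 : finrank k (Lw χ M) + finrank k M ≤ finrank k L := by omega
  -- the pairing
  by_contra hne
  have hker : LinearMap.ker (Phi χ M) = (Lw χ M).toSubmodule := by
    ext x
    rw [LinearMap.mem_ker]
    constructor
    · intro hx y hy'
      have := congrArg (fun g : Dual k M => g ⟨y, hy'⟩) hx
      simpa [Phi] using this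
    · intro hx
      ext y
      simpa [Phi] using hx y y.2
  have hrk := LinearMap.finrank_range_add_finrank_ker (Phi χ M)
  rw [hker, e2] at hrk
  set m0 : M := ⟨m, hm⟩ with hm0
  have hm0ne : m0 ≠ 0 := fun h0 => hne (congrArg Subtype.val h0)
  have hran : LinearMap.range (Phi χ M) ≤ (Submodule.span k {m0}).dualAnnihilator := by
    rintro g ⟨x, rfl⟩
    rw [Submodule.mem_dualAnnihilator]
    intro w hw
    obtain ⟨b, rfl⟩ := Submodule.mem_span_singleton.1 hw
    rw [map_smul]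
    have : Phi χ M x m0 = 0 := hy x
    rw [this, smul_zero]
  have h6 := Submodule.finrank_mono hran
  have h7 := Subspace.finrank_add_finrank_dualAnnihilator_eq (Submodule.span k {m0})
  rw [finrank_span_singleton hm0ne] at h7
  omega

end Pool.Agent.SkS
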