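import Pool.Agent.Lib.SkS.Defs

/-!
# Module Tor: Lemma T0, existence of a toral element

Write `d_i = f^[i] d`.  `⁅d_i, d_j⁆ = 0` (`⁅f x, y⁆ = ⁅x,⁅x,y⁆⁆`, `⁅d, d_j⁆ = -⁅d_j, d⁆ = 0` by induction), so on the span of the
`d_i` the map `f` is additive, and `f (a • x) = a^2 • f x`.  Let `l` be minimal with `d_l ∈ span {d_i : i < l}` (finite dimension), so
`d_0, ..., d_{l-1}` are linearly independent; `l ≥ 1` since `d ≠ 0`.  `d_l = Σ_{i<l} c_i d_i`, not all `c_i = 0` because `d_l ≠ 0`.
Polynomials `p_0 = c_0 X^2`, `p_i = p_{i-1}^2 + c_i X^2` (`i < l`): all divisible by `X^2`.  `p_{l-1} ≠ 0`: if `p_i = 0` then `p_{i-1}^2 = c_i X^2`,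
so `X^4 ∣ c_i X^2`, `c_i = 0` and `p_{i-1} = 0`, ... , all `c = 0`.  `p_{l-1} = X^2 q`, `q ≠ 0`; `X q - 1` has positive degree or ...
(degree of `X q` is `≥ 1`), so it has a root `s` (`IsAlgClosed.exists_root`), `s ≠ 0`, `p_{l-1}(s) = s`.
`t = Σ p_i(s) d_i`: `f t = Σ p_i(s)^2 d_{i+1} = t`, and `t ≠ 0` since its last coefficient is `s ≠ 0`.
(Any other proof is welcome.)
-/

namespace Pool.Agent.SkS

open Module Polynomial

/-- the polynomials `p_i` -/
private noncomputable def torP {k : Type} [Field k] (c : ℕ → k) : ℕ → k[X]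
  | 0 => C (c 0) * X ^ 2
  | i + 1 => (torP c i) ^ 2 + C (c (i + 1)) * X ^ 2

private lemma torP_dvd {k : Type} [Field k] (c : ℕ → k) (i : ℕ) : X ^ 2 ∣ torP c i := by
  induction i with
  | zero => exact dvd_mul_left _ _
  | succ i ih =>
    simp only [torP]
    exact dvd_add (dvd_pow ih (by norm_num)) (dvd_mul_left _ _)

private lemma torP_zero {k : Type} [Field k] (c : ℕ → k) (i : ℕ) (h : torP c i = 0) :
    ∀ j, j ≤ i → c j = 0 := by
  have key : ∀ a : k, C a * X ^ 2 = (0 : k[X]) → a = 0 := by
    intro a ha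
    rcases mul_eq_zero.mp ha with h1 | h1
    · exact C_eq_zero.mp h1
    · exact absurd h1 (pow_ne_zero _ X_ne_zero)
  induction i with
  | zero =>
    intro j hj
    obtain rfl : j = 0 := by omega
    exact key _ h
  | succ i ih =>
    have h1 : c (i + 1) = 0 ∧ torP c i = 0 := by
      simp only [torP] at h
      obtain ⟨q, hq⟩ := torP_dvd c i
      rw [hq] at h
      have h2 : (X ^ 2 : k[X]) * (X ^ 2 * q ^ 2 + C (c (i + 1))) = 0 := by
        rw [← h]; ring
      rcases mul_eq_zero.mp h2 with h3 | h3
      · exact absurd h3 (pow_ne_zero _ X_ne_zero)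
      · have h4 := congrArg (Polynomial.eval 0) h3
        simp at h4
        rw [h4, C_0, add_zero] at h3
        rcases mul_eq_zero.mp h3 with h5 | h5
        · exact absurd h5 (pow_ne_zero _ X_ne_zero)
        · refine ⟨h4, ?_⟩
          rw [hq, pow_eq_zero_iff (two_ne_zero) |>.mp h5, mul_zero]
    intro j hj
    rcases Nat.lt_or_ge i j with h2 | h2
    · obtain rfl : j = i + 1 := by omega
      exact h1.1
    · exact ih h1.2 j h2

variable {k L : Type} [Field k] [CharP k 2] [IsAlgClosed k] [LieRing L] [LieAlgebra k L]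
  [FiniteDimensional k L]

theorem exists_toral {f : L → L} (hf : Rst k f) (d : L) (hn : ∀ N : ℕ, f^[N] d ≠ 0) :
    ∃ t ∈ Submodule.span k (Set.range (fun i : ℕ => f^[i] d)), t ≠ 0 ∧ f t = t := by
  classical
  set D : ℕ → L := fun i => f^[i] d with hD
  have hDs : ∀ i, f (D i) = D (i + 1) := by
    intro i
    simp only [hD]
    rw [Function.iterate_succ_apply']
  -- brackets
  have hb1 : ∀ (y : L), ⁅d, y⁆ = 0 → ∀ i, ⁅D i, y⁆ = 0 := by
    intro y hy i
    induction i with
    | zero => simpa [hD] using hy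
    | succ i ih => rw [← hDs, hf.lie, ih, lie_zero]
  have hb2 : ∀ i, ⁅D i, d⁆ = 0 := hb1 d (lie_self d)
  have hb3 : ∀ i j, ⁅D i, D j⁆ = 0 := by
    intro i j
    apply hb1
    rw [← lie_skew, hb2, neg_zero]
  have hf0 : f 0 = 0 := by
    have := hf.add 0 0
    rw [add_zero, lie_self, add_zero] at this
    simpa using this
  have hbs : ∀ (a : ℕ → k) (m j : ℕ), ⁅∑ i ∈ Finset.range m, a i • D i, D j⁆ = 0 := by
    intro a m j
    rw [sum_lie]
    apply Finset.sum_eq_zero
    intro i _
    rw [smul_lie, hb3, smul_zero]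
  have hfs : ∀ (a : ℕ → k) (m : ℕ), f (∑ i ∈ Finset.range m, a i • D i) =
      ∑ i ∈ Finset.range m, (a i) ^ 2 • D (i + 1) := by
    intro a m
    induction m with
    | zero => simpa using hf0
    | succ m ih =>
      rw [Finset.sum_range_succ, Finset.sum_range_succ, hf.add, ih, hf.smul, hDs, lie_smul, hbs,
        smul_zero, add_zero]
  -- minimal `l`
  have hex : ∃ l, D l ∈ Submodule.span k (Set.range (fun i : Fin l => D i)) := by
    by_contra h
    push Not at h
    have hli : ∀ n : ℕ, LinearIndependent k (fun i : Fin n => D i) := by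
      intro n
      induction n with
      | zero => exact linearIndependent_empty_type
      | succ n ih =>
        rw [linearIndependent_finSucc']
        refine ⟨?_, ?_⟩
        · exact ih
        · exact h n
    have := (hli (finrank k L + 1)).fintype_card_le_finrank
    simp at this
  set l := Nat.find hex with hl
  have hl1 : D l ∈ Submodule.span k (Set.range (fun i : Fin l => D i)) := Nat.find_spec hex
  have hl2 : ∀ n, n < l → D n ∉ Submodule.span k (Set.range (fun i : Fin n => D i)) :=
    fun n hn => Nat.find_min hex hn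
  have hli : ∀ n : ℕ, n ≤ l → LinearIndependent k (fun i : Fin n => D i) := by
    intro n
    induction n with
    | zero => intro _; exact linearIndependent_empty_type
    | succ n ih =>
      intro hnl
      rw [linearIndependent_finSucc']
      exact ⟨ih (by omega), hl2 n (by omega)⟩
  have hLI := hli l le_rfl
  have hl0 : l ≠ 0 := by
    intro h0
    rw [h0] at hl1
    have : D 0 = 0 := by
      simpa using hl1
    exact hn 0 this
  obtain ⟨n, hn1⟩ := Nat.exists_eq_succ_of_ne_zero hl0
  rw [hn1] at hl1 hLI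
  obtain ⟨c', hc'⟩ := (Submodule.mem_span_range_iff_exists_fun k).mp hl1
  set c : ℕ → k := fun i => if h : i < n + 1 then c' ⟨i, h⟩ else 0 with hc
  have hcs : D (n + 1) = ∑ i ∈ Finset.range (n + 1), c i • D i := by
    rw [← hc', Finset.sum_range]
    apply Finset.sum_congr rfl
    intro i _
    simp only [hc]
    rw [dif_pos i.2]
  -- the polynomial
  have hp : torP c n ≠ 0 := by
    intro h
    have h1 := torP_zero c n h
    have : D (n + 1) = 0 := by
      rw [hcs]
      apply Finset.sum_eq_zero
      intro i hi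
      rw [h1 i (by simpa [Nat.lt_succ_iff] using hi), zero_smul]
    exact hn (n + 1) this
  obtain ⟨q, hq⟩ := torP_dvd c n
  have hq0 : q ≠ 0 := by
    rintro rfl
    exact hp (by rw [hq, mul_zero])
  have hdeg : (X * q - 1 : k[X]).degree ≠ 0 := by
    have h1 : (1 : k[X]).degree < (X * q).degree := by
      rw [degree_one, degree_mul, degree_X, degree_eq_natDegree hq0]
      norm_cast
      omega
    rw [degree_sub_eq_left_of_degree_lt h1]
    intro h2
    rw [h2, degree_one] at h1
    exact lt_irrefl _ h1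
  obtain ⟨s, hs⟩ := IsAlgClosed.exists_root _ hdeg
  have hs1 : s * q.eval s = 1 := by
    have : s * q.eval s - 1 = 0 := by simpa [IsRoot] using hs
    exact sub_eq_zero.mp this
  have hs0 : s ≠ 0 := by
    rintro rfl
    simp at hs1
  have hev : (torP c n).eval s = s := by
    rw [hq]
    simp only [eval_mul, eval_pow, eval_X]
    calc s ^ 2 * q.eval s = s * (s * q.eval s) := by ring
      _ = s := by rw [hs1, mul_one]
  -- the element
  set a : ℕ → k := fun i => (torP c i).eval s with ha
  have ha0 : a 0 = c 0 * s ^ 2 := by simp [ha, torP]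
  have has : ∀ i, a (i + 1) = a i ^ 2 + c (i + 1) * s ^ 2 := by
    intro i; simp [ha, torP]
  refine ⟨∑ i ∈ Finset.range (n + 1), a i • D i, ?_, ?_, ?_⟩
  · exact Submodule.sum_mem _ (fun i _ => Submodule.smul_mem _ _ (Submodule.subset_span ⟨i, rfl⟩))
  · intro h0
    rw [Finset.sum_range] at h0
    have h1 := Fintype.linearIndependent_iff.mp hLI (fun i => a i) h0 (Fin.last n)
    simp only [Fin.val_last] at h1
    apply hs0
    rw [← hev]
    exact h1
  · rw [hfs, Finset.sum_range_succ, hcs]
    have h1 : a n = s := hev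
    rw [h1, Finset.smul_sum, Finset.sum_range_succ' (fun i => s ^ 2 • c i • D i),
      Finset.sum_range_succ' (fun i => a i • D i), ← add_assoc, ← Finset.sum_add_distrib]
    congr 1
    · apply Finset.sum_congr rfl
      intro i _
      rw [has, add_smul, smul_smul, mul_comm (s ^ 2)]
    · rw [ha0, smul_smul, mul_comm (s ^ 2)]

end Pool.Agent.SkS
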