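import Pool.Agent.Lib.SkS.Span

/-!
# Module Cnt: counting with an adapted basis

`cnt`.  Choose a basis of `D` (`d` elements) followed by a basis of a complement (`s = n - d` elements):
a family `Fin (d+s) → L` spanning `L`.  `E(x, ε)` splits (`List.ofFn_add` / `List.ofFn_append`-type lemma, prove
`E (Fin.append x y) ε = E x (ε ∘ castAdd) * E y (ε ∘ natAdd)`), the first factor is in `adjoin (θ '' D)`.  So
`adjoin (range θ) ≤ Σ_{ε'} (adjoin (θ '' D)) * E y ε'`, a sum of `2^s` subspaces of dimension `≤ finrank (adjoin (θ '' D))`.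
`gen`.  Complement first, `D` last: `X = Σ_{ε} E y ε (W)` contains `W`; every element of `adjoin (range ρ)` applied
to `w ∈ W` is in `X` by `span_E`, so `Y = {adjoin · W}` span is stable under all `ρ x`, contains `W`, so is `⊤`, and `Y ≤ X`.
`dim X ≤ 2^s dim W`.
`fin_adjoin`: `D = ⊥`, or directly from `span_E` with `n = finrank k L`.
-/

namespace Pool.Agent.SkS

open Module

variable {k L : Type} [Field k] [LieRing L] [LieAlgebra k L] [FiniteDimensional k L]

private lemma E_add {A : Type} [Ring A] {d s : ℕ} (x : Fin (d + s) → A) (ε : Fin (d + s) → Fin 2) :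
    E x ε = E (fun i => x (Fin.castAdd s i)) (fun i => ε (Fin.castAdd s i)) *
      E (fun i => x (Fin.natAdd d i)) (fun i => ε (Fin.natAdd d i)) := by
  unfold E
  rw [List.ofFn_add, List.prod_append]
  rfl

private lemma E_mem {A : Type} [Ring A] [Algebra k A] {n : ℕ} (x : Fin n → A) (ε : Fin n → Fin 2)
    (S : Subalgebra k A) (hx : ∀ i, x i ∈ S) : E x ε ∈ S := by
  unfold E
  apply Subalgebra.list_prod_mem
  intro a ha
  rw [List.mem_ofFn] at ha
  obtain ⟨i, rfl⟩ := ha
  exact S.pow_mem (hx i) _

omit [FiniteDimensional k L] in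
private lemma span_append {d s : ℕ} (D C : Submodule k L) (hDC : IsCompl D C)
    (x : Basis (Fin d) k D) (y : Basis (Fin s) k C) :
    Submodule.span k (Set.range (Fin.append (fun i => (x i : L)) (fun j => (y j : L)))) = ⊤ := by
  rw [eq_top_iff, ← hDC.sup_eq_top]
  apply sup_le
  · intro v hv
    have h1 := x.mem_span ⟨v, hv⟩
    have h2 := Submodule.mem_map_of_mem (f := D.subtype) h1
    rw [Submodule.map_span] at h2
    refine Submodule.span_mono ?_ h2
    rintro _ ⟨_, ⟨i, rfl⟩, rfl⟩
    exact ⟨Fin.castAdd s i, by simp⟩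
  · intro v hv
    have h1 := y.mem_span ⟨v, hv⟩
    have h2 := Submodule.mem_map_of_mem (f := C.subtype) h1
    rw [Submodule.map_span] at h2
    refine Submodule.span_mono ?_ h2
    rintro _ ⟨_, ⟨i, rfl⟩, rfl⟩
    exact ⟨Fin.natAdd d i, by simp⟩

private lemma finrank_compl (D C : Submodule k L) (hDC : IsCompl D C) :
    finrank k C = finrank k L - finrank k D := by
  have := Submodule.finrank_add_eq_of_isCompl hDC
  omega

theorem cnt {A : Type} [Ring A] [Algebra k A] [FiniteDimensional k A] {f : L → L} {χ : Dual k L}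
    (θ : L →ₗ[k] A) (hθ : Rep f χ θ) (D : Submodule k L) :
    finrank k (Algebra.adjoin k (Set.range θ)) ≤
      finrank k (Algebra.adjoin k (θ '' (D : Set L))) * 2 ^ (finrank k L - finrank k D) := by
  obtain ⟨C, hDC⟩ := Submodule.exists_isCompl D
  let x := Module.finBasis k D
  let y := Module.finBasis k C
  have hspan := span_append D C hDC x y
  have h1 := span_E θ hθ _ hspan
  set B := Algebra.adjoin k (θ '' (D : Set L)) with hB
  let Φ : ((Fin (finrank k C) → Fin 2) → B) →ₗ[k] A :=
    ∑ δ : Fin (finrank k C) → Fin 2,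
      (LinearMap.mulRight k (E (fun j => θ (y j : L)) δ)) ∘ₗ
        ((Subalgebra.toSubmodule B).subtype ∘ₗ (LinearMap.proj δ))
  have h2 : Subalgebra.toSubmodule (Algebra.adjoin k (Set.range θ)) ≤ LinearMap.range Φ := by
    refine h1.trans ?_
    rw [Submodule.span_le]
    rintro _ ⟨ε, rfl⟩
    have hmem : E (fun i => θ ((Fin.append (fun i => (x i : L)) (fun j => (y j : L)))
        (Fin.castAdd (finrank k C) i))) (fun i => ε (Fin.castAdd (finrank k C) i)) ∈ B := by
      apply E_mem
      intro i
      apply Algebra.subset_adjoin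
      refine ⟨x i, (x i).2, ?_⟩
      simp
    refine ⟨Pi.single (fun j => ε (Fin.natAdd (finrank k D) j)) ⟨_, hmem⟩, ?_⟩
    rw [E_add]
    simp only [Φ, LinearMap.coe_sum, Finset.sum_apply, LinearMap.comp_apply, LinearMap.proj_apply]
    rw [Finset.sum_eq_single (fun j => ε (Fin.natAdd (finrank k D) j))]
    · simp
    · intro b _ hb
      rw [Pi.single_eq_of_ne hb]
      simp
    · intro h
      exact absurd (Finset.mem_univ _) h
  have h3 : finrank k (Algebra.adjoin k (Set.range θ)) ≤ finrank k (LinearMap.range Φ) :=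
    Submodule.finrank_mono h2
  have h4 : finrank k (LinearMap.range Φ) ≤ finrank k ((Fin (finrank k C) → Fin 2) → B) :=
    LinearMap.finrank_range_le Φ
  have h5 : finrank k ((Fin (finrank k C) → Fin 2) → B) = 2 ^ finrank k C * finrank k B := by
    rw [Module.finrank_pi_fintype]
    simp
  have h6 := finrank_compl D C hDC
  calc finrank k (Algebra.adjoin k (Set.range θ)) ≤ 2 ^ finrank k C * finrank k B :=
        (h3.trans h4).trans h5.le
    _ = finrank k B * 2 ^ (finrank k L - finrank k D) := by rw [mul_comm, ← h6]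

theorem gen {V : Type} [AddCommGroup V] [Module k V] [FiniteDimensional k V] {f : L → L}
    {χ : Dual k L} (ρ : L →ₗ[k] End k V) (hρ : Rep f χ ρ) (D : Submodule k L) (W : Submodule k V)
    (hW : ∀ x ∈ D, ∀ w ∈ W, ρ x w ∈ W)
    (hgen : ∀ X : Submodule k V, (∀ x : L, ∀ v ∈ X, ρ x v ∈ X) → W ≤ X → X = ⊤) :
    finrank k V ≤ 2 ^ (finrank k L - finrank k D) * finrank k W := by
  obtain ⟨C, hDC⟩ := Submodule.exists_isCompl D
  let x := Module.finBasis k D
  let y := Module.finBasis k C
  have hspan := span_append C D hDC.symm y x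
  have h1 := span_E ρ hρ _ hspan
  let Φ : ((Fin (finrank k C) → Fin 2) → W) →ₗ[k] V :=
    ∑ δ : Fin (finrank k C) → Fin 2,
      (E (fun j => ρ (y j : L)) δ) ∘ₗ (W.subtype ∘ₗ (LinearMap.proj δ))
  -- the subalgebra of operators preserving `W`
  have hpres : ∀ (ε : Fin (finrank k D) → Fin 2), ∀ w ∈ W,
      E (fun i => ρ (x i : L)) ε w ∈ W := by
    intro ε w hw
    have key : ∀ l : List (End k V), (∀ a ∈ l, ∀ w ∈ W, a w ∈ W) → ∀ w ∈ W, l.prod w ∈ W := by
      intro l
      induction l with
      | nil => intro _ w hw; simpa using hw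
      | cons a l ih =>
        intro hl w hw
        rw [List.prod_cons, Module.End.mul_apply]
        exact hl a List.mem_cons_self _ (ih (fun b hb => hl b (List.mem_cons_of_mem _ hb)) w hw)
    unfold E
    apply key _ _ w hw
    intro a ha
    rw [List.mem_ofFn] at ha
    obtain ⟨i, rfl⟩ := ha
    intro w hw
    have h2 : ε i = 0 ∨ ε i = 1 := by
      generalize ε i = t
      fin_cases t
      · exact Or.inl rfl
      · exact Or.inr rfl
    rcases h2 with h | h
    · rw [h]
      simpa using hw
    · rw [h]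
      simpa using hW _ (x i).2 w hw
  have h2 : ∀ a ∈ Algebra.adjoin k (Set.range ρ), ∀ w ∈ W, a w ∈ LinearMap.range Φ := by
    intro a ha w hw
    have ha' := h1 ha
    have h3 : Submodule.span k (Set.range (E (fun i => ρ ((Fin.append (fun i => (y i : L))
        (fun j => (x j : L))) i)))) ≤ (LinearMap.range Φ).comap (LinearMap.applyₗ w) := by
      rw [Submodule.span_le]
      rintro _ ⟨ε, rfl⟩
      rw [SetLike.mem_coe, Submodule.mem_comap, LinearMap.applyₗ_apply_apply, E_add,
        Module.End.mul_apply]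
      have hm := hpres (fun j => ε (Fin.natAdd (finrank k C) j)) w hw
      refine ⟨Pi.single (fun j => ε (Fin.castAdd (finrank k D) j)) ⟨_, hm⟩, ?_⟩
      simp only [Φ, LinearMap.coe_sum, Finset.sum_apply, LinearMap.comp_apply,
        LinearMap.proj_apply]
      rw [Finset.sum_eq_single (fun j => ε (Fin.castAdd (finrank k D) j))]
      · simp
      · intro b _ hb
        rw [Pi.single_eq_of_ne hb]
        simp
      · intro h
        exact absurd (Finset.mem_univ _) h
    exact h3 ha'
  let Y : Submodule k V := Submodule.span k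
    {v | ∃ a ∈ Algebra.adjoin k (Set.range ρ), ∃ w ∈ W, a w = v}
  have hY : Y = ⊤ := by
    apply hgen
    · intro u v hv
      have h4 : Y ≤ Y.comap (ρ u) := by
        rw [Submodule.span_le]
        rintro _ ⟨a, ha, w, hw, rfl⟩
        apply Submodule.subset_span
        refine ⟨ρ u * a, ?_, w, hw, rfl⟩
        exact Subalgebra.mul_mem _ (Algebra.subset_adjoin ⟨u, rfl⟩) ha
      exact h4 hv
    · intro w hw
      apply Submodule.subset_span
      exact ⟨1, Subalgebra.one_mem _, w, hw, rfl⟩
  have hYX : Y ≤ LinearMap.range Φ := by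
    rw [Submodule.span_le]
    rintro _ ⟨a, ha, w, hw, rfl⟩
    exact h2 a ha w hw
  rw [hY] at hYX
  have h3 : finrank k V ≤ finrank k (LinearMap.range Φ) := by
    rw [← finrank_top k V]
    exact Submodule.finrank_mono hYX
  have h4 : finrank k (LinearMap.range Φ) ≤ finrank k ((Fin (finrank k C) → Fin 2) → W) :=
    LinearMap.finrank_range_le Φ
  have h5 : finrank k ((Fin (finrank k C) → Fin 2) → W) = 2 ^ finrank k C * finrank k W := by
    rw [Module.finrank_pi_fintype]
    simp
  have h6 := finrank_compl D C hDC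
  calc finrank k V ≤ 2 ^ finrank k C * finrank k W := (h3.trans h4).trans h5.le
    _ = 2 ^ (finrank k L - finrank k D) * finrank k W := by rw [← h6]

theorem fin_adjoin {A : Type} [Ring A] [Algebra k A] {f : L → L} {χ : Dual k L}
    (θ : L →ₗ[k] A) (hθ : Rep f χ θ) (htop : Algebra.adjoin k (Set.range θ) = ⊤) :
    FiniteDimensional k A ∧ finrank k A ≤ 2 ^ finrank k L := by
  let b := Module.finBasis k L
  have h1 := span_E θ hθ b b.span_eq
  rw [htop, Algebra.top_toSubmodule, top_le_iff] at h1
  have hfin : (Set.range (E (fun i => θ (b i)))).Finite := Set.finite_range _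
  refine ⟨?_, ?_⟩
  · have := FiniteDimensional.span_of_finite k hfin
    rw [h1] at this
    exact (Submodule.topEquiv : (⊤ : Submodule k A) ≃ₗ[k] A).finiteDimensional
  · have h2 := finrank_range_le_card (R := k) (E (fun i => θ (b i)))
    rw [Set.finrank, h1, finrank_top] at h2
    refine h2.trans ?_
    simp

end Pool.Agent.SkS
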