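import Pool.Agent.Lib.SkS.Defs

/-!
# Module Dec: the subspace `R` of the Heisenberg configuration

`exists_dual`: the form `(h, h') ↦ χ ⁅h, h'⁆` on `H` has radical `k z` (`H_comm`, `H_nd`, `χ z = 1`), so for a linear functional `ξ` on `L`
with `ξ z = 0` there is `h0 ∈ H` with `χ ⁅h0, h⁆ = ξ h` for all `h ∈ H` (finite dimension: the map `H → {ξ ∈ Dual H : ξ z = 0}`, `h0 ↦ χ ⁅h0, ·⁆`,
has kernel `k z`, and `dim H - 1` is the dimension of the target).
`decomp`: `ξ h = χ ⁅x, h⁆`, `ξ z = 0`; then `x - h0` is in `R`; (`⁅h0, z⁆ = 0` by `H_cent`).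
`InR` is closed under brackets (Jacobi: for `h ∈ H`, `⁅y, h⁆ ∈ H`), under `f` (`⁅f x, h⁆ = ⁅x,⁅x,h⁆⁆`), linear combinations.
`inR_H`: if `x ∈ H` and `InR x` then `χ ⁅x, h⁆ = 0` for all `h ∈ H`, so `⁅x,h⁆ = c z` has `c = 0`, `H_nd`.
-/

namespace Pool.Agent.SkS

open Module

variable {k L : Type} [Field k] [CharP k 2] [LieRing L] [LieAlgebra k L] [FiniteDimensional k L]

theorem inR_H {f : L → L} {χ : Dual k L} {z : L} {H : LieIdeal k L} (hc : Cfg f χ z H) {x : L}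
    (hx : InR χ z H x) (hxH : x ∈ H) : ∃ c : k, x = c • z := by
  refine hc.H_nd x hxH fun h hh => ?_
  obtain ⟨c, h1⟩ := hc.H_comm x hxH h hh
  have h2 := hx.2 h hh
  rw [h1, map_smul, hc.χz, smul_eq_mul, mul_one] at h2
  rw [h1, h2, zero_smul]

theorem exists_dual {f : L → L} {χ : Dual k L} {z : L} {H : LieIdeal k L} (hc : Cfg f χ z H)
    (ξ : Dual k L) (hξ : ξ z = 0) : ∃ h0 ∈ H, ∀ h ∈ H, χ ⁅h0, h⁆ = ξ h := by
  let Φ : H.toSubmodule →ₗ[k] Dual k H.toSubmodule :=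
    LinearMap.mk₂ k (fun a b => χ ⁅(a : L), (b : L)⁆)
      (fun a b c => by simp)
      (fun a b c => by simp)
      (fun a b c => by simp)
      (fun a b c => by simp)
  have hΦ : ∀ a b, Φ a b = χ ⁅(a : L), (b : L)⁆ := fun a b => rfl
  have h1 : ξ.comp H.toSubmodule.subtype ∈
      (LinearMap.range Φ).dualCoannihilator.dualAnnihilator := by
    rw [Submodule.mem_dualAnnihilator]
    intro b hb
    rw [Submodule.mem_dualCoannihilator] at hb
    have hbH : (b : L) ∈ H := b.2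
    have h2 : ∀ h ∈ H, ⁅(b : L), h⁆ = 0 := by
      intro h hh
      obtain ⟨c, h3⟩ := hc.H_comm b hbH h hh
      have h4 := hb (Φ ⟨h, hh⟩) ⟨_, rfl⟩
      rw [hΦ] at h4
      change χ ⁅h, (b : L)⁆ = 0 at h4
      rw [← lie_skew, h3, map_neg, map_smul, hc.χz, smul_eq_mul, mul_one, neg_eq_zero] at h4
      rw [h3, h4, zero_smul]
    obtain ⟨c, h3⟩ := hc.H_nd b hbH h2
    rw [LinearMap.comp_apply, Submodule.subtype_apply, h3, map_smul, hξ, smul_zero]
  rw [Subspace.dualCoannihilator_dualAnnihilator_eq] at h1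
  obtain ⟨a, ha⟩ := h1
  refine ⟨a, a.2, fun h hh => ?_⟩
  have h2 := LinearMap.congr_fun ha ⟨h, hh⟩
  rw [hΦ] at h2
  exact h2

theorem decomp {f : L → L} {χ : Dual k L} {z : L} {H : LieIdeal k L} (hc : Cfg f χ z H) (x : L)
    (hx : ⁅x, z⁆ = 0) : ∃ h0 ∈ H, InR χ z H (x - h0) := by
  obtain ⟨h0, h1, h2⟩ := exists_dual hc (χ.comp (LieAlgebra.ad k L x)) (by
    rw [LinearMap.comp_apply, LieAlgebra.ad_apply, hx, map_zero])
  refine ⟨h0, h1, ?_, fun h hh => ?_⟩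
  · rw [sub_lie, hx, hc.H_cent h0 h1, sub_zero]
  · rw [sub_lie, map_sub, h2 h hh, LinearMap.comp_apply, LieAlgebra.ad_apply, sub_self]

theorem inR_lie {f : L → L} {χ : Dual k L} {z : L} {H : LieIdeal k L} (hc : Cfg f χ z H) {x y : L}
    (hx : InR χ z H x) (hy : InR χ z H y) : InR χ z H ⁅x, y⁆ := by
  refine ⟨?_, fun h hh => ?_⟩
  · rw [lie_lie, hx.1, hy.1, lie_zero, lie_zero, sub_zero]
  · rw [lie_lie, map_sub, hx.2 _ (lie_mem_right k L H y h hh), hy.2 _ (lie_mem_right k L H x h hh),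
      sub_zero]

theorem inR_f {f : L → L} (hf : Rst k f) {χ : Dual k L} {z : L} {H : LieIdeal k L}
    (hc : Cfg f χ z H) {x : L} (hx : InR χ z H x) : InR χ z H (f x) := by
  refine ⟨?_, fun h hh => ?_⟩
  · rw [hf.lie, hx.1, lie_zero]
  · rw [hf.lie]
    exact hx.2 _ (lie_mem_right k L H x h hh)

theorem inR_add {χ : Dual k L} {z : L} {H : LieIdeal k L} {x y : L}
    (hx : InR χ z H x) (hy : InR χ z H y) : InR χ z H (x + y) := by
  refine ⟨?_, fun h hh => ?_⟩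
  · rw [add_lie, hx.1, hy.1, add_zero]
  · rw [add_lie, map_add, hx.2 h hh, hy.2 h hh, add_zero]

theorem inR_smul {χ : Dual k L} {z : L} {H : LieIdeal k L} (a : k) {x : L}
    (hx : InR χ z H x) : InR χ z H (a • x) := by
  refine ⟨?_, fun h hh => ?_⟩
  · rw [smul_lie, hx.1, smul_zero]
  · rw [smul_lie, map_smul, hx.2 h hh, smul_zero]

end Pool.Agent.SkS
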