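import Mathlib

/-!
# Restricted Lie algebras in characteristic two: definitions

`Rst` : the formal properties of a `2`-map; `Rep` : linear maps to an associative algebra satisfying the
relations of the reduced enveloping algebra `u(L, χ)`; `Irr` : irreducibility; `Nondeg` : `Z_L(χ) = 0`;
`UU` : the reduced enveloping algebra, exactly as in the frozen statement (for `p = 2`).
-/

namespace Pool.Agent.SkS

open Module

section

variable {k L : Type} [Field k] [LieRing L] [LieAlgebra k L]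

/-- the formal properties of the 2-map of a restricted Lie algebra in characteristic two -/
structure Rst (k : Type) {L : Type} [Field k] [LieRing L] [LieAlgebra k L] (f : L → L) : Prop where
  add : ∀ x y : L, f (x + y) = f x + f y + ⁅x, y⁆
  smul : ∀ (a : k) (x : L), f (a • x) = (a ^ 2) • f x
  lie : ∀ x y : L, ⁅f x, y⁆ = ⁅x, ⁅x, y⁆⁆

/-- a linear map to an associative algebra satisfying the relations of `u(L, χ)`, `p = 2` -/
structure Rep {A : Type} [Ring A] [Algebra k A] (f : L → L) (χ : Dual k L) (ρ : L →ₗ[k] A) : Prop where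
  lie : ∀ x y : L, ρ ⁅x, y⁆ = ρ x * ρ y - ρ y * ρ x
  sq : ∀ x : L, ρ x * ρ x = ρ (f x) + algebraMap k A (χ x ^ 2)

/-- irreducibility of a family of operators -/
def Irr {V : Type} [AddCommGroup V] [Module k V] (ρ : L →ₗ[k] End k V) : Prop :=
  Nontrivial V ∧ ∀ W : Submodule k V, (∀ x : L, ∀ w ∈ W, ρ x w ∈ W) → W = ⊥ ∨ W = ⊤

/-- `Z_L(χ) = 0` -/
def Nondeg (χ : Dual k L) : Prop := ∀ x : L, (∀ y : L, χ ⁅x, y⁆ = 0) → x = 0

/-- every irreducible representation has dimension at least `2^{n/2}` -/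
def Big (f : L → L) (χ : Dual k L) : Prop :=
  ∀ (V : Type) [AddCommGroup V] [Module k V] [FiniteDimensional k V] (ρ : L →ₗ[k] End k V),
    Rep f χ ρ → Irr ρ → 2 ^ finrank k L ≤ finrank k V ^ 2

/-- the relations of the reduced enveloping algebra -/
def Urel (f : L → L) (χ : Dual k L) :
    UniversalEnvelopingAlgebra k L → UniversalEnvelopingAlgebra k L → Prop := fun a b =>
  ∃ x : L, a = UniversalEnvelopingAlgebra.ι k x ^ 2 - UniversalEnvelopingAlgebra.ι k (f x) ∧
    b = algebraMap k (UniversalEnvelopingAlgebra k L) (χ x ^ 2)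

/-- the reduced enveloping algebra `u(L, χ)` for `p = 2` -/
abbrev UU (f : L → L) (χ : Dual k L) : Type := RingQuot (Urel f χ)

/-- the canonical map `L → u(L, χ)` -/
noncomputable def uι (f : L → L) (χ : Dual k L) : L →ₗ[k] UU f χ where
  toFun x := RingQuot.mkAlgHom k (Urel f χ) (UniversalEnvelopingAlgebra.ι k x)
  map_add' x y := by
    rw [map_add, map_add]
  map_smul' a x := by
    rw [map_smul, map_smul, RingHom.id_apply]

/-- the frozen hypotheses on the 2-map, for `p = 2` -/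
structure Frz (k : Type) {L : Type} [Field k] [LieRing L] [LieAlgebra k L] (f : L → L) : Prop where
  add : ∀ x y : L,
        UniversalEnvelopingAlgebra.ι k (x + y) ^ 2 - UniversalEnvelopingAlgebra.ι k (f (x + y)) =
          (UniversalEnvelopingAlgebra.ι k x ^ 2 - UniversalEnvelopingAlgebra.ι k (f x)) +
          (UniversalEnvelopingAlgebra.ι k y ^ 2 - UniversalEnvelopingAlgebra.ι k (f y))
  smul : ∀ (a : k) (x : L),
        UniversalEnvelopingAlgebra.ι k (a • x) ^ 2 - UniversalEnvelopingAlgebra.ι k (f (a • x)) =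
          a ^ 2 • (UniversalEnvelopingAlgebra.ι k x ^ 2 - UniversalEnvelopingAlgebra.ι k (f x))
  comm : ∀ x y : L,
        Commute (UniversalEnvelopingAlgebra.ι k x ^ 2 - UniversalEnvelopingAlgebra.ι k (f x))
          (UniversalEnvelopingAlgebra.ι k y)

/-- ordered monomials with exponents 0, 1 -/
def E {A : Type} [Ring A] {n : ℕ} (x : Fin n → A) (ε : Fin n → Fin 2) : A :=
  (List.ofFn (fun i => x i ^ (ε i : ℕ))).prod

end

section restr

variable {k L V : Type} [Field k] [LieRing L] [LieAlgebra k L] [AddCommGroup V] [Module k V]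

/-- restriction of a family of operators to a Lie subalgebra and a stable subspace -/
def rs (ρ : L →ₗ[k] End k V) (A : LieSubalgebra k L) (W : Submodule k V)
    (h : ∀ x ∈ A, ∀ w ∈ W, ρ x w ∈ W) : A →ₗ[k] End k W where
  toFun x := (ρ (x : L)).restrict (fun w hw => h x x.2 w hw)
  map_add' x y := by
    ext w
    simp [LinearMap.restrict_apply]
  map_smul' c x := by
    ext w
    simp [LinearMap.restrict_apply]

@[simp] lemma rs_apply (ρ : L →ₗ[k] End k V) (A : LieSubalgebra k L) (W : Submodule k V)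
    (h : ∀ x ∈ A, ∀ w ∈ W, ρ x w ∈ W) (x : A) (w : W) : ((rs ρ A W h x w : W) : V) = ρ (x : L) (w : V) :=
  rfl

/-- restriction of the 2-map -/
def fs (f : L → L) (A : LieSubalgebra k L) (h : ∀ x ∈ A, f x ∈ A) : A → A :=
  fun x => ⟨f x, h x x.2⟩

end restr

section config

variable {k L : Type} [Field k] [LieRing L] [LieAlgebra k L]

/-- the Heisenberg configuration of Section 2 of the blueprint (`χ z` is normalised to `1`) -/
structure Cfg (f : L → L) (χ : Dual k L) (z : L) (H : LieIdeal k L) : Prop where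
  z_ne : z ≠ 0
  χz : χ z = 1
  ex_T : ∃ T : L, ⁅T, z⁆ = z
  fz : f z = 0
  eig : ∀ y : L, ∃ c : k, ⁅y, z⁆ = c • z
  z_mem : z ∈ H
  H_cent : ∀ h ∈ H, ⁅h, z⁆ = 0
  H_comm : ∀ h ∈ H, ∀ h' ∈ H, ∃ c : k, ⁅h, h'⁆ = c • z
  H_nd : ∀ h ∈ H, (∀ h' ∈ H, ⁅h, h'⁆ = 0) → ∃ c : k, h = c • z
  H_max : ∀ x : L, ⁅x, z⁆ = 0 → (∀ h ∈ H, ∃ c : k, ⁅x, h⁆ = c • z) → x ∈ H
  f_mem : ∀ h ∈ H, ∃ c : k, f h = c • z

/-- membership in `R = {x : [x,z] = 0, χ([x,H]) = 0}` -/
def InR (χ : Dual k L) (z : L) (H : LieIdeal k L) (x : L) : Prop :=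
  ⁅x, z⁆ = 0 ∧ ∀ h ∈ H, χ ⁅x, h⁆ = 0

/-- property (T): there is no nonzero toral element of `R` centralising `R` -/
def NoTor (f : L → L) (χ : Dual k L) (z : L) (H : LieIdeal k L) : Prop :=
  ∀ t : L, InR χ z H t → f t = t → (∀ y : L, InR χ z H y → ⁅t, y⁆ = 0) → t = 0

/-- all abelian ideals have dimension at most one -/
def AbOne (k L : Type) [Field k] [LieRing L] [LieAlgebra k L] : Prop :=
  ∀ M : LieIdeal k L, (∀ x ∈ M, ∀ y ∈ M, ⁅x, y⁆ = 0) → finrank k M ≤ 1

/-- the outcome of the reduction by `K = {m ∈ M : χ(m) = 0}`, `M` an abelian ideal: `L1 = K^⊥`, `L' = L1 / K` -/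
structure RedData (f : L → L) (χ : Dual k L) (K : Submodule k L) (L' : Type) [LieRing L']
    [LieAlgebra k L'] (f' : L' → L') (χ' : Dual k L') where
  L1 : LieSubalgebra k L
  mem : ∀ x, x ∈ L1 ↔ ∀ m ∈ K, χ ⁅x, m⁆ = 0
  fmem : ∀ x ∈ L1, f x ∈ L1
  lieK : ∀ x ∈ L1, ∀ m ∈ K, ⁅x, m⁆ ∈ K
  π : L1 →ₗ⁅k⁆ L'
  surj : Function.Surjective π
  ker : ∀ x, π x = 0 ↔ (x : L) ∈ K
  hf : ∀ x : L1, f' (π x) = π ⟨f x, fmem x x.2⟩
  hχ : ∀ x : L1, χ' (π x) = χ x

end config

end Pool.Agent.SkS
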