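import Pool.Agent.Lib.SkS.Defs

/-!
# Module LemM: Lemma M, the lower bound `dim V ≥ 2^κ dim V^K` (pure linear algebra)

`K` acts on `V` by `r` (commuting operators), `V0 = {v : K v = 0}`.
Proof.  Let `F_0 = V0`, `F_{j+1} = {v : r(K) v ⊆ F_j}` (increasing submodules; `u = r a * Y i - Y i * r a` preserves every `F_j`
because it commutes with `r(K)`, and `r(K)` maps `F_{j+1}` to `F_j`, kills `F_0`).
(0) `Y i F_j ≤ F_{j+1}`: `r a (Y i v) = Y i (r a v) + u v`.
(A) Let `T` be a finite set (or a list without repetition) of `j+1` indices, all `≠ s`; for `w ∈ F_j`: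
  `m_T (Y s w) = 0`, where `m_T` is the product of the commuting operators `r (m t)`, `t ∈ T`.  Induction on `T`: with `T = T' ∪ {t}`,
  `m_{T'} r(m t) Y s w = m_{T'} Y s (r(m t) w) + m_{T'} u w`, `r(m t) w ∈ F_{j-1}` and `m_{T'} u w = u m_{T'} w = φ s (m t) Z(m_{T'} w) = 0`.
(B) `s ∉ T''`, `|T''| = j`, `w ∈ F_j`: `m_{T''} r(m s) Y s w = Z (m_{T''} w)` (same computation with `φ s (m s) = 1`).
(C) For `S = {s_1 < ... < s_p}` put `Y_S = Y_{s_1} ... Y_{s_p}`.  `Y_S v ∈ F_{|S|}` for `v ∈ V0`, so `m_T Y_S v = 0` if
  `|T| > |S|`, and for `|T| = |S|`: `m_T Y_S v = 0` if `T ≠ S`, `m_S Y_S v = Z^{|S|} v`.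
(D) So the linear map `(Finset (Fin κ) → V0) → V`, `(v_S) ↦ Σ Y_S v_S` is injective (look at a nonzero `v_S` with `|S|` maximal and
  apply `m_S`); its source has dimension `2^κ dim V0`.
-/

namespace Pool.Agent.SkS

open Module

variable {k V : Type} [Field k] [AddCommGroup V] [Module k V] [FiniteDimensional k V]

/-- the filtration `F_j` -/
private def Fil {K : Type} [AddCommGroup K] [Module k K] (r : K →ₗ[k] End k V) : ℕ → V → Prop
  | 0, w => ∀ b, r b w = 0
  | j + 1, w => ∀ b, Fil r j (r b w)

section

variable {K : Type} [AddCommGroup K] [Module k K] {r : K →ₗ[k] End k V}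

omit [FiniteDimensional k V] in
private lemma fil_zero (j : ℕ) : Fil r j (0 : V) := by
  induction j with
  | zero => intro b; exact map_zero _
  | succ j ih => intro b; rw [map_zero]; exact ih

omit [FiniteDimensional k V] in
private lemma fil_add (j : ℕ) : ∀ (v w : V), Fil r j v → Fil r j w → Fil r j (v + w) := by
  induction j with
  | zero => intro v w hv hw b; rw [map_add, hv b, hw b, add_zero]
  | succ j ih => intro v w hv hw b; rw [map_add]; exact ih _ _ (hv b) (hw b)

omit [FiniteDimensional k V] in
private lemma fil_comm {u : End k V} (hu : ∀ b, u * r b = r b * u) (j : ℕ) :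
    ∀ w : V, Fil r j w → Fil r j (u w) := by
  have hu' : ∀ b w, r b (u w) = u (r b w) := by
    intro b w
    have := congrArg (fun g : End k V => g w) (hu b)
    simpa using this.symm
  induction j with
  | zero => intro w hw b; rw [hu', hw b, map_zero]
  | succ j ih => intro w hw b; rw [hu']; exact ih _ (hw b)

omit [FiniteDimensional k V] in
private lemma fil_Y {Y : End k V}
    (hu : ∀ a b : K, (r a * Y - Y * r a) * r b = r b * (r a * Y - Y * r a)) (j : ℕ) :
    ∀ w : V, Fil r j w → Fil r (j + 1) (Y w) := by
  have e : ∀ a w, r a (Y w) = Y (r a w) + (r a * Y - Y * r a) w := by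
    intro a w
    simp
  induction j with
  | zero =>
    intro w hw a
    rw [e, hw a, map_zero, zero_add]
    exact fil_comm (hu a) 0 w hw
  | succ j ih =>
    intro w hw a
    rw [e]
    exact fil_add _ _ _ (ih _ (hw a)) (fil_comm (hu a) (j + 1) w hw)

end

theorem lemM {K : Type} [AddCommGroup K] [Module k K] {κ : ℕ} (r : K →ₗ[k] End k V)
    (Y : Fin κ → End k V) (m : Fin κ → K) (Z : End k V) (φ : Fin κ → K → k)
    (hcomm : ∀ a b : K, r a * r b = r b * r a)
    (hu : ∀ (a : K) (i : Fin κ) (b : K),
      (r a * Y i - Y i * r a) * r b = r b * (r a * Y i - Y i * r a))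
    (hφ : ∀ (a : K) (i : Fin κ) (v : V), (∀ b, r b v = 0) →
      (r a * Y i - Y i * r a) v = φ i a • Z v)
    (hδ : ∀ i j, φ i (m j) = if i = j then 1 else 0)
    (hZ : ∀ v, (∀ b, r b v = 0) → Z v = 0 → v = 0)
    (hZK : ∀ v, (∀ b, r b v = 0) → ∀ b, r b (Z v) = 0)
    (V0 : Submodule k V) (hV0 : ∀ v, v ∈ V0 ↔ ∀ b, r b v = 0) :
    2 ^ κ * finrank k V0 ≤ finrank k V := by
  classical
  let mT : Finset (Fin κ) → End k V := fun T =>
    T.noncommProd (fun t => r (m t)) (fun a _ b _ _ => hcomm _ _)
  have mT_empty : mT ∅ = 1 := Finset.noncommProd_empty _ _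
  have mT_insert : ∀ (t : Fin κ) (T : Finset (Fin κ)), t ∉ T → mT (insert t T) = mT T * r (m t) := by
    intro t T ht
    exact Finset.noncommProd_insert_of_notMem' T t _ _ ht
  have mT_comm : ∀ (T : Finset (Fin κ)) (u : End k V), (∀ b, u * r b = r b * u) →
      u * mT T = mT T * u := by
    intro T u hu
    induction T using Finset.induction_on with
    | empty => rw [mT_empty, one_mul, mul_one]
    | insert t T ht ih =>
      rw [mT_insert t T ht, ← mul_assoc, ih, mul_assoc, hu, mul_assoc]
  have mT_fil : ∀ (T : Finset (Fin κ)) (j : ℕ) (w : V), Fil r (j + T.card) w → Fil r j (mT T w) := by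
    intro T
    induction T using Finset.induction_on with
    | empty => intro j w hw; rw [mT_empty]; simpa using hw
    | insert t T ht ih =>
      intro j w hw
      rw [mT_insert t T ht, Module.End.mul_apply]
      rw [Finset.card_insert_of_notMem ht] at hw
      exact ih j _ (hw (m t))
  have mT_zero : ∀ (T : Finset (Fin κ)) (j : ℕ) (w : V), j < T.card → Fil r j w → mT T w = 0 := by
    intro T
    induction T using Finset.induction_on with
    | empty => intro j w hj; simp at hj
    | insert t T ht ih =>
      intro j w hj hw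
      rw [mT_insert t T ht, Module.End.mul_apply]
      rw [Finset.card_insert_of_notMem ht] at hj
      rcases j with _ | j
      · rw [hw (m t), map_zero]
      · exact ih j _ (by omega) (hw (m t))
  have e : ∀ (a : K) (i : Fin κ) (w : V), r a (Y i w) = Y i (r a w) + (r a * Y i - Y i * r a) w := by
    intro a i w
    simp
  have huT : ∀ (T : Finset (Fin κ)) (a : K) (i : Fin κ) (w : V), Fil r T.card w →
      mT T ((r a * Y i - Y i * r a) w) = φ i a • Z (mT T w) := by
    intro T a i w hw
    have h1 := congrArg (fun g : End k V => g w) (mT_comm T _ (hu a i))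
    simp only [Module.End.mul_apply] at h1
    have h2 : ∀ b, r b (mT T w) = 0 := mT_fil T 0 w (by rwa [zero_add])
    rw [← h1]
    exact hφ a i _ h2
  have hA : ∀ (j : ℕ) (T : Finset (Fin κ)) (s : Fin κ) (w : V), s ∉ T → T.card = j + 1 →
      Fil r j w → mT T (Y s w) = 0 := by
    intro j
    induction j with
    | zero =>
      intro T s w hs hT hw
      obtain ⟨t, rfl⟩ := Finset.card_eq_one.mp hT
      have h1 : mT {t} = r (m t) := by
        have := mT_insert t ∅ (Finset.notMem_empty t)
        rw [mT_empty, one_mul] at this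
        simpa using this
      rw [h1, e, hw (m t), map_zero, zero_add, hφ (m t) s w hw, hδ, if_neg, zero_smul]
      simpa using hs
    | succ j ih =>
      intro T s w hs hT hw
      obtain ⟨t, T', ht, rfl, hT'⟩ := Finset.card_eq_succ.mp hT
      rw [mT_insert t T' ht, Module.End.mul_apply, e, map_add]
      have hs' : s ∉ T' := fun h => hs (Finset.mem_insert_of_mem h)
      rw [ih T' s _ hs' hT' (hw (m t)), zero_add, huT T' (m t) s w (by rw [hT']; exact hw), hδ,
        if_neg, zero_smul]
      rintro rfl
      exact hs (Finset.mem_insert_self _ _)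
  have hB : ∀ (T : Finset (Fin κ)) (s : Fin κ) (w : V), s ∉ T → Fil r T.card w →
      mT (insert s T) (Y s w) = Z (mT T w) := by
    intro T s w hs hw
    rw [mT_insert s T hs, Module.End.mul_apply, e, map_add, huT T (m s) s w hw, hδ, if_pos rfl, one_smul]
    rcases hc : T.card with _ | j
    · rw [hc] at hw
      rw [hw (m s), map_zero, map_zero, zero_add]
    · rw [hc] at hw
      rw [hA j T s _ hs hc (hw (m s)), zero_add]
  have hZpow : ∀ (n : ℕ) (v : V), (∀ b, r b v = 0) → (∀ b, r b ((Z ^ n) v) = 0) ∧
      ((Z ^ n) v = 0 → v = 0) := by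
    intro n
    induction n with
    | zero => intro v hv; exact ⟨by simpa using hv, by simp⟩
    | succ n ih =>
      intro v hv
      obtain ⟨h1, h2⟩ := ih v hv
      rw [pow_succ', Module.End.mul_apply]
      exact ⟨hZK _ h1, fun h => h2 (hZ _ h1 h)⟩
  have hC : ∀ S : Finset (Fin κ), ∃ y : End k V, ∀ v, (∀ b, r b v = 0) →
      Fil r S.card (y v) ∧ ∀ T : Finset (Fin κ), T.card = S.card →
        mT T (y v) = if T = S then (Z ^ S.card) v else 0 := by
    intro S
    induction S using Finset.induction_on with
    | empty =>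
      refine ⟨1, fun v hv => ⟨by simpa [Fil] using hv, ?_⟩⟩
      intro T hT
      have : T = ∅ := by simpa using hT
      subst this
      rw [mT_empty]
      simp
    | insert s S hs ih =>
      obtain ⟨y, hy⟩ := ih
      refine ⟨Y s * y, fun v hv => ?_⟩
      obtain ⟨h1, h2⟩ := hy v hv
      rw [Finset.card_insert_of_notMem hs, Module.End.mul_apply]
      refine ⟨fil_Y (fun a b => hu a s b) _ _ h1, ?_⟩
      intro T hT
      by_cases hsT : s ∈ T
      · obtain ⟨T', hT', rfl⟩ : ∃ T', s ∉ T' ∧ T = insert s T' :=
          ⟨T.erase s, Finset.notMem_erase _ _, (Finset.insert_erase hsT).symm⟩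
        rw [Finset.card_insert_of_notMem hT'] at hT
        have hc : T'.card = S.card := by omega
        rw [hB T' s (y v) hT' (by rw [hc]; exact h1), h2 T' hc]
        by_cases hTS : T' = S
        · subst hTS
          rw [if_pos rfl, if_pos rfl, pow_succ', Module.End.mul_apply]
        · rw [if_neg hTS, if_neg, map_zero]
          intro hh
          apply hTS
          rw [← Finset.erase_insert hT', hh, Finset.erase_insert hs]
      · rw [hA _ T s (y v) hsT hT h1, if_neg]
        rintro rfl
        exact hsT (Finset.mem_insert_self _ _)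
  choose y hy using hC
  let Φ : (Finset (Fin κ) → V0) →ₗ[k] V :=
    ∑ S : Finset (Fin κ), (y S) ∘ₗ V0.subtype ∘ₗ (LinearMap.proj S)
  have hΦ : ∀ f, Φ f = ∑ S : Finset (Fin κ), y S (f S : V) := by
    intro f
    simp [Φ]
  have hinj : Function.Injective Φ := by
    rw [← LinearMap.ker_eq_bot, LinearMap.ker_eq_bot']
    intro f hf
    by_contra hne
    have hex : ∃ S, f S ≠ 0 := by
      by_contra h
      push Not at h
      exact hne (funext h)
    obtain ⟨S0, hS0⟩ := hex
    obtain ⟨S, hS, hmax⟩ := Finset.exists_max_image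
      ((Finset.univ : Finset (Finset (Fin κ))).filter (fun S => f S ≠ 0)) Finset.card
      ⟨S0, by simpa using hS0⟩
    have hS' : f S ≠ 0 := (Finset.mem_filter.mp hS).2
    have hmem : ∀ S, ∀ b, r b (f S : V) = 0 := fun S => (hV0 _).mp (f S).2
    have h1 : mT S (Φ f) = (Z ^ S.card) (f S : V) := by
      rw [hΦ, map_sum, Finset.sum_eq_single S]
      · rw [(hy S _ (hmem S)).2 S rfl, if_pos rfl]
      · intro S' _ hSS
        rcases lt_trichotomy S'.card S.card with hlt | heq | hgt
        · exact mT_zero S S'.card _ hlt (hy S' _ (hmem S')).1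
        · rw [(hy S' _ (hmem S')).2 S heq.symm, if_neg (Ne.symm hSS)]
        · have : f S' = 0 := by
            by_contra h0
            have := hmax S' (Finset.mem_filter.mpr ⟨Finset.mem_univ _, h0⟩)
            omega
          rw [this]
          simp
      · intro h; exact absurd (Finset.mem_univ _) h
    rw [hf, map_zero] at h1
    have h2 := (hZpow S.card _ (hmem S)).2 h1.symm
    exact hS' (by ext; simpa using h2)
  have hle := LinearMap.finrank_le_finrank_of_injective hinj
  rw [Module.finrank_pi_fintype] at hle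
  simpa using hle

end Pool.Agent.SkS
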