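import Pool.Agent.Lib.SkS.LemM

/-!
# Module Low: Lemma M for a representation

Apply `lemM` with `K` (a submodule of `L`), `r = ρ` restricted to `K`, `m` a basis of `K` (`κ = finrank k K`),
`Y i = ρ (y i)` where `χ ⁅m j, y i⁆ = δ`: the map `K → Dual k L`, `m ↦ χ ⁅m, ·⁆` is injective by `hnd`, hence
the evaluation map `L → Dual k K` is surjective.  `Z = ρ z0`, `φ i a = χ ⁅a, y i⁆`.
`r a * Y i - Y i * r a = ρ ⁅a, y i⁆` with `⁅a, y i⁆ ∈ M`, and `ρ M` is commutative (`hM`).
For `u ∈ M`: `u - χ(u) z0 ∈ K`, so `ρ u v = χ(u) Z v` for `v ∈ V0`.  `Z * Z = 1` by `hρ.sq` and `f z0 = 0`.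
-/

namespace Pool.Agent.SkS

open Module

variable {k L V : Type} [Field k] [LieRing L] [LieAlgebra k L] [FiniteDimensional k L]
  [AddCommGroup V] [Module k V] [FiniteDimensional k V]

theorem low {f : L → L} {χ : Dual k L} (ρ : L →ₗ[k] End k V) (hρ : Rep f χ ρ) (M : LieIdeal k L)
    (hM : ∀ x ∈ M, ∀ y ∈ M, ⁅x, y⁆ = 0) (hfM : ∀ m ∈ M, f m = 0) (z0 : L) (hz0 : z0 ∈ M)
    (hχ0 : χ z0 = 1) (hnd : ∀ m ∈ M, (∀ y : L, χ ⁅y, m⁆ = 0) → m = 0) (K : Submodule k L)
    (hK : ∀ m, m ∈ K ↔ m ∈ M ∧ χ m = 0) (V0 : Submodule k V)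
    (hV0 : ∀ v, v ∈ V0 ↔ ∀ m ∈ K, ρ m v = 0) :
    2 ^ finrank k K * finrank k V0 ≤ finrank k V := by
  classical
  have hcM : ∀ x ∈ M, ∀ y ∈ M, ρ x * ρ y = ρ y * ρ x := by
    intro x hx y hy
    have h := hρ.lie x y
    rw [hM x hx y hy, map_zero] at h
    exact (sub_eq_zero.mp h.symm)
  have hKM : ∀ a ∈ K, a ∈ M := fun a ha => ((hK a).mp ha).1
  -- the pairing
  let T : K →ₗ[k] Dual k L :=
    { toFun := fun m =>
        { toFun := fun y => χ ⁅(m : L), y⁆
          map_add' := fun x y => by rw [lie_add, map_add]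
          map_smul' := fun c x => by rw [lie_smul, map_smul, RingHom.id_apply] }
      map_add' := fun m m' => by
        ext y
        change χ ⁅((m + m' : K) : L), y⁆ = χ ⁅(m : L), y⁆ + χ ⁅(m' : L), y⁆
        rw [Submodule.coe_add, add_lie, map_add]
      map_smul' := fun c m => by
        ext y
        change χ ⁅((c • m : K) : L), y⁆ = c • χ ⁅(m : L), y⁆
        rw [Submodule.coe_smul, smul_lie, map_smul] }
  have hT : ∀ (m : K) (y : L), T m y = χ ⁅(m : L), y⁆ := fun _ _ => rfl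
  have hTinj : Function.Injective T := by
    rw [← LinearMap.ker_eq_bot, LinearMap.ker_eq_bot']
    intro m hm
    have h1 : (m : L) = 0 := by
      apply hnd m (hKM m m.2)
      intro y
      have h2 : T m y = 0 := by rw [hm]; rfl
      rw [hT] at h2
      rw [← lie_skew, map_neg, h2, neg_zero]
    exact Subtype.ext h1
  have hsurj := LinearMap.dualMap_surjective_of_injective hTinj
  let b := Module.finBasis k K
  have hy : ∀ i : Fin (finrank k K), ∃ y : L, ∀ m : K, χ ⁅(m : L), y⁆ = b.coord i m := by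
    intro i
    obtain ⟨F, hF⟩ := hsurj (b.coord i)
    refine ⟨(Module.evalEquiv k L).symm F, fun m => ?_⟩
    have h1 : F (T m) = b.coord i m := by
      rw [← hF]; rfl
    rw [← h1, ← hT]
    have h2 := Module.apply_evalEquiv_symm_apply (R := k) (M := L) (T m) F
    exact h2
  choose y hy using hy
  have hr : ∀ (a : K) (i : Fin (finrank k K)),
      ρ (a : L) * ρ (y i) - ρ (y i) * ρ (a : L) = ρ ⁅(a : L), y i⁆ := by
    intro a i
    rw [hρ.lie]
  have hmem : ∀ (a : K) (i : Fin (finrank k K)), ⁅(a : L), y i⁆ ∈ M := by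
    intro a i
    rw [← lie_skew]
    exact neg_mem (lie_mem_right k L M (y i) a (hKM a a.2))
  have hZ2 : ρ z0 * ρ z0 = 1 := by
    rw [hρ.sq, hfM z0 hz0, map_zero, zero_add, hχ0, one_pow, map_one]
  refine lemM (K := K) (ρ ∘ₗ K.subtype) (fun i => ρ (y i)) (fun i => b i) (ρ z0)
    (fun i a => b.coord i a) ?_ ?_ ?_ ?_ ?_ ?_ V0 ?_
  · intro a a'
    exact hcM _ (hKM a a.2) _ (hKM a' a'.2)
  · intro a i a'
    simp only [LinearMap.comp_apply, Submodule.subtype_apply]
    rw [hr]
    exact hcM _ (hmem a i) _ (hKM a' a'.2)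
  · intro a i v hv
    simp only [LinearMap.comp_apply, Submodule.subtype_apply] at hv ⊢
    rw [hr, ← hy]
    have h1 : ⁅(a : L), y i⁆ - χ ⁅(a : L), y i⁆ • z0 ∈ K := by
      rw [hK]
      refine ⟨sub_mem (hmem a i) (SMulMemClass.smul_mem _ hz0), ?_⟩
      rw [map_sub, map_smul, hχ0, smul_eq_mul, mul_one, sub_self]
    have h2 := hv ⟨_, h1⟩
    simp only [map_sub, map_smul, LinearMap.sub_apply, LinearMap.smul_apply] at h2
    exact sub_eq_zero.mp h2
  · intro i j
    rw [Basis.coord_apply, Basis.repr_self, Finsupp.single_apply]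
    by_cases h : i = j
    · rw [if_pos h, if_pos h.symm]
    · rw [if_neg h, if_neg (Ne.symm h)]
  · intro v _ hv
    have h1 := congrArg (fun g : End k V => g v) hZ2
    simp only [Module.End.mul_apply, Module.End.one_apply] at h1
    rw [← h1, hv, map_zero]
  · intro v hv a
    have h1 := congrArg (fun g : End k V => g v) (hcM _ (hKM a a.2) _ hz0)
    simp only [Module.End.mul_apply] at h1
    simp only [LinearMap.comp_apply, Submodule.subtype_apply] at hv ⊢
    rw [h1, hv a, map_zero]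
  · intro v
    rw [hV0]
    constructor
    · intro h a
      exact h a a.2
    · intro h m hm
      exact h ⟨m, hm⟩

end Pool.Agent.SkS
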