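import Pool.Agent.Lib.SkS.Defs

/-!
# Module Red: the reduction of a restricted Lie algebra by `K = M ∩ ker χ`, `M` an abelian ideal

`L1 = {x : χ ⁅x, m⁆ = 0 for m ∈ K}` is a Lie subalgebra: for `m ∈ K`, `⁅y, m⁆ ∈ M` and `χ ⁅y, m⁆ = 0` so `⁅y,m⁆ ∈ K`
(this is `lieK`), and `⁅⁅x,y⁆,m⁆ = ⁅x,⁅y,m⁆⁆ - ⁅y,⁅x,m⁆⁆`.  `fmem`: `⁅f x, m⁆ = ⁅x,⁅x,m⁆⁆`.  `K ≤ L1` as `M` is abelian.
`K` as a `LieIdeal k L1` (comap), `L' = L1 ⧸ K`, `π = LieSubmodule.Quotient.mk'`-type map.
`f'`: `f (x + m) = f x + f m + ⁅x, m⁆ = f x + ⁅x,m⁆` for `m ∈ K` (`hfM`), so `f` descends (`Quotient.lift` / choose representatives);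
`Rst` descends.  `χ'`: `Submodule.liftQ`.  Solvable: `LieAlgebra` solvability passes to the subalgebra
(`Function.Injective.lieAlgebra_isSolvable`) and to the quotient (`Function.Surjective.lieAlgebra_isSolvable`).
Dimension: `K → Dual k L`, `m ↦ χ ⁅·, m⁆` is injective (`hnd`), `L1` is the annihilator, so `finrank L1 = finrank L - finrank K`
(e.g. `Subspace.finrank_add_finrank_dualCoannihilator_eq` or rank-nullity for `L → Dual k K`, surjective).
`Nondeg χ → Nondeg χ'`: if `x ∈ L1`, `χ ⁅x, L1⁆ = 0`, then `x ∈ K`: the double annihilator of `K` for the nondegenerate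
alternating form is `K` (dimension count).  `Nondeg χ' → Nondeg χ`: `χ ⁅x, L⁆ = 0` gives `x ∈ L1`, `π x = 0`, `x ∈ K ≤ M`, `x = 0` by `hnd`.
-/

namespace Pool.Agent.SkS

open Module

variable {k L : Type} [Field k] [CharP k 2] [LieRing L] [LieAlgebra k L] [FiniteDimensional k L]

/-- the functional `y ↦ χ ⁅y, m⁆`, linear in `m` -/
private noncomputable def red_psi (χ : Dual k L) : L →ₗ[k] Dual k L where
  toFun m :=
    { toFun := fun y => χ ⁅y, m⁆
      map_add' := fun x y => by rw [add_lie, map_add]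
      map_smul' := fun c x => by rw [smul_lie, map_smul, RingHom.id_apply] }
  map_add' m m' := by
    ext y
    simp
  map_smul' c m := by
    ext y
    simp

omit [CharP k 2] [FiniteDimensional k L] in
private lemma red_psi_apply (χ : Dual k L) (m y : L) : red_psi χ m y = χ ⁅y, m⁆ := rfl

/-- the subalgebra `L1` -/
private noncomputable def redL1 (χ : Dual k L) (K : Submodule k L)
    (h : ∀ y m : L, m ∈ K → χ ⁅y, m⁆ = 0 → ⁅y, m⁆ ∈ K) : LieSubalgebra k L where
  carrier := {x | ∀ m ∈ K, χ ⁅x, m⁆ = 0}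
  add_mem' := fun {x y} hx hy m hm => by
    rw [add_lie, map_add, hx m hm, hy m hm, add_zero]
  zero_mem' := fun m _ => by rw [zero_lie, map_zero]
  smul_mem' := fun c x hx m hm => by
    rw [smul_lie, map_smul, hx m hm, smul_zero]
  lie_mem' := fun {x y} hx hy m hm => by
    rw [lie_lie, map_sub, hx _ (h y m hm (hy m hm)), hy _ (h x m hm (hx m hm)), sub_zero]

/-- the ideal `K` of `L1` -/
private noncomputable def redI {K : Submodule k L} {L1 : LieSubalgebra k L}
    (h : ∀ x ∈ L1, ∀ m ∈ K, ⁅x, m⁆ ∈ K) : LieIdeal k L1 where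
  carrier := {x | (x : L) ∈ K}
  add_mem' := fun hx hy => K.add_mem hx hy
  zero_mem' := K.zero_mem
  smul_mem' := fun c _ hx => K.smul_mem c hx
  lie_mem := fun {x m} hm => h x x.2 m hm

theorem red [LieAlgebra.IsSolvable L] {f : L → L} (hf : Rst k f) (χ : Dual k L) (M : LieIdeal k L)
    (hM : ∀ x ∈ M, ∀ y ∈ M, ⁅x, y⁆ = 0) (hfM : ∀ m ∈ M, f m = 0)
    (hnd : ∀ m ∈ M, (∀ y : L, χ ⁅y, m⁆ = 0) → m = 0) (K : Submodule k L)
    (hK : ∀ m, m ∈ K ↔ m ∈ M ∧ χ m = 0) :
    ∃ (L' : Type) (_ : LieRing L') (_ : LieAlgebra k L') (f' : L' → L') (χ' : Dual k L')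
      (D : RedData f χ K L' f' χ'), Rst k f' ∧ FiniteDimensional k L' ∧
        LieAlgebra.IsSolvable L' ∧ finrank k L' + 2 * finrank k K = finrank k L ∧
        finrank k D.L1 + finrank k K = finrank k L ∧ (Nondeg χ → Nondeg χ') ∧
        (Nondeg χ' → Nondeg χ) := by
  have hKM : ∀ m, m ∈ K → m ∈ M := fun m hm => ((hK m).mp hm).1
  have hKχ : ∀ m, m ∈ K → χ m = 0 := fun m hm => ((hK m).mp hm).2
  have h0 : ∀ y m : L, m ∈ K → χ ⁅y, m⁆ = 0 → ⁅y, m⁆ ∈ K := by
    intro y m hm h
    exact (hK _).mpr ⟨lie_mem_right k L M y m (hKM m hm), h⟩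
  let L1 : LieSubalgebra k L := redL1 χ K h0
  have hmem : ∀ x, x ∈ L1 ↔ ∀ m ∈ K, χ ⁅x, m⁆ = 0 := fun x => Iff.rfl
  have hlieK : ∀ x ∈ L1, ∀ m ∈ K, ⁅x, m⁆ ∈ K := fun x hx m hm => h0 x m hm (hx m hm)
  have hfmem : ∀ x ∈ L1, f x ∈ L1 := by
    intro x hx m hm
    rw [hf.lie]
    exact hx _ (hlieK x hx m hm)
  have hKL1 : ∀ x ∈ K, x ∈ L1 := by
    intro x hx m hm
    rw [hM x (hKM x hx) m (hKM m hm), map_zero]
  let I : LieIdeal k L1 := redI hlieK
  have hI : ∀ x : L1, x ∈ I ↔ (x : L) ∈ K := fun x => Iff.rfl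
  let π : L1 →ₗ⁅k⁆ (L1 ⧸ I) :=
    { (LieSubmodule.Quotient.mk' I : L1 →ₗ[k] (L1 ⧸ I)) with
      map_lie' := fun {x y} => LieSubmodule.Quotient.mk_bracket I x y }
  have hπ : ∀ x : L1, π x = LieSubmodule.Quotient.mk x := fun x => rfl
  have hsurj : Function.Surjective π := by
    intro q
    obtain ⟨x, hx⟩ := Submodule.Quotient.mk_surjective _ q
    exact ⟨x, hx⟩
  have hker : ∀ x : L1, π x = 0 ↔ (x : L) ∈ K := by
    intro x
    rw [hπ, LieSubmodule.Quotient.mk_eq_zero', hI]
  have hkey : ∀ x y : L1, π x = π y → π ⟨f x, hfmem x x.2⟩ = π ⟨f y, hfmem y y.2⟩ := by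
    intro x y hxy
    have h1 : (((y - x : L1)) : L) ∈ K := by
      rw [← hker, map_sub, hxy, sub_self]
    set m : L := ((y - x : L1) : L) with hm
    have hy : (y : L) = (x : L) + m := by
      rw [hm]
      simp
    have h2 : f (y : L) - f (x : L) = ⁅(x : L), m⁆ := by
      rw [hy, hf.add, hfM m (hKM m h1)]
      abel
    have h3 : ((⟨f y, hfmem y y.2⟩ - ⟨f x, hfmem x x.2⟩ : L1) : L) ∈ K := by
      show f (y : L) - f (x : L) ∈ K
      rw [h2]
      exact hlieK x x.2 m h1
    rw [← hker, map_sub, sub_eq_zero] at h3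
    exact h3.symm
  let s : (L1 ⧸ I) → L1 := Function.surjInv hsurj
  have hs : ∀ q, π (s q) = q := Function.surjInv_eq hsurj
  let f' : (L1 ⧸ I) → (L1 ⧸ I) := fun q => π ⟨f (s q), hfmem (s q) (s q).2⟩
  have hf' : ∀ x : L1, f' (π x) = π ⟨f x, hfmem x x.2⟩ := by
    intro x
    exact hkey _ _ (hs (π x))
  have hχK : I.toSubmodule ≤ LinearMap.ker (χ.comp L1.toSubmodule.subtype) := by
    intro x hx
    rw [LinearMap.mem_ker]
    exact hKχ _ hx
  let χ' : Dual k (L1 ⧸ I) := I.toSubmodule.liftQ (χ.comp L1.toSubmodule.subtype) hχK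
  have hχ' : ∀ x : L1, χ' (π x) = χ x := fun x => rfl
  have hR : Rst k f' := by
    refine ⟨?_, ?_, ?_⟩
    · intro p q
      obtain ⟨x, rfl⟩ := hsurj p
      obtain ⟨y, rfl⟩ := hsurj q
      rw [← map_add, hf', hf', hf', ← LieHom.map_lie, ← map_add, ← map_add]
      refine congrArg π (Subtype.ext ?_)
      exact hf.add x y
    · intro a p
      obtain ⟨x, rfl⟩ := hsurj p
      rw [← map_smul, hf', hf', ← map_smul]
      refine congrArg π (Subtype.ext ?_)
      exact hf.smul a x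
    · intro p q
      obtain ⟨x, rfl⟩ := hsurj p
      obtain ⟨y, rfl⟩ := hsurj q
      rw [hf', ← LieHom.map_lie, ← LieHom.map_lie, ← LieHom.map_lie]
      refine congrArg π (Subtype.ext ?_)
      exact hf.lie x y
  have hcoW : (K.map (red_psi χ)).dualCoannihilator = L1.toSubmodule := by
    ext x
    rw [Submodule.mem_dualCoannihilator]
    constructor
    · intro h m hm
      exact h _ (Submodule.mem_map_of_mem hm)
    · rintro h _ ⟨m, hm, rfl⟩
      exact h m hm
  have hfin1 : finrank k L1 + finrank k K = finrank k L := by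
    let W : Submodule k (Dual k L) := K.map (red_psi χ)
    have hW : finrank k W = finrank k K := by
      have hinj : Function.Injective ((red_psi χ).comp K.subtype) := by
        rw [← LinearMap.ker_eq_bot, LinearMap.ker_eq_bot']
        intro m hm
        apply Subtype.ext
        refine hnd (m : L) (hKM m m.2) ?_
        intro y
        exact LinearMap.congr_fun hm y
      have h := LinearMap.finrank_range_of_inj hinj
      rw [LinearMap.range_comp, Submodule.range_subtype] at h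
      exact h
    have hco : W.dualCoannihilator = L1.toSubmodule := hcoW
    have h := Subspace.finrank_add_finrank_dualCoannihilator_eq W
    rw [hco, hW] at h
    rw [add_comm]
    exact h
  have hfin2 : finrank k (L1 ⧸ I) + finrank k K = finrank k L1 := by
    have h := LinearMap.finrank_range_add_finrank_ker (π : L1 →ₗ[k] (L1 ⧸ I))
    have h1 : LinearMap.range (π : L1 →ₗ[k] (L1 ⧸ I)) = ⊤ := LinearMap.range_eq_top.mpr hsurj
    have h2 : finrank k (LinearMap.ker (π : L1 →ₗ[k] (L1 ⧸ I))) = finrank k K := by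
      have hle : K ≤ L1.toSubmodule := hKL1
      have e : LinearMap.ker (π : L1 →ₗ[k] (L1 ⧸ I)) = K.comap L1.toSubmodule.subtype := by
        ext x
        rw [LinearMap.mem_ker, Submodule.mem_comap]
        exact hker x
      rw [e]
      exact LinearEquiv.finrank_eq (Submodule.comapSubtypeEquivOfLe hle)
    rw [h1, h2, finrank_top] at h
    exact h
  have hsol1 : LieAlgebra.IsSolvable L1 := by
    have hinc : Function.Injective L1.incl := Subtype.val_injective
    exact hinc.lieAlgebra_isSolvable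
  have hsol : LieAlgebra.IsSolvable (L1 ⧸ I) := hsurj.lieAlgebra_isSolvable
  refine ⟨L1 ⧸ I, inferInstance, inferInstance, f', χ',
    ⟨L1, hmem, hfmem, hlieK, π, hsurj, hker, hf', hχ'⟩, hR,
    Module.Finite.of_surjective (π : L1 →ₗ[k] (L1 ⧸ I)) hsurj, hsol, by omega, hfin1, ?_, ?_⟩
  · intro hN q hq
    obtain ⟨x, rfl⟩ := hsurj q
    rw [hker]
    -- the functional `y ↦ χ ⁅x, y⁆` vanishes on `L1`, hence comes from `K`
    let φ : Dual k L := -(red_psi χ (x : L))
    have hφ : ∀ y, φ y = χ ⁅(x : L), y⁆ := by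
      intro y
      show -(χ ⁅y, (x : L)⁆) = _
      rw [← map_neg, lie_skew]
    have h1 : φ ∈ (K.map (red_psi χ)).dualCoannihilator.dualAnnihilator := by
      rw [hcoW, Submodule.mem_dualAnnihilator]
      intro y hy
      rw [hφ]
      have h := hq (π ⟨y, hy⟩)
      rw [← LieHom.map_lie, hχ'] at h
      exact h
    rw [Subspace.dualCoannihilator_dualAnnihilator_eq] at h1
    obtain ⟨m, hm, hmφ⟩ := h1
    have h2 : (x : L) + m = 0 := by
      refine hN _ ?_
      intro y
      have h3 : red_psi χ m y = φ y := by rw [hmφ]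
      rw [red_psi_apply, hφ] at h3
      rw [add_lie, map_add, ← h3, ← lie_skew, map_neg, neg_add_cancel]
    have h3 : (x : L) = -m := eq_neg_of_add_eq_zero_left h2
    rw [h3]
    exact K.neg_mem hm
  · intro hN x hx
    have hx1 : x ∈ L1 := fun m _ => hx m
    have h1 : π ⟨x, hx1⟩ = 0 := by
      refine hN _ ?_
      intro q
      obtain ⟨y, rfl⟩ := hsurj q
      rw [← LieHom.map_lie, hχ']
      exact hx y
    rw [hker] at h1
    refine hnd x (hKM x h1) ?_
    intro y
    rw [← lie_skew, map_neg, hx y, neg_zero]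

end Pool.Agent.SkS
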