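import Pool.Agent.Lib.SkS.Burn

/-!
# Module RedRep: the irreducible representation of `L' = L1 / K` inside `V^K`

`V0 = {v : ρ(K) v = 0}` is nonzero (`common_kernel`: the operators `ρ m`, `m ∈ K`, commute and have square `0`
by `hρ.sq`, `hfK`, `χ m = 0`), stable under `L1` (`ρ m ρ x = ρ x ρ m + ρ ⁅m,x⁆`, `⁅m,x⁆ ∈ K` by `D.lieK`).
`exists_irr ρ D.L1 V0` gives `W`, and `rs ρ D.L1 W _ : L1 →ₗ End W` kills `ker π`, so it factors through `π`
(`LinearMap`-lifting along the surjection `D.π`, e.g. `LinearMap.exists_extend`-free: `(Submodule.liftQ ..)` composed with the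
quotient equivalence `LinearMap.quotKerEquivOfSurjective`).  `Rep f' χ' ρ'`: use `D.surj`, `D.hf`, `D.hχ`.
-/

namespace Pool.Agent.SkS

open Module

variable {k L V : Type} [Field k] [CharP k 2] [LieRing L] [LieAlgebra k L]
  [AddCommGroup V] [Module k V] [FiniteDimensional k V]

theorem redRep {f : L → L} {χ : Dual k L} (ρ : L →ₗ[k] End k V) (hρ : Rep f χ ρ)
    (hV : Nontrivial V) (K : Submodule k L) (hKab : ∀ x ∈ K, ∀ y ∈ K, ⁅x, y⁆ = 0)
    (hfK : ∀ m ∈ K, f m = 0) (hχK : ∀ m ∈ K, χ m = 0)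
    {L' : Type} [LieRing L'] [LieAlgebra k L'] {f' : L' → L'} {χ' : Dual k L'}
    (D : RedData f χ K L' f' χ') :
    ∃ (W : Submodule k V) (ρ' : L' →ₗ[k] End k W), W ≠ ⊥ ∧ (∀ w ∈ W, ∀ m ∈ K, ρ m w = 0) ∧
      Rep f' χ' ρ' ∧ Irr ρ' ∧ ∀ (x : D.L1) (w : W), ((ρ' (D.π x) w : W) : V) = ρ (x : L) (w : V) := by
  -- the operators `ρ m`, `m ∈ K`
  let S : Set (End k V) := {a | ∃ m ∈ K, ρ m = a}
  have hSc : ∀ a ∈ S, ∀ b ∈ S, a * b = b * a := by
    rintro _ ⟨x, hx, rfl⟩ _ ⟨y, hy, rfl⟩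
    have h := hρ.lie x y
    rw [hKab x hx y hy, map_zero] at h
    exact (sub_eq_zero.mp h.symm)
  have hSn : ∀ a ∈ S, IsNilpotent a := by
    rintro _ ⟨x, hx, rfl⟩
    refine ⟨2, ?_⟩
    rw [sq, hρ.sq, hfK x hx, hχK x hx, map_zero, zero_pow two_ne_zero, map_zero, add_zero]
  obtain ⟨v, -, hv0, hv⟩ := common_kernel S hSc hSn ⊤ (by
    intro h
    obtain ⟨w, hw⟩ := exists_ne (0 : V)
    have h1 : w ∈ (⊤ : Submodule k V) := Submodule.mem_top
    rw [h, Submodule.mem_bot] at h1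
    exact hw h1) (fun _ _ _ _ => Submodule.mem_top)
  let V0 : Submodule k V :=
    { carrier := {w | ∀ m ∈ K, ρ m w = 0}
      add_mem' := fun {a b} ha hb m hm => by rw [map_add, ha m hm, hb m hm, add_zero]
      zero_mem' := fun m _ => map_zero _
      smul_mem' := fun c a ha m hm => by rw [map_smul, ha m hm, smul_zero] }
  have hV0 : V0 ≠ ⊥ := by
    intro h
    have h1 : v ∈ V0 := fun m hm => hv _ ⟨m, hm, rfl⟩
    rw [h, Submodule.mem_bot] at h1
    exact hv0 h1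
  have hst : ∀ x ∈ D.L1, ∀ w ∈ V0, ρ x w ∈ V0 := by
    intro x hx w hw m hm
    have h := LinearMap.congr_fun (hρ.lie x m) w
    rw [LinearMap.sub_apply, Module.End.mul_apply, Module.End.mul_apply, hw m hm, map_zero,
      hw _ (D.lieK x hx m hm), zero_sub, eq_comm, neg_eq_zero] at h
    exact h
  obtain ⟨W, h', hle, hW0, hirr⟩ := exists_irr ρ D.L1 V0 hV0 hst
  -- factor through `π`
  have hker : LinearMap.ker (D.π : D.L1 →ₗ[k] L') ≤ LinearMap.ker (rs ρ D.L1 W h') := by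
    intro x hx
    rw [LinearMap.mem_ker] at hx ⊢
    have hxK : (x : L) ∈ K := (D.ker x).mp hx
    ext w
    rw [rs_apply]
    exact hle w.2 _ hxK
  let e := LinearMap.quotKerEquivOfSurjective (D.π : D.L1 →ₗ[k] L') D.surj
  let ρ' : L' →ₗ[k] End k W :=
    ((LinearMap.ker (D.π : D.L1 →ₗ[k] L')).liftQ (rs ρ D.L1 W h') hker).comp e.symm.toLinearMap
  have hρ' : ∀ x : D.L1, ρ' (D.π x) = rs ρ D.L1 W h' x := by
    intro x
    have h1 : e (Submodule.Quotient.mk x) = D.π x := rfl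
    have h2 : e.symm (D.π x) = Submodule.Quotient.mk x := by
      rw [← h1, LinearEquiv.symm_apply_apply]
    show ((LinearMap.ker (D.π : D.L1 →ₗ[k] L')).liftQ (rs ρ D.L1 W h') hker) (e.symm (D.π x)) = _
    rw [h2, Submodule.liftQ_apply]
  refine ⟨W, ρ', hW0, fun w hw m hm => hle hw m hm, ⟨?_, ?_⟩, ⟨hirr.1, ?_⟩, ?_⟩
  · intro p q
    obtain ⟨x, rfl⟩ := D.surj p
    obtain ⟨y, rfl⟩ := D.surj q
    rw [← LieHom.map_lie, hρ', hρ', hρ']
    ext w
    rw [rs_apply]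
    have h := LinearMap.congr_fun (hρ.lie (x : L) (y : L)) (w : V)
    exact h
  · intro p
    obtain ⟨x, rfl⟩ := D.surj p
    rw [D.hf, hρ', hρ', D.hχ]
    ext w
    have h := LinearMap.congr_fun (hρ.sq (x : L)) (w : V)
    exact h
  · intro U hU
    refine hirr.2 U ?_
    intro x w hw
    have h := hU (D.π x) w hw
    rw [hρ'] at h
    exact h
  · intro x w
    rw [hρ', rs_apply]

end Pool.Agent.SkS
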