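import Pool.Agent.Lib.SkS.Defs

/-!
# Module Str1: existence of the Heisenberg configuration

`L` is solvable and nontrivial: the last nonzero derived ideal is an abelian ideal, of dimension `1` by `hab`: `k z1`, an ideal.
`⁅y, z1⁆ = μ(y) z1`; some `μ(y) ≠ 0` by `hcen` (z1 is not central); `χ z1 ≠ 0` by `hnd` (the `y` with `χ ⁅y,z1⁆ ≠ 0` has `μ(y) χ(z1) ≠ 0`).
`z = z1 / χ(z1)`.  `f z`: `⁅f z, y⁆ = ⁅z,⁅z,y⁆⁆ = 0`, so `f z = 0` by `hcen`.
`H`: among the ideals `H'` with `z ∈ H'`, `⁅h, z⁆ = 0` (`h ∈ H'`) and `⁅h, h'⁆ ∈ k z` (`h, h' ∈ H'`) choose one of maximal dimension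
(or a maximal one: the lattice of Lie ideals is Noetherian).  `k z` is one of them.
`H_nd`: `{h ∈ H : ⁅h, H⁆ = 0}` is an abelian ideal of `L` containing `z`; `hab` gives dimension `1`.
`C = {x : ⁅x, H⁆ = 0}` is an ideal, contained in `{x : ⁅x,z⁆ = 0}`.  Claim `C ≤ k z`.  Otherwise, let `C^(i)` be the last derived ideal
(`LieAlgebra.derivedSeriesOfIdeal k L i C`, eventually `⊥` by solvability) not contained in `k z`; `B = C^(i) + k z` is an ideal with `⁅B,B⁆ ⊆ k z`, `⁅B, H⁆ = 0`;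
`H + B` is in the family, so `B ≤ H` by maximality, so `B ≤ C ∩ H = k z` (`H_nd`), contradiction.
`H_max`: let `⁅x,z⁆ = 0` and `⁅x,h⁆ ∈ k z` for `h ∈ H`.  The form `⁅h,h'⁆ = ω(h,h') z` on `H` has radical `k z`, so (dimension count, as in
`exists_dual`; you may prove it here privately) there is `h0 ∈ H` with `⁅h0, h⁆ = ⁅x, h⁆` for all `h ∈ H`; `x - h0 ∈ C ≤ k z ≤ H`.
`f_mem`: for `h ∈ H`: `⁅f h, y⁆ = ⁅h,⁅h,y⁆⁆ ∈ k z` for all `y`, `⁅f h, z⁆ = 0`, so `f h ∈ H` by `H_max`, and `⁅f h, h'⁆ = ⁅h,⁅h,h'⁆⁆ = 0`, so `f h ∈ k z` by `H_nd`.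
-/

namespace Pool.Agent.SkS

open Module

variable {k L : Type} [Field k] [CharP k 2] [LieRing L] [LieAlgebra k L] [FiniteDimensional k L]


omit [CharP k 2] [FiniteDimensional k L] in
/-- the last derived ideal of `C` not contained in `P` -/
private lemma last_derived [LieAlgebra.IsSolvable L] (P C : LieIdeal k L) (h : ¬ C ≤ P) :
    ∃ B : LieIdeal k L, B ≤ C ∧ ¬ B ≤ P ∧ ⁅B, B⁆ ≤ P := by
  classical
  obtain ⟨N, hN⟩ := LieAlgebra.IsSolvable.solvable k L
  have hex : ∃ i, LieAlgebra.derivedSeriesOfIdeal k L i C ≤ P := by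
    refine ⟨N, ?_⟩
    have h1 : LieAlgebra.derivedSeriesOfIdeal k L N C ≤ LieAlgebra.derivedSeriesOfIdeal k L N ⊤ :=
      LieAlgebra.derivedSeriesOfIdeal_mono le_top N
    have h2 : LieAlgebra.derivedSeriesOfIdeal k L N ⊤ = ⊥ := hN
    rw [h2] at h1
    exact h1.trans bot_le
  have h0 : Nat.find hex ≠ 0 := by
    intro h0
    have := Nat.find_spec hex
    rw [h0, LieAlgebra.derivedSeriesOfIdeal_zero] at this
    exact h this
  obtain ⟨j, hj⟩ := Nat.exists_eq_succ_of_ne_zero h0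
  refine ⟨LieAlgebra.derivedSeriesOfIdeal k L j C, ?_, ?_, ?_⟩
  · exact LieAlgebra.derivedSeriesOfIdeal_le_self C j
  · exact Nat.find_min hex (by omega)
  · have := Nat.find_spec hex
    rw [hj, LieAlgebra.derivedSeriesOfIdeal_succ] at this
    exact this

omit [CharP k 2] in
/-- a subspace of dimension at most one containing `z ≠ 0` is `k z` -/
private lemma eq_smul_of_finrank_le_one (M : Submodule k L) (hM : finrank k M ≤ 1) {z : L}
    (hz : z ∈ M) (hz0 : z ≠ 0) {x : L} (hx : x ∈ M) : ∃ c : k, x = c • z := by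
  have h1 : Submodule.span k {z} ≤ M := by
    rw [Submodule.span_singleton_le_iff_mem]
    exact hz
  have h2 : Submodule.span k {z} = M := by
    apply Submodule.eq_of_le_of_finrank_le h1
    rw [finrank_span_singleton hz0]
    exact hM
  rw [← h2] at hx
  obtain ⟨c, hc⟩ := Submodule.mem_span_singleton.mp hx
  exact ⟨c, hc.symm⟩

theorem exists_cfg [LieAlgebra.IsSolvable L] [Nontrivial L] {f : L → L} (hf : Rst k f)
    (hab : AbOne k L) (hcen : ∀ c : L, (∀ y : L, ⁅c, y⁆ = 0) → c = 0) (χ : Dual k L)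
    (hnd : ∀ M : LieIdeal k L, (∀ x ∈ M, ∀ y ∈ M, ⁅x, y⁆ = 0) →
      ∀ m ∈ M, (∀ y : L, χ ⁅y, m⁆ = 0) → m = 0) :
    ∃ (z : L) (H : LieIdeal k L), Cfg f χ z H := by
  classical
  -- the abelian ideal `k z`
  obtain ⟨B, -, hB0, hBB⟩ := last_derived (⊥ : LieIdeal k L) ⊤ (by
    intro h
    have h1 : (⊤ : LieIdeal k L) = ⊥ := le_bot_iff.mp h
    obtain ⟨x, hx⟩ := exists_ne (0 : L)
    have h2 : x ∈ (⊤ : LieIdeal k L) := LieSubmodule.mem_top x
    rw [h1, LieSubmodule.mem_bot] at h2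
    exact hx h2)
  have hBab : ∀ x ∈ B, ∀ y ∈ B, ⁅x, y⁆ = 0 := by
    intro x hx y hy
    have h1 : ⁅x, y⁆ ∈ (⊥ : LieIdeal k L) := hBB (LieSubmodule.lie_mem_lie hx hy)
    rwa [LieSubmodule.mem_bot] at h1
  obtain ⟨z1, hz1, hz10⟩ : ∃ z1 ∈ B, z1 ≠ 0 := by
    by_contra hcon
    push Not at hcon
    apply hB0
    intro x hx
    rw [LieSubmodule.mem_bot]
    exact hcon x hx
  have hB1 : finrank k B ≤ 1 := hab B hBab
  have hBz : ∀ x ∈ B, ∃ c : k, x = c • z1 := fun x hx =>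
    eq_smul_of_finrank_le_one (B : Submodule k L) hB1 hz1 hz10 hx
  have hχ1 : χ z1 ≠ 0 := by
    intro h0
    apply hz10
    apply hnd B hBab z1 hz1
    intro y
    obtain ⟨c, hc⟩ := hBz _ (lie_mem_right k L B y z1 hz1)
    rw [hc, map_smul, h0, smul_zero]
  obtain ⟨T1, c1, hT1, hc1⟩ : ∃ (T1 : L) (c1 : k), ⁅T1, z1⁆ = c1 • z1 ∧ c1 ≠ 0 := by
    by_contra hcon
    push Not at hcon
    apply hz10
    apply hcen
    intro y
    obtain ⟨c, hc⟩ := hBz _ (lie_mem_right k L B y z1 hz1)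
    rw [← lie_skew, hc, hcon y c hc, zero_smul, neg_zero]
  set z : L := (χ z1)⁻¹ • z1 with hz
  have hz0 : z ≠ 0 := smul_ne_zero (inv_ne_zero hχ1) hz10
  have hzB : z ∈ B := B.smul_mem _ hz1
  have hχz : χ z = 1 := by rw [hz, map_smul, smul_eq_mul, inv_mul_cancel₀ hχ1]
  have hBz' : ∀ x ∈ B, ∃ c : k, x = c • z := fun x hx =>
    eq_smul_of_finrank_le_one (B : Submodule k L) hB1 hzB hz0 hx
  have heig : ∀ y : L, ∃ c : k, ⁅y, z⁆ = c • z := fun y =>
    hBz' _ (lie_mem_right k L B y z hzB)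
  have hfz : f z = 0 := by
    apply hcen
    intro y
    obtain ⟨c, hc⟩ := heig y
    rw [hf.lie, ← lie_skew z y, hc, lie_neg, lie_smul, lie_self, smul_zero, neg_zero]
  -- the family of ideals
  let S : Set (LieIdeal k L) := {H' | z ∈ H' ∧ (∀ h ∈ H', ⁅h, z⁆ = 0) ∧
    ∀ h ∈ H', ∀ h' ∈ H', ∃ c : k, ⁅h, h'⁆ = c • z}
  have hSne : S.Nonempty := by
    refine ⟨B, hzB, fun h hh => hBab h hh z hzB, fun h hh h' hh' => ⟨0, ?_⟩⟩
    rw [hBab h hh h' hh', zero_smul]
  have hwf : WellFounded ((· > ·) : LieIdeal k L → LieIdeal k L → Prop) := wellFounded_gt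
  obtain ⟨H, ⟨hzH, hHz, hHH⟩, hHmax⟩ := hwf.has_min S hSne
  have hBH : B ≤ H := by
    intro x hx
    obtain ⟨c, rfl⟩ := hBz' x hx
    exact H.smul_mem c hzH
  -- the centraliser of `H`
  let C : LieIdeal k L :=
    { carrier := {x | ∀ h ∈ H, ⁅x, h⁆ = 0}
      add_mem' := by
        intro a b ha hb h hh
        rw [add_lie, ha h hh, hb h hh, add_zero]
      zero_mem' := by
        intro h _
        rw [zero_lie]
      smul_mem' := by
        intro c a ha h hh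
        rw [smul_lie, ha h hh, smul_zero]
      lie_mem := by
        intro y x hx h hh
        have hx' : ∀ h ∈ H, ⁅x, h⁆ = 0 := hx
        rw [lie_lie, hx' h hh, lie_zero, zero_sub, hx' _ (lie_mem_right k L H y h hh), neg_zero] }
  have hCmem : ∀ x, x ∈ C ↔ ∀ h ∈ H, ⁅x, h⁆ = 0 := fun x => Iff.rfl
  have hHnd : ∀ h ∈ H, (∀ h' ∈ H, ⁅h, h'⁆ = 0) → ∃ c : k, h = c • z := by
    intro h hh hh'
    have habN : ∀ x ∈ (H ⊓ C : LieIdeal k L), ∀ y ∈ (H ⊓ C : LieIdeal k L), ⁅x, y⁆ = 0 := by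
      intro x hx y hy
      rw [LieSubmodule.mem_inf] at hx hy
      exact (hCmem x).mp hx.2 y hy.1
    have h1 := hab _ habN
    have hzN : z ∈ (H ⊓ C : LieIdeal k L) := by
      rw [LieSubmodule.mem_inf]
      refine ⟨hzH, ?_⟩
      rw [hCmem]
      intro h hh
      rw [← lie_skew, hHz h hh, neg_zero]
    have hhN : h ∈ (H ⊓ C : LieIdeal k L) := by
      rw [LieSubmodule.mem_inf]
      exact ⟨hh, hh'⟩
    exact eq_smul_of_finrank_le_one ((H ⊓ C : LieIdeal k L) : Submodule k L) h1 hzN hz0 hhN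
  have hCB : C ≤ B := by
    by_contra hcon
    obtain ⟨B', hB'C, hB'B, hB'B'⟩ := last_derived B C hcon
    apply hB'B
    have hmem : H ⊔ B' ∈ S := by
      refine ⟨(le_sup_left : H ≤ H ⊔ B') hzH, ?_, ?_⟩
      · intro h hh
        obtain ⟨a, ha, b, hb, rfl⟩ := (LieSubmodule.mem_sup _ _ _).mp hh
        rw [add_lie, hHz a ha, (hCmem b).mp (hB'C hb) z hzH, add_zero]
      · intro h hh h' hh'
        obtain ⟨a, ha, b, hb, rfl⟩ := (LieSubmodule.mem_sup _ _ _).mp hh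
        obtain ⟨a', ha', b', hb', rfl⟩ := (LieSubmodule.mem_sup _ _ _).mp hh'
        obtain ⟨c, hc⟩ := hHH a ha a' ha'
        obtain ⟨c', hc'⟩ := hBz' _ (hB'B' (LieSubmodule.lie_mem_lie hb hb'))
        refine ⟨c + c', ?_⟩
        have e1 : ⁅b, a'⁆ = 0 := (hCmem b).mp (hB'C hb) a' ha'
        have e2 : ⁅a, b'⁆ = 0 := by
          rw [← lie_skew, (hCmem b').mp (hB'C hb') a ha, neg_zero]
        rw [add_lie, lie_add, lie_add, hc, e1, e2, hc', add_smul]
        abel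
    have hle : H ⊔ B' ≤ H := by
      by_contra hlt
      exact hHmax _ hmem (lt_of_le_of_ne le_sup_left (fun he => hlt he.ge))
    intro b hb
    have hbH : b ∈ H := hle ((le_sup_right : B' ≤ H ⊔ B') hb)
    obtain ⟨c, rfl⟩ := hHnd b hbH ((hCmem b).mp (hB'C hb))
    exact B.smul_mem c hzB
  have hHmax' : ∀ x : L, ⁅x, z⁆ = 0 → (∀ h ∈ H, ∃ c : k, ⁅x, h⁆ = c • z) → x ∈ H := by
    intro x hxz hx
    -- the map `H → Dual H`
    let Φ : H →ₗ[k] Dual k H := LinearMap.mk₂ k (fun a b => χ ⁅(a : L), (b : L)⁆)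
      (by intro a a' b; simp) (by intro c a b; simp) (by intro a b b'; simp)
      (by intro c a b; simp)
    have hΦ : ∀ a b : H, Φ a b = χ ⁅(a : L), (b : L)⁆ := fun a b => rfl
    have hmul : ∀ a b : L, (∃ c : k, ⁅a, b⁆ = c • z) → ⁅a, b⁆ = χ ⁅a, b⁆ • z := by
      rintro a b ⟨c, hc⟩
      rw [hc, map_smul, hχz, smul_eq_mul, mul_one]
    have hker : LinearMap.ker Φ = Submodule.span k {(⟨z, hzH⟩ : H)} := by
      apply le_antisymm
      · intro a ha
        rw [LinearMap.mem_ker] at ha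
        have h1 : ∀ h' ∈ H, ⁅(a : L), h'⁆ = 0 := by
          intro h' hh'
          have h2 := congrArg (fun g : Dual k H => g ⟨h', hh'⟩) ha
          have h3 : χ ⁅(a : L), h'⁆ = 0 := h2
          rw [hmul _ _ (hHH a a.2 h' hh'), h3, zero_smul]
        obtain ⟨c, hc⟩ := hHnd a a.2 h1
        rw [Submodule.mem_span_singleton]
        exact ⟨c, Subtype.ext hc.symm⟩
      · rw [Submodule.span_singleton_le_iff_mem, LinearMap.mem_ker]
        ext b
        rw [hΦ]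
        have : ⁅z, (b : L)⁆ = 0 := by rw [← lie_skew, hHz b b.2, neg_zero]
        rw [this, map_zero]
        rfl
    have hzne : (⟨z, hzH⟩ : H) ≠ 0 := fun h0 => hz0 (congrArg Subtype.val h0)
    let ev : Dual k H →ₗ[k] k := LinearMap.applyₗ (⟨z, hzH⟩ : H)
    have hrange : LinearMap.range Φ ≤ LinearMap.ker ev := by
      rintro _ ⟨a, rfl⟩
      rw [LinearMap.mem_ker]
      change χ ⁅(a : L), z⁆ = 0
      rw [hHz a a.2, map_zero]
    have hev : LinearMap.range ev = ⊤ := by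
      rw [LinearMap.range_eq_top]
      intro c
      obtain ⟨g, hg⟩ : ∃ g : Dual k H, g ⟨z, hzH⟩ = 1 := ⟨χ.comp (H : Submodule k L).subtype, hχz⟩
      refine ⟨c • g, ?_⟩
      change c • g ⟨z, hzH⟩ = c
      rw [hg, smul_eq_mul, mul_one]
    have e1 := LinearMap.finrank_range_add_finrank_ker Φ
    have e2 := LinearMap.finrank_range_add_finrank_ker ev
    rw [hker, finrank_span_singleton hzne] at e1
    rw [hev, finrank_top, finrank_self, Subspace.dual_finrank_eq] at e2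
    have heq : LinearMap.range Φ = LinearMap.ker ev := by
      apply Submodule.eq_of_le_of_finrank_le hrange
      omega
    let ξ : Dual k H :=
      { toFun := fun h => χ ⁅x, (h : L)⁆
        map_add' := by intro a b; simp
        map_smul' := by intro c a; simp }
    have hξ : ξ ∈ LinearMap.range Φ := by
      rw [heq, LinearMap.mem_ker]
      change χ ⁅x, z⁆ = 0
      rw [hxz, map_zero]
    obtain ⟨h0, hh0⟩ := hξ
    have hmemC : x - (h0 : L) ∈ C := by
      rw [hCmem]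
      intro h hh
      have h1 := congrArg (fun g : Dual k H => g ⟨h, hh⟩) hh0
      have h2 : χ ⁅(h0 : L), h⁆ = χ ⁅x, h⁆ := h1
      rw [sub_lie, hmul x h (hx h hh), hmul h0 h (hHH h0 h0.2 h hh), h2, sub_self]
    have hmemH := H.add_mem (hBH (hCB hmemC)) h0.2
    rwa [sub_add_cancel] at hmemH
  refine ⟨z, H, ?_⟩
  refine
    { z_ne := hz0
      χz := hχz
      ex_T := ⟨c1⁻¹ • T1, ?_⟩
      fz := hfz
      eig := heig
      z_mem := hzH
      H_cent := hHz
      H_comm := hHH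
      H_nd := hHnd
      H_max := hHmax'
      f_mem := ?_ }
  · rw [hz, lie_smul, smul_lie, hT1, smul_smul c1⁻¹, inv_mul_cancel₀ hc1, one_smul]
  · intro h hh
    have h1 : ∀ h' ∈ H, ⁅f h, h'⁆ = 0 := by
      intro h' hh'
      obtain ⟨c, hc⟩ := hHH h hh h' hh'
      rw [hf.lie, hc, lie_smul, hHz h hh, smul_zero]
    refine hHnd (f h) (hHmax' (f h) (h1 z hzH) (fun h' hh' => ⟨0, ?_⟩)) h1
    rw [h1 h' hh', zero_smul]

end Pool.Agent.SkS
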