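import Pool.Agent.Lib.SkS.Dec
import Pool.Agent.Lib.SkS.Tor
import Pool.Agent.Lib.SkS.Burn

/-!
# Module Str2: `H = C(z)` in the Heisenberg configuration without toral elements

Let `L0 = {x : ⁅x,z⁆ = 0}`, an ideal of `L` (`Cfg.eig`), `H ≤ L0`.  Suppose `L0 ≤ H` fails.  Let `L0^(i)` be the last derived ideal
not contained in `H`, `A = L0^(i) + H`: an ideal with `H < A ≤ L0` and `⁅A,A⁆ ≤ H`.
Every `a ∈ A` is `x + h` with `h ∈ H`, `x ∈ A`, `InR x` (`decomp`).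
Let `x ∈ A` with `InR x`.  For `y` with `InR y`: `⁅x,y⁆ ∈ A ∩ R`, `⁅x,⁅x,y⁆⁆ ∈ ⁅A,A⁆ ∩ R ≤ H ∩ R ≤ k z` (`inR_lie`, `inR_H`).  So `⁅f x, y⁆ ∈ k z` and
with `d = f (f x)`: `⁅d, y⁆ = ⁅f x, ⁅f x, y⁆⁆ ∈ ⁅f x, k z⁆ = 0` (`inR_f`).  The same holds for every `f^[i] d`, and for every element of their span.
If `f^[N] d ≠ 0` for all `N`, `exists_toral` gives `t ≠ 0`, `f t = t`, `InR t`, `⁅t, R⁆ = 0`, contradicting `hT`.  So `f^[N] d = 0` for some `N`, and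
`⁅f^[j] u, h⁆ = (ad u)^(2^j) h` shows that `ad x` is nilpotent as an operator (on `L`).
The operators `ad x`, `x ∈ A ∩ R`, commute on `H`: `⁅x,x'⁆ ∈ H ∩ R ≤ k z` and `⁅z, H⁆ = 0`.
`H1 = {h ∈ H : ⁅a, h⁆ ∈ k z ∀ a ∈ A}`, `H2 = {h ∈ H : ⁅h, h1⁆ = 0 ∀ h1 ∈ H1}` are ideals of `L`, containing `z`; `H1 ∩ H2` is an abelian ideal, so it is
`k z` by `hab`.  Claim `H2 ≤ k z`: let `H2' = {h ∈ H2 : χ h = 0}` (a complement of `k z` in `H2`), with the operators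
`h ↦ ⁅x,h⁆ - χ(⁅x,h⁆) z = ⁅x, h⁆` (`χ ⁅x,h⁆ = 0` as `InR x`!) - so `H2'` itself is stable under `ad x`, `x ∈ A ∩ R`; these operators commute and are nilpotent on
`H2'` - `common_kernel` gives `0 ≠ h ∈ H2'` with `⁅x, h⁆ = 0` for all `x ∈ A ∩ R`, so `⁅a, h⁆ ∈ k z` for all `a ∈ A`, so `h ∈ H1 ∩ H2 = k z`, `χ h = 0`, `h = 0`:
contradiction.  So `H2 ≤ k z`, and then `H1 = H`: otherwise a functional `ξ` on `L`, zero on `H1`, nonzero on `H`; `ξ z = 0`; `exists_dual` gives `h0 ∈ H`,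
`χ ⁅h0, h⁆ = ξ h` on `H`, so `h0 ∈ H2 ≤ k z` and `ξ = 0` on `H`, contradiction.
So `⁅a, h⁆ ∈ k z` for all `a ∈ A`, `h ∈ H`, so `A ≤ H` by `Cfg.H_max`: contradiction.
-/

namespace Pool.Agent.SkS

open Module

variable {k L : Type} [Field k] [CharP k 2] [IsAlgClosed k] [LieRing L] [LieAlgebra k L]
  [FiniteDimensional k L]

/-- the centraliser of `z` as an ideal -/
private def centZ (z : L) (hz : ∀ y : L, ∃ c : k, ⁅y, z⁆ = c • z) : LieIdeal k L where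
  carrier := {x | ⁅x, z⁆ = 0}
  add_mem' {x y} hx hy := by
    have hx' : ⁅x, z⁆ = 0 := hx
    have hy' : ⁅y, z⁆ = 0 := hy
    change ⁅x + y, z⁆ = 0
    rw [add_lie, hx', hy', add_zero]
  zero_mem' := zero_lie z
  smul_mem' c x hx := by
    have hx' : ⁅x, z⁆ = 0 := hx
    change ⁅c • x, z⁆ = 0
    rw [smul_lie, hx', smul_zero]
  lie_mem {y x} hx := by
    have hx' : ⁅x, z⁆ = 0 := hx
    change ⁅⁅y, x⁆, z⁆ = 0
    obtain ⟨c, hc⟩ := hz y
    rw [lie_lie, hx', hc, lie_zero, lie_smul, hx', smul_zero, sub_zero]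

/-- elements of `H` bracketing `A` to `k z` -/
private def idH1 (z : L) (hz : ∀ y : L, ∃ c : k, ⁅y, z⁆ = c • z) (H A : LieIdeal k L) :
    LieIdeal k L where
  carrier := {h | h ∈ H ∧ ∀ a ∈ A, ∃ c : k, ⁅a, h⁆ = c • z}
  add_mem' {x y} hx hy := by
    refine ⟨H.add_mem hx.1 hy.1, fun a ha => ?_⟩
    obtain ⟨c, hc⟩ := hx.2 a ha
    obtain ⟨d, hd⟩ := hy.2 a ha
    exact ⟨c + d, by rw [lie_add, hc, hd, add_smul]⟩
  zero_mem' := ⟨H.zero_mem, fun a _ => ⟨0, by rw [lie_zero, zero_smul]⟩⟩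
  smul_mem' e x hx := by
    refine ⟨H.smul_mem e hx.1, fun a ha => ?_⟩
    obtain ⟨c, hc⟩ := hx.2 a ha
    exact ⟨e * c, by rw [lie_smul, hc, smul_smul]⟩
  lie_mem {y x} hx := by
    refine ⟨lie_mem_right k L H y x hx.1, fun a ha => ?_⟩
    obtain ⟨c, hc⟩ := hx.2 a ha
    obtain ⟨d, hd⟩ := hx.2 ⁅a, y⁆ (lie_mem_left k L A a y ha)
    obtain ⟨e, he⟩ := hz y
    refine ⟨d + c * e, ?_⟩
    rw [leibniz_lie, hd, hc, lie_smul, he, smul_smul, add_smul]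

/-- elements of `H` commuting with the ideal `B` -/
private def idH2 (H B : LieIdeal k L) : LieIdeal k L where
  carrier := {h | h ∈ H ∧ ∀ b ∈ B, ⁅h, b⁆ = 0}
  add_mem' {x y} hx hy := by
    refine ⟨H.add_mem hx.1 hy.1, fun b hb => ?_⟩
    rw [add_lie, hx.2 b hb, hy.2 b hb, add_zero]
  zero_mem' := ⟨H.zero_mem, fun b _ => zero_lie b⟩
  smul_mem' e x hx := by
    refine ⟨H.smul_mem e hx.1, fun b hb => ?_⟩
    rw [smul_lie, hx.2 b hb, smul_zero]
  lie_mem {y x} hx := by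
    refine ⟨lie_mem_right k L H y x hx.1, fun b hb => ?_⟩
    rw [lie_lie, hx.2 b hb, hx.2 _ (lie_mem_right k L B y b hb), lie_zero, sub_zero]

omit [CharP k 2] [IsAlgClosed k] in
/-- an abelian ideal containing `z ≠ 0` is `k z` -/
private lemma ab_eq (hab : AbOne k L) {z : L} (hz : z ≠ 0) (M : LieIdeal k L)
    (hM : ∀ x ∈ M, ∀ y ∈ M, ⁅x, y⁆ = 0) (hzM : z ∈ M) : ∀ x ∈ M, ∃ c : k, x = c • z := by
  intro x hx
  have h1 := hab M hM
  have h2 : Submodule.span k {z} ≤ (M : Submodule k L) := by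
    rw [Submodule.span_singleton_le_iff_mem]
    exact hzM
  have h3 : Submodule.span k {z} = (M : Submodule k L) := by
    apply Submodule.eq_of_le_of_finrank_le h2
    rw [finrank_span_singleton hz]
    exact h1
  have h4 : x ∈ Submodule.span k {z} := by
    rw [h3]
    exact hx
  obtain ⟨c, hc⟩ := Submodule.mem_span_singleton.mp h4
  exact ⟨c, hc.symm⟩

omit [CharP k 2] [IsAlgClosed k] [FiniteDimensional k L] in
/-- the last derived ideal of `L0` not contained in `H` -/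
private lemma exists_last [LieAlgebra.IsSolvable L] (L0 H : LieIdeal k L) (h : ¬ L0 ≤ H) :
    ∃ D : LieIdeal k L, D ≤ L0 ∧ ¬ D ≤ H ∧ ∀ x ∈ D, ∀ y ∈ D, ⁅x, y⁆ ∈ H := by
  classical
  have hex : ∃ n, LieAlgebra.derivedSeriesOfIdeal k L n L0 ≤ H := by
    obtain ⟨n, hn⟩ := LieAlgebra.IsSolvable.solvable k L
    refine ⟨n, ?_⟩
    refine (LieAlgebra.derivedSeriesOfIdeal_mono le_top n).trans ?_
    have h1 : LieAlgebra.derivedSeriesOfIdeal k L n ⊤ = ⊥ := hn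
    rw [h1]
    exact bot_le
  obtain ⟨n, hn1, hn2⟩ : ∃ n, ¬ LieAlgebra.derivedSeriesOfIdeal k L n L0 ≤ H ∧
      LieAlgebra.derivedSeriesOfIdeal k L (n + 1) L0 ≤ H := by
    by_contra hcon
    push Not at hcon
    have : ∀ n, ¬ LieAlgebra.derivedSeriesOfIdeal k L n L0 ≤ H := by
      intro n
      induction n with
      | zero => exact h
      | succ n ih => exact hcon n ih
    obtain ⟨n, hn⟩ := hex
    exact this n hn
  refine ⟨_, LieAlgebra.derivedSeriesOfIdeal_le_self L0 n, hn1, ?_⟩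
  intro x hx y hy
  apply hn2
  rw [LieAlgebra.derivedSeriesOfIdeal_succ]
  exact LieSubmodule.lie_mem_lie hx hy

omit [IsAlgClosed k] [CharP k 2] [FiniteDimensional k L] in
private lemma ad_pow {f : L → L} (hf : Rst k f) (x : L) (j : ℕ) :
    LieAlgebra.ad k L (f^[j] x) = (LieAlgebra.ad k L x) ^ (2 ^ j) := by
  induction j with
  | zero => simp
  | succ j ih =>
    rw [Function.iterate_succ_apply']
    have h1 : ∀ u : L, LieAlgebra.ad k L (f u) = (LieAlgebra.ad k L u) ^ 2 := by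
      intro u
      ext y
      rw [LieAlgebra.ad_apply, hf.lie, pow_two, Module.End.mul_apply, LieAlgebra.ad_apply,
        LieAlgebra.ad_apply]
    rw [h1, ih, ← pow_mul, pow_succ]

/-- steps 3 - 6 : `ad x` is nilpotent for `x ∈ A ∩ R` -/
private lemma ad_nil {f : L → L} (hf : Rst k f) {χ : Dual k L}
    {z : L} {H : LieIdeal k L} (hc : Cfg f χ z H) (hT : NoTor f χ z H) (A : LieIdeal k L)
    (hAA : ∀ x ∈ A, ∀ y ∈ A, ⁅x, y⁆ ∈ H) (x : L) (hxA : x ∈ A) (hx : InR χ z H x) :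
    IsNilpotent (LieAlgebra.ad k L x) := by
  have h1 : ∀ y, InR χ z H y → ∃ c : k, ⁅f x, y⁆ = c • z := by
    intro y hy
    rw [hf.lie]
    exact inR_H hc (inR_lie hc hx (inR_lie hc hx hy)) (hAA x hxA _ (lie_mem_left k L A x y hxA))
  have h2 : ∀ y, InR χ z H y → ⁅f (f x), y⁆ = 0 := by
    intro y hy
    obtain ⟨c, hc1⟩ := h1 y hy
    rw [hf.lie, hc1, lie_smul, (inR_f hf hc hx).1, smul_zero]
  have h3 : ∀ i : ℕ, InR χ z H (f^[i] (f (f x))) ∧ ∀ y, InR χ z H y → ⁅f^[i] (f (f x)), y⁆ = 0 := by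
    intro i
    induction i with
    | zero => exact ⟨inR_f hf hc (inR_f hf hc hx), h2⟩
    | succ i ih =>
      rw [Function.iterate_succ_apply']
      refine ⟨inR_f hf hc ih.1, fun y hy => ?_⟩
      rw [hf.lie, ih.2 y hy, lie_zero]
  have h4 : ∃ N, f^[N] (f (f x)) = 0 := by
    by_contra hcon
    push Not at hcon
    obtain ⟨t, ht, ht0, htt⟩ := exists_toral hf (f (f x)) hcon
    have h6 : ∀ u ∈ Submodule.span k (Set.range (fun i : ℕ => f^[i] (f (f x)))),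
        InR χ z H u ∧ ∀ y, InR χ z H y → ⁅u, y⁆ = 0 := by
      intro u hu
      induction hu using Submodule.span_induction with
      | mem u hu =>
        obtain ⟨i, rfl⟩ := hu
        exact h3 i
      | zero =>
        exact ⟨⟨zero_lie z, fun h _ => by rw [zero_lie, map_zero]⟩, fun y _ => zero_lie y⟩
      | add u v _ _ hu hv =>
        exact ⟨inR_add hu.1 hv.1, fun y hy => by rw [add_lie, hu.2 y hy, hv.2 y hy, add_zero]⟩
      | smul a u _ hu =>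
        exact ⟨inR_smul a hu.1, fun y hy => by rw [smul_lie, hu.2 y hy, smul_zero]⟩
    have h5 := h6 t ht
    exact ht0 (hT t h5.1 htt h5.2)
  obtain ⟨N, hN⟩ := h4
  refine ⟨2 ^ (N + 2), ?_⟩
  rw [← ad_pow hf, Function.iterate_add_apply]
  have h5 : f^[2] x = f (f x) := rfl
  rw [h5, hN, map_zero]

theorem L0_le [LieAlgebra.IsSolvable L] {f : L → L} (hf : Rst k f) (hab : AbOne k L) {χ : Dual k L}
    {z : L} {H : LieIdeal k L} (hc : Cfg f χ z H) (hT : NoTor f χ z H) :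
    ∀ x : L, ⁅x, z⁆ = 0 → x ∈ H := by
  by_contra hcon
  have hL0 : ¬ centZ z hc.eig ≤ H := by
    intro hle
    apply hcon
    intro x hx
    exact hle hx
  obtain ⟨D, hD1, hD2, hD3⟩ := exists_last _ H hL0
  obtain ⟨A, hHA, hDA, hAz, hAA⟩ : ∃ A : LieIdeal k L, H ≤ A ∧ D ≤ A ∧ (∀ a ∈ A, ⁅a, z⁆ = 0) ∧
      ∀ x ∈ A, ∀ y ∈ A, ⁅x, y⁆ ∈ H := by
    refine ⟨D ⊔ H, le_sup_right, le_sup_left, ?_, ?_⟩
    · intro a ha
      have h1 : D ⊔ H ≤ centZ z hc.eig := sup_le hD1 (fun h hh => hc.H_cent h hh)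
      exact h1 ha
    · intro x hx y hy
      rw [LieSubmodule.mem_sup] at hx hy
      obtain ⟨d, hd, h, hh, rfl⟩ := hx
      obtain ⟨d', hd', h', hh', rfl⟩ := hy
      rw [add_lie, lie_add]
      exact H.add_mem (H.add_mem (hD3 d hd d' hd') (lie_mem_right k L H d h' hh'))
        (lie_mem_left k L H h _ hh)
  have hdec : ∀ a ∈ A, ∃ h0 ∈ H, InR χ z H (a - h0) ∧ a - h0 ∈ A := by
    intro a ha
    obtain ⟨h0, hh0, h1⟩ := decomp hc a (hAz a ha)
    exact ⟨h0, hh0, h1, A.sub_mem ha (hHA hh0)⟩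
  set H1 := idH1 z hc.eig H A with hH1
  set H2 := idH2 H H1 with hH2
  have hz1 : z ∈ H1 := ⟨hc.z_mem, fun a ha => ⟨0, by rw [hAz a ha, zero_smul]⟩⟩
  have hz2 : z ∈ H2 := by
    refine ⟨hc.z_mem, fun b hb => ?_⟩
    rw [← lie_skew, hc.H_cent b hb.1, neg_zero]
  have h12 : ∀ x, x ∈ H1 → x ∈ H2 → ∃ c : k, x = c • z := by
    intro x hx1 hx2
    refine ab_eq hab hc.z_ne (H1 ⊓ H2) ?_ ⟨hz1, hz2⟩ x ⟨hx1, hx2⟩
    intro u hu v hv
    exact hu.2.2 v hv.1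
  -- `H2 = k z`
  have hH2z : ∀ h ∈ H2, ∃ c : k, h = c • z := by
    by_contra hcon2
    push Not at hcon2
    obtain ⟨h, hh, hne⟩ := hcon2
    let S : Set (End k H) := {a | ∃ x ∈ A, InR χ z H x ∧ a = LieModule.toEnd k L H x}
    let W : Submodule k H :=
      { carrier := {v | (v : L) ∈ H2 ∧ χ (v : L) = 0}
        add_mem' := by
          rintro u v ⟨hu, hu'⟩ ⟨hv, hv'⟩
          refine ⟨H2.add_mem hu hv, ?_⟩
          change χ ((u : L) + (v : L)) = 0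
          rw [map_add, hu', hv', add_zero]
        zero_mem' := ⟨H2.zero_mem, map_zero χ⟩
        smul_mem' := by
          rintro c u ⟨hu, hu'⟩
          refine ⟨H2.smul_mem c hu, ?_⟩
          change χ (c • (u : L)) = 0
          rw [map_smul, hu', smul_zero] }
    have hW0 : W ≠ ⊥ := by
      intro hbot
      have h1 : h - χ h • z ∈ H := H.sub_mem hh.1 (H.smul_mem _ hc.z_mem)
      have h2 : (⟨h - χ h • z, h1⟩ : H) ∈ W := by
        refine ⟨H2.sub_mem hh (H2.smul_mem _ hz2), ?_⟩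
        change χ (h - χ h • z) = 0
        rw [map_sub, map_smul, hc.χz, smul_eq_mul, mul_one, sub_self]
      rw [hbot, Submodule.mem_bot] at h2
      have h3 : h - χ h • z = 0 := congrArg Subtype.val h2
      exact hne (χ h) (sub_eq_zero.mp h3)
    have hWS : ∀ a ∈ S, ∀ w ∈ W, a w ∈ W := by
      rintro a ⟨x, hxA, hxR, rfl⟩ w ⟨hw1, hw2⟩
      refine ⟨lie_mem_right k L H2 x w hw1, ?_⟩
      exact hxR.2 w w.2
    have hSc : ∀ a ∈ S, ∀ b ∈ S, a * b = b * a := by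
      rintro a ⟨x, hxA, hxR, rfl⟩ b ⟨y, hyA, hyR, rfl⟩
      obtain ⟨c, hc1⟩ := inR_H hc (inR_lie hc hxR hyR) (hAA x hxA y hyA)
      ext w
      change ⁅x, ⁅y, (w : L)⁆⁆ = ⁅y, ⁅x, (w : L)⁆⁆
      rw [leibniz_lie, hc1, smul_lie, ← lie_skew z, hc.H_cent w w.2, neg_zero, smul_zero, zero_add]
    have hSn : ∀ a ∈ S, IsNilpotent a := by
      rintro a ⟨x, hxA, hxR, rfl⟩
      obtain ⟨n, hn⟩ := ad_nil hf hc hT A hAA x hxA hxR
      refine ⟨n, ?_⟩
      ext w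
      rw [LieSubmodule.coe_toEnd_pow]
      have h1 := LinearMap.congr_fun hn (w : L)
      exact h1
    obtain ⟨v, hvW, hv0, hv⟩ := common_kernel S hSc hSn W hW0 hWS
    have hv1 : (v : L) ∈ H1 := by
      refine ⟨v.2, fun a ha => ?_⟩
      obtain ⟨h0, hh0, hR, hA'⟩ := hdec a ha
      obtain ⟨c, hc1⟩ := hc.H_comm h0 hh0 v v.2
      have h1 : ⁅a - h0, (v : L)⁆ = 0 := congrArg Subtype.val (hv _ ⟨a - h0, hA', hR, rfl⟩)
      refine ⟨c, ?_⟩
      rw [sub_lie, sub_eq_zero] at h1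
      rw [h1, hc1]
    obtain ⟨c, hc1⟩ := h12 v hv1 hvW.1
    have h2 : χ (v : L) = 0 := hvW.2
    rw [hc1, map_smul, hc.χz, smul_eq_mul, mul_one] at h2
    rw [h2, zero_smul] at hc1
    exact hv0 (Subtype.ext hc1)
  -- `H1 = H`
  have hH1H : ∀ h ∈ H, h ∈ H1 := by
    by_contra hcon2
    push Not at hcon2
    obtain ⟨h, hh, hne⟩ := hcon2
    obtain ⟨ξ, hξ1, hξ2⟩ := Submodule.exists_dual_map_eq_bot_of_notMem
      (p := (H1 : Submodule k L)) (x := h) hne inferInstance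
    have hξ3 : ∀ u ∈ H1, ξ u = 0 := by
      intro u hu
      have h1 : ξ u ∈ (H1 : Submodule k L).map ξ := Submodule.mem_map_of_mem hu
      rw [hξ2, Submodule.mem_bot] at h1
      exact h1
    obtain ⟨h0, hh0, hd⟩ := exists_dual hc ξ (hξ3 z hz1)
    have h02 : h0 ∈ H2 := by
      refine ⟨hh0, fun b hb => ?_⟩
      obtain ⟨c, hc1⟩ := hc.H_comm h0 hh0 b hb.1
      have h1 := hd b hb.1
      rw [hξ3 b hb, hc1, map_smul, hc.χz, smul_eq_mul, mul_one] at h1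
      rw [hc1, h1, zero_smul]
    obtain ⟨c, hc1⟩ := hH2z h0 h02
    apply hξ1
    rw [← hd h hh, hc1, smul_lie, ← lie_skew, hc.H_cent h hh, neg_zero, smul_zero, map_zero]
  apply hD2
  intro a ha
  exact hc.H_max a (hAz a (hDA ha)) (fun h hh => (hH1H h hh).2 a (hDA ha))

end Pool.Agent.SkS
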