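import Pool.Agent.Lib.SkS.Defs

/-!
# Module Str3: the end of the structure theorem, and the two-dimensional case

`two_dim`: `T` from `Cfg.ex_T`; every `x ∈ L` is `μ T + x0` with `⁅x0, z⁆ = 0` (`Cfg.eig`), so `x0 ∈ H`.  Let `H' = {h ∈ H : χ h = 0}`.  If `H' ≠ 0`,
the operator `h ↦ ⁅T,h⁆ - χ(⁅T,h⁆) z` of `H'` has an eigenvector `h` (`Module.End.exists_eigenvalue`): `⁅T,h⁆ = λ h + c z`, and `k h + k z` is an abelian ideal
(`⁅h', h⁆ ∈ k z` for `h' ∈ H`) of dimension `2` (`χ h = 0`, `χ z = 1`, `h ≠ 0`), contradicting `hab`.  So `H' = 0` and `h = χ(h) z` for `h ∈ H`.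
`base_nondeg`: `x = a T + b z`: `χ ⁅x, z⁆ = a`, `χ ⁅x, T⁆ = -b`.
`base_big`: `finrank k L ≤ 2`; `V ≠ 0`; if `finrank V = 1` then `End k V` is commutative, `ρ z = ρ ⁅T,z⁆ = 0`, but `ρ z * ρ z = ρ (f z) + 1 = 1`.
So `finrank V ≥ 2` and `2^{finrank L} ≤ 4 ≤ (finrank V)^2`.
-/

namespace Pool.Agent.SkS

open Module

variable {k L : Type} [Field k] [CharP k 2] [LieRing L] [LieAlgebra k L] [FiniteDimensional k L]

/-- the operator `h ↦ ⁅T, h⁆ - χ ⁅T, h⁆ z` -/
private noncomputable def opT (χ : Dual k L) (T z : L) : L →ₗ[k] L where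
  toFun h := ⁅T, h⁆ - χ ⁅T, h⁆ • z
  map_add' x y := by
    rw [lie_add, map_add, add_smul]
    abel
  map_smul' a x := by
    rw [lie_smul, map_smul, RingHom.id_apply, smul_sub, smul_smul, smul_eq_mul]

omit [CharP k 2] [FiniteDimensional k L] in
private lemma opT_apply (χ : Dual k L) (T z h : L) : opT χ T z h = ⁅T, h⁆ - χ ⁅T, h⁆ • z := rfl

theorem two_dim [IsAlgClosed k] {f : L → L} (hab : AbOne k L) {χ : Dual k L} {z : L}
    {H : LieIdeal k L} (hc : Cfg f χ z H) (h0 : ∀ x : L, ⁅x, z⁆ = 0 → x ∈ H) :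
    ∃ T : L, ⁅T, z⁆ = z ∧ ∀ x : L, ∃ a b : k, x = a • T + b • z := by
  obtain ⟨T, hT⟩ := hc.ex_T
  refine ⟨T, hT, ?_⟩
  have dec : ∀ x : L, ∃ μ : k, x - μ • T ∈ H := by
    intro x
    obtain ⟨μ, hμ⟩ := hc.eig x
    exact ⟨μ, h0 _ (by rw [sub_lie, smul_lie, hμ, hT, sub_self])⟩
  have key : ∀ h ∈ H, h = χ h • z := by
    by_contra hne
    push Not at hne
    obtain ⟨h, hh, hn⟩ := hne
    let H' : Submodule k L := H.toSubmodule ⊓ LinearMap.ker χ
    have hmem : ∀ w : L, w ∈ H' ↔ w ∈ H ∧ χ w = 0 := fun w => by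
      simp [H', Submodule.mem_inf, LinearMap.mem_ker]
    have hmap : ∀ w ∈ H', opT χ T z w ∈ H' := by
      intro w hw
      rw [hmem] at hw ⊢
      rw [opT_apply]
      refine ⟨H.sub_mem (lie_mem_right k L H T w hw.1) (H.smul_mem _ hc.z_mem), ?_⟩
      rw [map_sub, map_smul, hc.χz, smul_eq_mul, mul_one, sub_self]
    have hw0 : h - χ h • z ∈ H' := by
      rw [hmem]
      refine ⟨H.sub_mem hh (H.smul_mem _ hc.z_mem), ?_⟩
      rw [map_sub, map_smul, hc.χz, smul_eq_mul, mul_one, sub_self]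
    haveI : Nontrivial H' := by
      refine ⟨⟨⟨h - χ h • z, hw0⟩, 0, ?_⟩⟩
      intro he
      exact hn (sub_eq_zero.mp (congrArg Subtype.val he))
    obtain ⟨lam, hlam⟩ := Module.End.exists_eigenvalue ((opT χ T z).restrict hmap)
    obtain ⟨v, hv⟩ := hlam.exists_hasEigenvector
    have hv1 : opT χ T z (v : L) = lam • (v : L) := by
      have h1 := hv.apply_eq_smul
      exact congrArg Subtype.val h1
    have hv0 : (v : L) ≠ 0 := fun he => hv.2 (Subtype.ext he)
    have hvH : (v : L) ∈ H := ((hmem _).1 v.2).1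
    have hvχ : χ (v : L) = 0 := ((hmem _).1 v.2).2
    have hTv : ⁅T, (v : L)⁆ = lam • (v : L) + χ ⁅T, (v : L)⁆ • z := by
      rw [← hv1, opT_apply, sub_add_cancel]
    -- the ideal
    let S : Submodule k L := Submodule.span k {(v : L), z}
    have hvS : (v : L) ∈ S := Submodule.subset_span (by simp)
    have hzS : z ∈ S := Submodule.subset_span (by simp)
    have hlv : ∀ x : L, ⁅x, (v : L)⁆ ∈ S := by
      intro x
      obtain ⟨μ, hμ⟩ := dec x
      obtain ⟨c, hcc⟩ := hc.H_comm _ hμ _ hvH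
      have e : ⁅x, (v : L)⁆ = μ • ⁅T, (v : L)⁆ + c • z := by
        rw [← hcc, sub_lie, smul_lie]
        abel
      rw [e, hTv]
      exact S.add_mem (S.smul_mem _ (S.add_mem (S.smul_mem _ hvS) (S.smul_mem _ hzS)))
        (S.smul_mem _ hzS)
    have hlz : ∀ x : L, ⁅x, z⁆ ∈ S := by
      intro x
      obtain ⟨c, hcc⟩ := hc.eig x
      rw [hcc]
      exact S.smul_mem _ hzS
    have hS : ∀ m : L, m ∈ S ↔ ∃ a b : k, a • (v : L) + b • z = m := fun m =>
      Submodule.mem_span_pair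
    let M : LieIdeal k L :=
      { S with
        lie_mem := by
          intro x m hm
          obtain ⟨a, b, rfl⟩ := (hS m).1 hm
          change ⁅x, a • (v : L) + b • z⁆ ∈ S
          rw [lie_add, lie_smul, lie_smul]
          exact S.add_mem (S.smul_mem _ (hlv x)) (S.smul_mem _ (hlz x)) }
    have hMS : ∀ m : L, m ∈ M ↔ ∃ a b : k, a • (v : L) + b • z = m := hS
    have hvz : ⁅(v : L), z⁆ = 0 := hc.H_cent _ hvH
    have hzv : ⁅z, (v : L)⁆ = 0 := by rw [← lie_skew, hvz, neg_zero]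
    have hM := hab M (by
      intro x hx y hy
      obtain ⟨a, b, rfl⟩ := (hMS x).1 hx
      obtain ⟨a', b', rfl⟩ := (hMS y).1 hy
      simp only [lie_add, add_lie, lie_smul, smul_lie, lie_self, hvz, hzv, smul_zero, add_zero])
    obtain ⟨w, hw⟩ := finrank_le_one_iff.1 hM
    obtain ⟨a, ha⟩ := hw ⟨(v : L), (hMS _).2 ⟨1, 0, by simp⟩⟩
    obtain ⟨b, hb⟩ := hw ⟨z, (hMS _).2 ⟨0, 1, by simp⟩⟩
    have ha' : a • (w : L) = (v : L) := congrArg Subtype.val ha
    have hb' : b • (w : L) = z := congrArg Subtype.val hb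
    have e1 : a * χ (w : L) = 0 := by rw [← smul_eq_mul, ← map_smul, ha', hvχ]
    have e2 : b * χ (w : L) = 1 := by rw [← smul_eq_mul, ← map_smul, hb', hc.χz]
    have e3 : a = 0 := by
      rcases mul_eq_zero.1 e1 with h1 | h1
      · exact h1
      · rw [h1, mul_zero] at e2
        exact absurd e2 zero_ne_one
    exact hv0 (by rw [← ha', e3, zero_smul])
  intro x
  obtain ⟨μ, hμ⟩ := dec x
  refine ⟨μ, χ (x - μ • T), ?_⟩
  rw [← key _ hμ, add_sub_cancel]

omit [CharP k 2] [FiniteDimensional k L] in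
private lemma lie_zT {z T : L} (hT : ⁅T, z⁆ = z) : ⁅z, T⁆ = -z := by
  rw [← lie_skew, hT]

theorem base_nondeg {χ : Dual k L} {z T : L} (hχ : χ z = 1) (hT : ⁅T, z⁆ = z)
    (hs : ∀ x : L, ∃ a b : k, x = a • T + b • z) : Nondeg χ := by
  intro x hx
  obtain ⟨a, b, rfl⟩ := hs x
  have h1 := hx z
  have h2 := hx T
  rw [add_lie, smul_lie, smul_lie, lie_self, smul_zero, add_zero, hT, map_smul, hχ, smul_eq_mul,
    mul_one] at h1
  rw [add_lie, smul_lie, smul_lie, lie_self, smul_zero, zero_add, lie_zT hT, map_smul, map_neg, hχ,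
    smul_eq_mul, mul_neg, mul_one, neg_eq_zero] at h2
  rw [h1, h2, zero_smul, zero_smul, add_zero]

private lemma scal_of_one {V : Type} [AddCommGroup V] [Module k V] (h1 : finrank k V = 1)
    (g : End k V) : ∃ c : k, ∀ w : V, g w = c • w := by
  obtain ⟨v, hv, hw⟩ := finrank_eq_one_iff'.1 h1
  obtain ⟨c, hc⟩ := hw (g v)
  refine ⟨c, fun w => ?_⟩
  obtain ⟨d, rfl⟩ := hw w
  rw [map_smul, ← hc, smul_comm]

theorem base_big {f : L → L} {χ : Dual k L} {z T : L} (hχ : χ z = 1) (hfz : f z = 0)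
    (hT : ⁅T, z⁆ = z) (hs : ∀ x : L, ∃ a b : k, x = a • T + b • z) : Big f χ := by
  intro V _ _ _ ρ hρ hI
  have hL : finrank k L ≤ 2 := by
    have h1 : Submodule.span k (Set.range ![T, z]) = (⊤ : Submodule k L) := by
      rw [Submodule.eq_top_iff']
      intro x
      obtain ⟨a, b, rfl⟩ := hs x
      refine Submodule.add_mem _ (Submodule.smul_mem _ _ (Submodule.subset_span ⟨0, rfl⟩))
        (Submodule.smul_mem _ _ (Submodule.subset_span ⟨1, rfl⟩))
    have h2 := finrank_range_le_card (R := k) ![T, z]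
    rw [Set.finrank, h1, finrank_top] at h2
    simpa using h2
  haveI : Nontrivial V := hI.1
  have hV0 : 0 < finrank k V := finrank_pos
  have hV1 : finrank k V ≠ 1 := by
    intro h1
    obtain ⟨c, hc⟩ := scal_of_one h1 (ρ T)
    have e1 : ρ z = 0 := by
      have e2 := hρ.lie T z
      rw [hT] at e2
      rw [e2]
      ext w
      rw [LinearMap.sub_apply, Module.End.mul_apply, Module.End.mul_apply, hc, hc, map_smul,
        sub_self, LinearMap.zero_apply]
    have e3 := hρ.sq z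
    rw [e1, hfz, map_zero, hχ, one_pow, map_one, mul_zero, zero_add] at e3
    exact zero_ne_one e3
  have hV2 : 2 ≤ finrank k V := by omega
  calc 2 ^ finrank k L ≤ 2 ^ 2 := Nat.pow_le_pow_right (by norm_num) hL
    _ ≤ finrank k V ^ 2 := Nat.pow_le_pow_left hV2 2

end Pool.Agent.SkS
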