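import Pool.Agent.Lib.SkS.Dec

/-!
# Module TorI: no toral elements if `χ` is nondegenerate

Let `t` be as in `NoTor`.  For `x` with `⁅x,z⁆ = 0`, `x = y + h0` (`decomp`), `InR y`, `h0 ∈ H`: `χ ⁅t, x⁆ = χ ⁅t, y⁆ + χ ⁅t, h0⁆ = 0`.
Let `T` with `⁅T,z⁆ = z`, `a = χ ⁅t, T⁆`, `t' = t + a z` (characteristic 2: `χ ⁅z, T⁆ = -1 = 1`): `χ ⁅t', T⁆ = a + a = 0`, and `χ ⁅t', x⁆ = 0` for `⁅x,z⁆ = 0`
(`⁅z, x⁆ = 0`).  Every element of `L` is `μ T + x` with `⁅x,z⁆ = 0` (`Cfg.eig`), so `t' = 0` by `Nondeg`; `t = -a z`, `f t = a^2 f z = 0`, so `t = f t = 0`.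
-/

namespace Pool.Agent.SkS

open Module

variable {k L : Type} [Field k] [CharP k 2] [LieRing L] [LieAlgebra k L] [FiniteDimensional k L]

theorem noTor_of_nondeg {f : L → L} (hf : Rst k f) {χ : Dual k L} (hχ : Nondeg χ) {z : L}
    {H : LieIdeal k L} (hc : Cfg f χ z H) : NoTor f χ z H := by
  intro t ht hft htR
  have h1 : ∀ x : L, ⁅x, z⁆ = 0 → χ ⁅t, x⁆ = 0 := by
    intro x hx
    obtain ⟨h0, hh0, hy⟩ := decomp hc x hx
    have h2 : ⁅t, x⁆ = ⁅t, x - h0⁆ + ⁅t, h0⁆ := by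
      rw [← lie_add, sub_add_cancel]
    rw [h2, htR _ hy, zero_add]
    exact ht.2 h0 hh0
  obtain ⟨T, hT⟩ := hc.ex_T
  have hzx : ∀ x : L, ⁅x, z⁆ = 0 → ⁅z, x⁆ = 0 := by
    intro x hx
    rw [← lie_skew, hx, neg_zero]
  have hzT : ⁅z, T⁆ = -z := by rw [← lie_skew, hT]
  have h3 : t + χ ⁅t, T⁆ • z = 0 := by
    apply hχ
    intro w
    obtain ⟨c, hcw⟩ := hc.eig w
    have hx : ⁅w - c • T, z⁆ = 0 := by
      rw [sub_lie, smul_lie, hT, hcw, sub_self]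
    have hw : w = (w - c • T) + c • T := by rw [sub_add_cancel]
    rw [hw, lie_add, add_lie, add_lie, lie_smul, lie_smul, smul_lie, smul_lie, hzx _ hx, hzT]
    simp only [map_add, map_smul, map_neg, h1 _ hx, hc.χz, smul_eq_mul, map_zero]
    ring
  have h4 : t = (-χ ⁅t, T⁆) • z := by
    rw [neg_smul]
    exact eq_neg_of_add_eq_zero_left h3
  rw [← hft, h4, hf.smul, hc.fz, smul_zero]

end Pool.Agent.SkS
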