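import Pool.Agent.Lib.SkS.Defs

/-!
# Module Sp: the operator `s` with `[s, r a] = r a` for a nondegenerate symplectic space of operators

Proof (characteristic 2).  More generally: for every subspace `P` of `Hs` on which `ω` is nondegenerate there is `s` in the algebra generated by `r`
with `[s, r a] = r a` for `a ∈ P`, `[s, r a] = 0` for `a ∈ P^⊥` (`ω a b = 0` for all `b ∈ P`) and `s * s = s + scalar`.
Induction on `finrank P`: `P = 0`: `s = 0`.  Otherwise choose `e ∈ P`, `e ≠ 0`, and `e' ∈ P` with `ω e e' = 1`; `P' = {a ∈ P : ω a e = 0, ω a e' = 0}` is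
nondegenerate, `P = P' ⊕ <e,e'>`; `s = s_{P'} + r e * r e'`.  For `a` with `ω a e = ω a e' = 0`: `r e * r e'` commutes with `r a`.
`[r e * r e', r e] = r e (r e' r e - r e r e') = r e` up to sign (characteristic 2), `[r e * r e', r e'] = (r e r e' - r e' r e) r e' = r e'`.
`(r e r e')^2 = r e (r e r e' + 1) r e' = (r e)^2 (r e')^2 + r e r e' = scalar + r e r e'`; `s_{P'}` commutes with `r e`, `r e'`.
(An alternative: strong induction on the dimension of `Hs` itself, replacing `Hs` by `P'`.)
-/

namespace Pool.Agent.SkS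

open Module

variable {k V Hs : Type} [Field k] [CharP k 2] [AddCommGroup V] [Module k V] [AddCommGroup Hs]
  [Module k Hs] [FiniteDimensional k Hs]


private lemma two_eq_zero : (2 : k) = 0 := by
  have : ((2 : ℕ) : k) = 0 := CharP.cast_eq_zero k 2
  exact_mod_cast this

private lemma add_self_end (a : End k V) : a + a = 0 := by
  have h : a + a = (2 : k) • a := by rw [two_smul]
  rw [h, two_eq_zero, zero_smul]

private lemma neg_end (a : End k V) : -a = a := by
  rw [neg_eq_iff_add_eq_zero, add_self_end]

private lemma exists_s_aux (r : Hs →ₗ[k] End k V) (ω : Hs →ₗ[k] Hs →ₗ[k] k)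
    (hω : ∀ a b : Hs, r a * r b - r b * r a = algebraMap k (End k V) (ω a b))
    (halt : ∀ a : Hs, ω a a = 0)
    (hsq : ∀ a : Hs, ∃ c : k, r a * r a = algebraMap k (End k V) c) :
    ∀ (n : ℕ) (P : Submodule k Hs), finrank k P = n →
      (∀ a ∈ P, (∀ b ∈ P, ω a b = 0) → a = 0) →
      ∃ s ∈ Algebra.adjoin k (Set.range r), (∀ a ∈ P, s * r a - r a * s = r a) ∧
        (∀ a, (∀ b ∈ P, ω a b = 0) → s * r a = r a * s) ∧
        ∃ c : k, s * s = s + algebraMap k (End k V) c := by
  have hskew : ∀ a b : Hs, ω a b = - ω b a := by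
    intro a b
    have h := halt (a + b)
    simp only [map_add, LinearMap.add_apply, halt, zero_add, add_zero] at h
    rw [add_comm] at h
    exact eq_neg_of_add_eq_zero_left h
  intro n
  induction n using Nat.strong_induction_on with
  | _ n ih =>
  intro P hn hP
  by_cases hbot : P = ⊥
  · refine ⟨0, Subalgebra.zero_mem _, ?_, ?_, 0, ?_⟩
    · intro a ha
      rw [hbot, Submodule.mem_bot] at ha
      rw [ha, map_zero, mul_zero, sub_zero]
    · intro a _
      rw [zero_mul, mul_zero]
    · rw [map_zero, mul_zero, add_zero]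
  · obtain ⟨e, he, he0⟩ := Submodule.exists_mem_ne_zero_of_ne_bot hbot
    obtain ⟨e', he', hee'⟩ : ∃ e' ∈ P, ω e e' = 1 := by
      obtain ⟨b, hb, hb0⟩ : ∃ b ∈ P, ω e b ≠ 0 := by
        by_contra hcon
        push Not at hcon
        exact he0 (hP e he hcon)
      refine ⟨(ω e b)⁻¹ • b, P.smul_mem _ hb, ?_⟩
      rw [map_smul, smul_eq_mul, inv_mul_cancel₀ hb0]
    have he'e : ω e' e = -1 := by rw [hskew, hee']
    let P' : Submodule k Hs :=
      { carrier := {a | a ∈ P ∧ ω a e = 0 ∧ ω a e' = 0}
        add_mem' := by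
          rintro a b ⟨ha, ha1, ha2⟩ ⟨hb, hb1, hb2⟩
          refine ⟨P.add_mem ha hb, ?_, ?_⟩
          · rw [map_add, LinearMap.add_apply, ha1, hb1, add_zero]
          · rw [map_add, LinearMap.add_apply, ha2, hb2, add_zero]
        zero_mem' := ⟨P.zero_mem, by simp, by simp⟩
        smul_mem' := by
          rintro c a ⟨ha, ha1, ha2⟩
          refine ⟨P.smul_mem c ha, ?_, ?_⟩
          · rw [map_smul, LinearMap.smul_apply, ha1, smul_zero]
          · rw [map_smul, LinearMap.smul_apply, ha2, smul_zero] }
    have hP'mem : ∀ a, a ∈ P' ↔ a ∈ P ∧ ω a e = 0 ∧ ω a e' = 0 := fun a => Iff.rfl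
    have hP'P : P' < P := by
      refine lt_of_le_of_ne (fun a ha => ((hP'mem a).mp ha).1) ?_
      intro heq
      have h1 : e ∈ P' := by rw [heq]; exact he
      have h2 := ((hP'mem e).mp h1).2.2
      rw [hee'] at h2
      exact one_ne_zero h2
    -- decomposition
    have hdec : ∀ a ∈ P, a - ω a e' • e + ω a e • e' ∈ P' := by
      intro a ha
      rw [hP'mem]
      refine ⟨P.add_mem (P.sub_mem ha (P.smul_mem _ he)) (P.smul_mem _ he'), ?_, ?_⟩
      · simp only [map_add, map_sub, map_smul, LinearMap.add_apply, LinearMap.sub_apply,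
          LinearMap.smul_apply, halt, he'e, smul_eq_mul]
        ring
      · simp only [map_add, map_sub, map_smul, LinearMap.add_apply, LinearMap.sub_apply,
          LinearMap.smul_apply, halt, hee', smul_eq_mul]
        ring
    have hlt : finrank k P' < n := by
      rw [← hn]
      exact Submodule.finrank_lt_finrank_of_lt hP'P
    obtain ⟨s', hs'A, hs'1, hs'2, c', hs'3⟩ := ih _ hlt P' rfl (by
      intro a ha hab
      have ha' := (hP'mem a).mp ha
      apply hP a ha'.1
      intro b hb
      have h1 := hab _ (hdec b hb)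
      rw [map_add, map_sub, map_smul, map_smul, ha'.2.1, ha'.2.2, smul_zero, smul_zero, sub_zero,
        add_zero] at h1
      exact h1)
    have hce : s' * r e = r e * s' := hs'2 e (by
      intro b hb
      rw [hskew, ((hP'mem b).mp hb).2.1, neg_zero])
    have hce' : s' * r e' = r e' * s' := hs'2 e' (by
      intro b hb
      rw [hskew, ((hP'mem b).mp hb).2.2, neg_zero])
    have hreA : r e ∈ Algebra.adjoin k (Set.range r) := Algebra.subset_adjoin ⟨e, rfl⟩
    have hre'A : r e' ∈ Algebra.adjoin k (Set.range r) := Algebra.subset_adjoin ⟨e', rfl⟩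
    have hcomm0 : ∀ a, ω a e = 0 → r a * r e = r e * r a := by
      intro a ha
      have := hω a e
      rw [ha, map_zero, sub_eq_zero] at this
      exact this
    have hcomm0' : ∀ a, ω a e' = 0 → r a * r e' = r e' * r a := by
      intro a ha
      have := hω a e'
      rw [ha, map_zero, sub_eq_zero] at this
      exact this
    have hre're : r e' * r e = r e * r e' + 1 := by
      have := hω e' e
      rw [he'e, map_neg, map_one, neg_end, sub_eq_iff_eq_add] at this
      rw [this, add_comm]
    have hp0 : ∀ a, ω a e = 0 → ω a e' = 0 → (r e * r e') * r a = r a * (r e * r e') := by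
      intro a ha ha'
      rw [mul_assoc, ← hcomm0' a ha', ← mul_assoc, ← hcomm0 a ha, mul_assoc]
    have hpe : (r e * r e') * r e - r e * (r e * r e') = r e := by
      rw [mul_assoc, hre're, mul_add, mul_one]
      abel
    have hpe' : (r e * r e') * r e' - r e' * (r e * r e') = r e' := by
      rw [← mul_assoc (r e') (r e) (r e'), hre're, add_mul, one_mul]
      have : r e * r e' * r e' - (r e * r e' * r e' + r e') = - r e' := by abel
      rw [this, neg_end]
    refine ⟨s' + r e * r e', Subalgebra.add_mem _ hs'A (Subalgebra.mul_mem _ hreA hre'A), ?_, ?_, ?_⟩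
    · intro a ha
      have h0 := hdec a ha
      set a' := a - ω a e' • e + ω a e • e' with ha'
      have haeq : a = a' + ω a e' • e - ω a e • e' := by
        rw [ha']
        abel
      have h1 := hs'1 a' h0
      have h2 := hp0 a' ((hP'mem a').mp h0).2.1 ((hP'mem a').mp h0).2.2
      have hra : r a = r a' + ω a e' • r e - ω a e • r e' := by
        conv_lhs => rw [haeq]
        rw [map_sub, map_add, map_smul, map_smul]
      have key : (s' + r e * r e') * r a - r a * (s' + r e * r e') =
          (s' * r a' - r a' * s') + ((r e * r e') * r a' - r a' * (r e * r e'))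
          + ω a e' • (s' * r e - r e * s') + ω a e' • ((r e * r e') * r e - r e * (r e * r e'))
          - ω a e • (s' * r e' - r e' * s') - ω a e • ((r e * r e') * r e' - r e' * (r e * r e')) := by
        rw [hra]
        simp only [mul_add, add_mul, mul_sub, sub_mul, smul_sub, smul_add, mul_smul_comm,
          smul_mul_assoc]
        abel
      rw [key, h1, h2, hce, hce', hpe, hpe', sub_self, sub_self, sub_self, smul_zero, smul_zero,
        add_zero, add_zero, sub_zero, hra]
    · intro a ha
      have h1 := hs'2 a (fun b hb => ha b ((hP'mem b).mp hb).1)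
      have h2 := hp0 a (ha e he) (ha e' he')
      rw [add_mul, mul_add, h1, h2]
    · obtain ⟨c1, hc1⟩ := hsq e
      obtain ⟨c2, hc2⟩ := hsq e'
      refine ⟨c' + c1 * c2, ?_⟩
      have h1 : (r e * r e') * (r e * r e') = algebraMap k (End k V) (c1 * c2) + r e * r e' := by
        have : (r e * r e') * (r e * r e') = r e * (r e' * r e) * r e' := by
          simp only [mul_assoc]
        rw [this, hre're, mul_add, mul_one, add_mul, ← mul_assoc, hc1, mul_assoc, hc2, map_mul]
      have h2 : s' * (r e * r e') = (r e * r e') * s' := by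
        rw [← mul_assoc, hce, mul_assoc, hce', mul_assoc]
      have h3 : (s' + r e * r e') * (s' + r e * r e') =
          s' * s' + (r e * r e') * (r e * r e') + (s' * (r e * r e') + (r e * r e') * s') := by
        rw [add_mul, mul_add, mul_add]
        abel
      rw [h3, h2, add_self_end, add_zero, hs'3, h1, map_add]
      abel

theorem exists_s (r : Hs →ₗ[k] End k V) (ω : Hs →ₗ[k] Hs →ₗ[k] k)
    (hω : ∀ a b : Hs, r a * r b - r b * r a = algebraMap k (End k V) (ω a b))
    (halt : ∀ a : Hs, ω a a = 0) (hnd : ∀ a : Hs, (∀ b : Hs, ω a b = 0) → a = 0)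
    (hsq : ∀ a : Hs, ∃ c : k, r a * r a = algebraMap k (End k V) c) :
    ∃ s ∈ Algebra.adjoin k (Set.range r), (∀ a : Hs, s * r a - r a * s = r a) ∧
      ∃ c : k, s * s = s + algebraMap k (End k V) c := by
  obtain ⟨s, hs, h1, -, h3⟩ := exists_s_aux r ω hω halt hsq _ ⊤ rfl
    (fun a _ ha => hnd a (fun b => ha b Submodule.mem_top))
  exact ⟨s, hs, fun a => h1 a Submodule.mem_top, h3⟩

end Pool.Agent.SkS
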