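import Pool.Agent.Lib.SkS.Dec
import Pool.Agent.Lib.SkS.Sp
import Pool.Agent.Lib.SkS.BC

/-!
# Module TorII: no toral elements if there is an irreducible representation of dimension `≥ 2^{n/2}`

Let `t ≠ 0` be as in `NoTor` (`InR t`, `f t = t`, `⁅t, y⁆ = 0` for `y ∈ R`).  `L0 = {x : ⁅x,z⁆ = 0}` as a Lie subalgebra (closed under `f`), of codimension 1
(`Cfg.eig`, `Cfg.ex_T`: `finrank L0 + 1 = finrank L = n`).
(1) `Vz = {v : ρ z v = v} ≠ 0`: `(ρ z - 1)^2 = (ρ z)^2 + 1 = 0` (`hρ.sq`, `f z = 0`, `χ z = 1`); `Vz` is `L0`-stable.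
(2) On `Vz`, `r h = ρ h` restricted, for `h ∈ H`: `[r h, r h'] = ω(h,h')` with `⁅h,h'⁆ = ω(h,h') z`, i.e. `ω(h,h') = χ ⁅h,h'⁆`; `(r h)^2 = ρ (f h) + χ(h)^2` is scalar (`f_mem`).
(3) `(ad t)^2 = ad t` (`hf.lie`, `f t = t`), so `H = H_0 + H_1`, `H_i = {h ∈ H : ⁅t,h⁆ = i h}`; for `h_0 ∈ H_0, h_1 ∈ H_1`: `⁅t,⁅h_0,h_1⁆⁆ = ⁅h_0,h_1⁆` but `⁅t, k z⁆ = 0`, so `⁅h_0,h_1⁆ = 0`.
 If `h ∈ H_1` and `⁅h, H_1⁆ = 0` then `⁅h, H⁆ = 0`, `h ∈ k z` (`H_nd`), `h = ⁅t,h⁆ = 0`.  `exists_s` for `Hs = H_1`, operators on `Vz`: `s` with `[s, r h] = r ⁅t,h⁆` for all `h ∈ H`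
 (`s` commutes with `r H_0`), `s^2 = s + scalar`, `s` in the algebra generated by `r H`.
(4) `t' = ρ t - s` on `Vz`: commutes with `r H`, hence with `s`; `t'^2 = (ρ t)^2 + s^2 = t' + scalar` (characteristic 2, `hρ.sq t`, `f t = t`).  For `y ∈ R`: `ρ y` preserves the algebra generated by `r H` under
 commutators; `u = ρ y t' - t' ρ y = -(ρ y s - s ρ y)` (as `⁅y,t⁆ = 0`) lies in that algebra, so `u t' = t' u`; `0 = 2 u t' = [ρ y, t'^2] = u`.  So `t'` commutes with `ρ L0` on `Vz` (`decomp`).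
(5) An eigenspace `W2 ≠ 0` of `t'` in `Vz` is `L0`-stable; `exists_irr`: `W3 ≤ W2` irreducible for `L0`.  On `W3`: `ρ z = 1`, `ρ t = s + c` with `s` in the algebra generated by `ρ H`.
 `cnt` for `H` (as a Lie algebra with 2-map: `f H ⊆ k z ⊆ H`) and `D = k z`: `finrank (adjoin (ρ H)) ≤ 2^{dim H - 1}` in `End W3`.
 `bc` for `L0` acting on `W3` with `D = k t + H` (`t ∉ H`: else `t ∈ k z` by `inR_H`, `f t = 0`; so `dim D = dim H + 1`), `adjoin (ρ D) = adjoin (ρ H)`:
 `(finrank W3)^2 ≤ 2^{dim H - 1} 2^{dim L0 - dim H - 1} = 2^{n-3}` (note `dim H ≥ 1`, `dim L0 ≥ dim H + 1`, so `n ≥ 3`).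
(6) `gen_irr` with `D = L0`: `finrank V ≤ 2 finrank W3`.  So `2^n ≤ (finrank V)^2 ≤ 4 * 2^{n-3} < 2^n`, contradiction.
-/

namespace Pool.Agent.SkS

open Module

variable {k L V : Type} [Field k] [CharP k 2] [IsAlgClosed k] [LieRing L] [LieAlgebra k L]
  [AddCommGroup V] [Module k V] [FiniteDimensional k V] [FiniteDimensional k L]


omit [CharP k 2] [IsAlgClosed k] [FiniteDimensional k L] in
/-- the centraliser of `z` as a Lie subalgebra -/
private def cz (z : L) : LieSubalgebra k L where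
  carrier := {x | ⁅x, z⁆ = 0}
  add_mem' := by
    intro a b ha hb
    have ha' : ⁅a, z⁆ = 0 := ha
    have hb' : ⁅b, z⁆ = 0 := hb
    change ⁅a + b, z⁆ = 0
    rw [add_lie, ha', hb', add_zero]
  zero_mem' := by simp
  smul_mem' := by
    intro c a ha
    have ha' : ⁅a, z⁆ = 0 := ha
    change ⁅c • a, z⁆ = 0
    rw [smul_lie, ha', smul_zero]
  lie_mem' := by
    intro x y hx hy
    have hx' : ⁅x, z⁆ = 0 := hx
    have hy' : ⁅y, z⁆ = 0 := hy
    change ⁅⁅x, y⁆, z⁆ = 0
    rw [lie_lie, hx', hy', lie_zero, lie_zero, sub_zero]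

private lemma mem_cz (z x : L) : x ∈ (cz z : LieSubalgebra k L) ↔ ⁅x, z⁆ = 0 := Iff.rfl

/-- the centraliser of `z` has codimension one -/
private lemma finrank_cz {f : L → L} {χ : Dual k L} {z : L} {H : LieIdeal k L}
    (hc : Cfg f χ z H) : finrank k (cz z : LieSubalgebra k L) + 1 = finrank k L := by
  let μ : L →ₗ[k] k :=
    { toFun := fun y => χ ⁅y, z⁆
      map_add' := by intro x y; rw [add_lie, map_add]
      map_smul' := by intro c x; rw [smul_lie, map_smul, RingHom.id_apply] }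
  have hker : LinearMap.ker μ = (cz z : LieSubalgebra k L).toSubmodule := by
    ext y
    rw [LinearMap.mem_ker]
    change χ ⁅y, z⁆ = 0 ↔ ⁅y, z⁆ = 0
    constructor
    · intro h
      obtain ⟨c, hcz⟩ := hc.eig y
      rw [hcz, map_smul, hc.χz, smul_eq_mul, mul_one] at h
      rw [hcz, h, zero_smul]
    · intro h
      rw [h, map_zero]
  have hrange : LinearMap.range μ = ⊤ := by
    rw [LinearMap.range_eq_top]
    obtain ⟨T, hT⟩ := hc.ex_T
    intro c
    refine ⟨c • T, ?_⟩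
    change χ ⁅c • T, z⁆ = c
    rw [smul_lie, hT, map_smul, hc.χz, smul_eq_mul, mul_one]
  have h1 := LinearMap.finrank_range_add_finrank_ker μ
  rw [hrange, finrank_top, finrank_self, hker] at h1
  have h2 : finrank k (cz z : LieSubalgebra k L).toSubmodule =
    finrank k (cz z : LieSubalgebra k L) := rfl
  omega


private lemma cz_f {f : L → L} (hf : Rst k f) (z : L) : ∀ x ∈ (cz z : LieSubalgebra k L),
    f x ∈ (cz z : LieSubalgebra k L) := by
  intro x hx
  have hx' : ⁅x, z⁆ = 0 := hx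
  change ⁅f x, z⁆ = 0
  rw [hf.lie, hx', lie_zero]

/-- the elements of `H` as a subset of `cz z` -/
private def HH (z : L) (H : LieIdeal k L) : Set (cz z : LieSubalgebra k L) := {x | (x : L) ∈ H}

/-- The operator `s` and the operator `σ t - s` commuting with everything. -/
private lemma exists_tprime {f : L → L} (hf : Rst k f) {χ : Dual k L} {z : L} {H : LieIdeal k L}
    (hc : Cfg f χ z H) {V' : Type} [AddCommGroup V'] [Module k V']
    (σ : (cz z : LieSubalgebra k L) →ₗ[k] End k V')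
    (hσ : Rep (fs f (cz z) (cz_f hf z)) (χ.comp (cz z : LieSubalgebra k L).toSubmodule.subtype) σ)
    (hσz : ∀ x : (cz z : LieSubalgebra k L), (x : L) = z → σ x = 1)
    (t : (cz z : LieSubalgebra k L)) (ht : InR χ z H t) (htf : f t = t)
    (htR : ∀ y : L, InR χ z H y → ⁅(t : L), y⁆ = 0) :
    ∃ s ∈ Algebra.adjoin k (σ '' HH z H), ∀ x, (σ t - s) * σ x = σ x * (σ t - s) := by
  classical
  -- the space `H_1`
  let H1 : Submodule k L :=
    { carrier := {h | h ∈ H ∧ ⁅(t : L), h⁆ = h}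
      add_mem' := by
        rintro a b ⟨ha, ha'⟩ ⟨hb, hb'⟩
        exact ⟨H.add_mem ha hb, by rw [lie_add, ha', hb']⟩
      zero_mem' := ⟨H.zero_mem, lie_zero _⟩
      smul_mem' := by
        rintro c a ⟨ha, ha'⟩
        exact ⟨H.smul_mem c ha, by rw [lie_smul, ha']⟩ }
  have hH1 : ∀ a ∈ H1, a ∈ H ∧ ⁅(t : L), a⁆ = a := fun a ha => ha
  have hcz : ∀ a ∈ H, a ∈ (cz z : LieSubalgebra k L) := fun a ha => hc.H_cent a ha
  let ι1 : H1 →ₗ[k] (cz z : LieSubalgebra k L) :=
    { toFun := fun a => ⟨a, hcz a (hH1 a a.2).1⟩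
      map_add' := by intro a b; rfl
      map_smul' := by intro c a; rfl }
  let r : H1 →ₗ[k] End k V' := σ.comp ι1
  let ω : H1 →ₗ[k] H1 →ₗ[k] k := LinearMap.mk₂ k (fun a b => χ ⁅(a : L), (b : L)⁆)
    (by intro a a' b; simp) (by intro c a b; simp) (by intro a b b'; simp) (by intro c a b; simp)
  have hω1 : ∀ a b : H1, ω a b = χ ⁅(a : L), (b : L)⁆ := fun a b => rfl
  have hcz_z : z ∈ (cz z : LieSubalgebra k L) := hcz z hc.z_mem
  -- scalar action of multiples of z
  have hmulz : ∀ (x : (cz z : LieSubalgebra k L)) (c : k), (x : L) = c • z →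
      σ x = algebraMap k (End k V') c := by
    intro x c hx
    have h1 : x = c • (⟨z, hcz_z⟩ : (cz z : LieSubalgebra k L)) := by
      apply Subtype.ext
      rw [hx]
      rfl
    rw [h1, map_smul, hσz _ rfl, Algebra.algebraMap_eq_smul_one]
  have hbr : ∀ (a b : (cz z : LieSubalgebra k L)), (a : L) ∈ H → (b : L) ∈ H →
      σ a * σ b - σ b * σ a = algebraMap k (End k V') (χ ⁅(a : L), (b : L)⁆) := by
    intro a b ha hb
    obtain ⟨c, hcc⟩ := hc.H_comm a ha b hb
    rw [← hσ.lie, hmulz _ c hcc, hcc, map_smul, hc.χz, smul_eq_mul, mul_one]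
  obtain ⟨s, hs, hs1, hs2⟩ := exists_s r ω
    (by
      intro a b
      exact hbr (ι1 a) (ι1 b) (hH1 a a.2).1 (hH1 b b.2).1)
    (by intro a; rw [hω1, lie_self, map_zero])
    (by
      intro a ha
      -- a commutes with all of H
      have hall : ∀ h' ∈ H, ⁅(a : L), h'⁆ = 0 := by
        intro h' hh'
        have e1 : ⁅(t : L), ⁅(t : L), h'⁆⁆ = ⁅(t : L), h'⁆ := by
          rw [← hf.lie, htf]
        have e2 : ⁅(t : L), h'⁆ ∈ H1 := ⟨lie_mem_right k L H t h' hh', e1⟩
        have e3 : ⁅(t : L), ⁅(a : L), h'⁆⁆ = 0 := by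
          obtain ⟨c, hcc⟩ := hc.H_comm a (hH1 a a.2).1 h' hh'
          rw [hcc, lie_smul, ht.1, smul_zero]
        have e4 : ⁅(a : L), ⁅(t : L), h'⁆⁆ = 0 := by
          have := ha ⟨⁅(t : L), h'⁆, e2⟩
          rw [hω1] at this
          obtain ⟨c, hcc⟩ := hc.H_comm a (hH1 a a.2).1 _ (hH1 _ e2).1
          change χ ⁅(a : L), ⁅(t : L), h'⁆⁆ = 0 at this
          rw [hcc, map_smul, hc.χz, smul_eq_mul, mul_one] at this
          rw [hcc, this, zero_smul]
        rw [leibniz_lie, (hH1 a a.2).2, e4, add_zero] at e3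
        exact e3
      obtain ⟨c, hcc⟩ := hc.H_nd a (hH1 a a.2).1 hall
      apply Subtype.ext
      rw [← (hH1 a a.2).2, hcc, lie_smul, ht.1, smul_zero]
      rfl)
    (by
      intro a
      obtain ⟨c, hcc⟩ := hc.f_mem a (hH1 a a.2).1
      refine ⟨c + χ (a : L) ^ 2, ?_⟩
      change σ (ι1 a) * σ (ι1 a) = _
      rw [hσ.sq, hmulz _ c hcc, ← map_add]
      rfl)
  set 𝒜 := Algebra.adjoin k (σ '' HH z H) with h𝒜
  have hle : Algebra.adjoin k (Set.range r) ≤ 𝒜 := by
    apply Algebra.adjoin_mono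
    rintro _ ⟨a, rfl⟩
    exact ⟨ι1 a, (hH1 a a.2).1, rfl⟩
  have hsA : s ∈ 𝒜 := hle hs
  -- `s` commutes with the elements of `H_0`
  have hs0 : ∀ x : (cz z : LieSubalgebra k L), (x : L) ∈ H → ⁅(t : L), (x : L)⁆ = 0 →
      s * σ x = σ x * s := by
    intro x hx hx0
    have hcomm : ∀ a : H1, r a * σ x = σ x * r a := by
      intro a
      have h1 : ⁅(a : L), (x : L)⁆ = 0 := by
        have e1 : ⁅(t : L), ⁅(a : L), (x : L)⁆⁆ = 0 := by
          obtain ⟨c, hcc⟩ := hc.H_comm a (hH1 a a.2).1 x hx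
          rw [hcc, lie_smul, ht.1, smul_zero]
        rw [leibniz_lie, (hH1 a a.2).2, hx0, lie_zero, add_zero] at e1
        exact e1
      have h2 := hσ.lie (ι1 a) x
      have h3 : ⁅ι1 a, x⁆ = 0 := by
        apply Subtype.ext
        exact h1
      rw [h3, map_zero] at h2
      exact (sub_eq_zero.mp h2.symm)
    have : ∀ a ∈ Algebra.adjoin k (Set.range r), a * σ x = σ x * a := by
      intro a ha
      induction ha using Algebra.adjoin_induction with
      | mem a ha =>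
        obtain ⟨b, rfl⟩ := ha
        exact hcomm b
      | algebraMap c => exact Algebra.commutes c _
      | add a b _ _ ha hb => rw [add_mul, mul_add, ha, hb]
      | mul a b _ _ ha hb => rw [mul_assoc, hb, ← mul_assoc, ha, mul_assoc]
    exact this s hs
  -- `[s, σ h] = σ [t, h]` for `h ∈ H`
  have hsH : ∀ x : (cz z : LieSubalgebra k L), (x : L) ∈ H →
      s * σ x - σ x * s = σ ⁅t, x⁆ := by
    intro x hx
    have e1 : ⁅(t : L), ⁅(t : L), (x : L)⁆⁆ = ⁅(t : L), (x : L)⁆ := by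
      rw [← hf.lie, htf]
    have e2 : ⁅(t : L), (x : L)⁆ ∈ H1 := ⟨lie_mem_right k L H t x hx, e1⟩
    have e3 := hs1 ⟨_, e2⟩
    have e4 : r ⟨_, e2⟩ = σ ⁅t, x⁆ := rfl
    rw [e4] at e3
    have e5 : s * σ (x - ⁅t, x⁆) = σ (x - ⁅t, x⁆) * s := by
      apply hs0
      · exact H.sub_mem hx (hH1 _ e2).1
      · change ⁅(t : L), (x : L) - ⁅(t : L), (x : L)⁆⁆ = 0
        rw [lie_sub, e1, sub_self]
    rw [map_sub, mul_sub, sub_mul] at e5
    rw [← e3]
    have e6 : s * σ x - σ x * s - (s * σ ⁅t, x⁆ - σ ⁅t, x⁆ * s) = 0 := by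
      rw [← sub_eq_zero] at e5
      rw [← e5]
      abel
    rw [← sub_eq_zero]
    exact e6
  have ht'H : ∀ x : (cz z : LieSubalgebra k L), (x : L) ∈ H →
      (σ t - s) * σ x = σ x * (σ t - s) := by
    intro x hx
    have h1 := hsH x hx
    rw [hσ.lie] at h1
    rw [sub_mul, mul_sub, ← sub_eq_zero]
    rw [← sub_eq_zero] at h1
    rw [← neg_eq_zero, ← h1]
    abel
  have ht'A : ∀ a ∈ 𝒜, (σ t - s) * a = a * (σ t - s) := by
    intro a ha
    induction ha using Algebra.adjoin_induction with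
    | mem a ha =>
      obtain ⟨b, hb, rfl⟩ := ha
      exact ht'H b hb
    | algebraMap c => exact (Algebra.commutes c _).symm
    | add a b _ _ ha hb => rw [add_mul, mul_add, ha, hb]
    | mul a b _ _ ha hb => rw [mul_assoc, ← hb, ← mul_assoc, ha, mul_assoc]
  have h2 : (2 : End k V') = 0 := by
    have : ((2 : ℕ) : k) = 0 := CharP.cast_eq_zero k 2
    have h3 : algebraMap k (End k V') ((2 : ℕ) : k) = 0 := by rw [this, map_zero]
    rw [map_natCast] at h3
    exact_mod_cast h3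
  have hts : σ t * s = s * σ t := by
    have := ht'A s hsA
    rw [sub_mul, mul_sub, sub_left_inj] at this
    exact this
  obtain ⟨c, hsq⟩ := hs2
  -- the square of `t'`
  have hsq' : ∃ c' : k, (σ t - s) * (σ t - s) = (σ t - s) + algebraMap k (End k V') c' := by
    refine ⟨χ (t : L) ^ 2 + c, ?_⟩
    have h1 := hσ.sq t
    have h3 : fs f (cz z : LieSubalgebra k L) (cz_f hf z) t = t := by
      apply Subtype.ext
      exact htf
    rw [h3] at h1
    have h4 : (σ t - s) * (σ t - s) = σ t * σ t + s * s - 2 * (σ t * s) := by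
      rw [sub_mul, mul_sub, mul_sub, hts, two_mul]
      abel
    rw [h4, h1, hsq, h2, zero_mul, sub_zero, map_add]
    have h5 : (σ t + algebraMap k (End k V') (((χ ∘ₗ (cz z : LieSubalgebra k L).toSubmodule.subtype) t) ^ 2) +
        (s + algebraMap k (End k V') c)) = (σ t - s) + (algebraMap k (End k V') (χ (t : L) ^ 2) +
        algebraMap k (End k V') c) + 2 * s := by
      rw [two_mul]
      change (σ t + algebraMap k (End k V') ((χ (t : L)) ^ 2) + (s + algebraMap k (End k V') c)) = _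
      abel
    rw [h5, h2, zero_mul, add_zero]
  obtain ⟨c', hsq'⟩ := hsq'
  -- commutators of `σ y`, `y ∈ R`, with the algebra generated by `H`
  have hyA : ∀ (y : (cz z : LieSubalgebra k L)), ∀ a ∈ 𝒜, σ y * a - a * σ y ∈ 𝒜 := by
    intro y a ha
    induction ha using Algebra.adjoin_induction with
    | mem a ha =>
      obtain ⟨b, hb, rfl⟩ := ha
      rw [← hσ.lie]
      exact Algebra.subset_adjoin ⟨⁅y, b⁆, lie_mem_right k L H y b hb, rfl⟩
    | algebraMap c =>
      rw [Algebra.commutes c (σ y), sub_self]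
      exact 𝒜.zero_mem
    | add a b _ _ ha hb =>
      have : σ y * (a + b) - (a + b) * σ y = (σ y * a - a * σ y) + (σ y * b - b * σ y) := by
        rw [mul_add, add_mul]
        abel
      rw [this]
      exact 𝒜.add_mem ha hb
    | mul a b ha' hb' ha hb =>
      have : σ y * (a * b) - a * b * σ y = (σ y * a - a * σ y) * b + a * (σ y * b - b * σ y) := by
        noncomm_ring
      rw [this]
      exact 𝒜.add_mem (𝒜.mul_mem ha hb') (𝒜.mul_mem ha' hb)
  have hyR : ∀ (y : (cz z : LieSubalgebra k L)), InR χ z H y →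
      (σ t - s) * σ y = σ y * (σ t - s) := by
    intro y hy
    have h1 : σ t * σ y - σ y * σ t = 0 := by
      rw [← hσ.lie]
      have : ⁅t, y⁆ = 0 := by
        apply Subtype.ext
        exact htR y hy
      rw [this, map_zero]
    set u := σ y * (σ t - s) - (σ t - s) * σ y with hu
    have h3 : u = - (σ y * s - s * σ y) := by
      rw [hu, mul_sub, sub_mul]
      rw [sub_eq_zero] at h1
      rw [h1]
      abel
    have h4 : u ∈ 𝒜 := by
      rw [h3]
      exact 𝒜.neg_mem (hyA y s hsA)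
    have h5 := ht'A u h4
    have h6 : σ y * ((σ t - s) * (σ t - s)) - ((σ t - s) * (σ t - s)) * σ y =
        u * (σ t - s) + (σ t - s) * u := by
      rw [hu]
      noncomm_ring
    have h7 : σ y * ((σ t - s) * (σ t - s)) - ((σ t - s) * (σ t - s)) * σ y = u := by
      rw [hsq', mul_add, add_mul, Algebra.commutes c' (σ y), hu]
      abel
    have h8 : u * (σ t - s) + (σ t - s) * u = 0 := by
      rw [h5, ← two_mul, h2, zero_mul]
    have h9 : u = 0 := by rw [← h7, h6, h8]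
    rw [hu, sub_eq_zero] at h9
    exact h9.symm
  refine ⟨s, hsA, ?_⟩
  intro x
  obtain ⟨h0, hh0, hR⟩ := decomp hc x x.2
  have hR' : InR χ z H ((x - ⟨h0, hcz h0 hh0⟩ : (cz z : LieSubalgebra k L)) : L) := hR
  have e1 := hyR _ hR'
  have e2 := ht'H ⟨h0, hcz h0 hh0⟩ hh0
  have e3 : σ x = σ (x - ⟨h0, hcz h0 hh0⟩) + σ ⟨h0, hcz h0 hh0⟩ := by
    rw [← map_add, sub_add_cancel]
  rw [e3, mul_add, add_mul, e1, e2]


/-- the ideal `H` as a Lie subalgebra of `L` -/
private def HL (H : LieIdeal k L) : LieSubalgebra k L where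
  carrier := {x | x ∈ H}
  add_mem' := fun ha hb => H.add_mem ha hb
  zero_mem' := H.zero_mem
  smul_mem' := fun c _ ha => H.smul_mem c ha
  lie_mem' := fun {x y} _ hy => lie_mem_right k L H x y hy

/-- `finrank (adjoin (σ H)) ≤ 2^{dim H - 1}` if `z` acts as `1` -/
private lemma finrank_adjoin_H {f : L → L} {χ : Dual k L} {z : L} {H : LieIdeal k L}
    (hc : Cfg f χ z H) (ρ : L →ₗ[k] End k V) (hρ : Rep f χ ρ) (W : Submodule k V)
    (hW : ∀ x ∈ (cz z : LieSubalgebra k L), ∀ w ∈ W, ρ x w ∈ W) (hWz : ∀ w ∈ W, ρ z w = w) :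
    finrank k (Algebra.adjoin k (rs ρ (cz z) W hW '' HH z H)) ≤ 2 ^ (finrank k H - 1) := by
  classical
  have hHL : ∀ x ∈ (HL H : LieSubalgebra k L), x ∈ (cz z : LieSubalgebra k L) :=
    fun x hx => hc.H_cent x hx
  have hW' : ∀ x ∈ (HL H : LieSubalgebra k L), ∀ w ∈ W, ρ x w ∈ W :=
    fun x hx => hW x (hHL x hx)
  have hfH : ∀ x ∈ (HL H : LieSubalgebra k L), f x ∈ (HL H : LieSubalgebra k L) := by
    intro x hx
    obtain ⟨c, hcc⟩ := hc.f_mem x hx
    rw [hcc]
    exact H.smul_mem c hc.z_mem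
  have hrep := rep_rs ρ hρ (HL H) hfH W hW'
  let D : Submodule k (HL H : LieSubalgebra k L) := Submodule.span k {⟨z, hc.z_mem⟩}
  have h1 := cnt (rs ρ (HL H) W hW') hrep D
  have hset : rs ρ (cz z) W hW '' HH z H = Set.range (rs ρ (HL H) W hW') := by
    ext a
    constructor
    · rintro ⟨x, hx, rfl⟩
      exact ⟨⟨x, hx⟩, rfl⟩
    · rintro ⟨x, rfl⟩
      exact ⟨⟨x, hHL x x.2⟩, x.2, rfl⟩
  rw [hset]
  have hD1 : finrank k D = 1 := by
    apply finrank_span_singleton
    intro h0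
    exact hc.z_ne (congrArg Subtype.val h0)
  have hbot : Algebra.adjoin k ((rs ρ (HL H) W hW') '' (D : Set _)) ≤ ⊥ := by
    apply Algebra.adjoin_le
    rintro _ ⟨x, hx, rfl⟩
    have hx' : x ∈ Submodule.span k {(⟨z, hc.z_mem⟩ : (HL H : LieSubalgebra k L))} := hx
    obtain ⟨c, rfl⟩ := Submodule.mem_span_singleton.mp hx'
    rw [map_smul]
    have h2 : rs ρ (HL H) W hW' ⟨z, hc.z_mem⟩ = 1 := by
      ext w
      rw [rs_apply]
      exact hWz w w.2
    rw [h2]
    exact (⊥ : Subalgebra k (End k W)).smul_mem (Subalgebra.one_mem _) c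
  have h3 : finrank k (Algebra.adjoin k ((rs ρ (HL H) W hW') '' (D : Set _))) ≤ 1 := by
    rw [le_bot_iff.mp hbot]
    by_cases hW0 : Nontrivial W
    · rw [Subalgebra.finrank_bot]
    · rw [not_nontrivial_iff_subsingleton] at hW0
      have : finrank k (⊥ : Subalgebra k (End k W)) = 0 := finrank_zero_of_subsingleton
      omega
  rw [hD1] at h1
  have h4 : finrank k (HL H : LieSubalgebra k L) = finrank k H := rfl
  rw [h4] at h1
  calc _ ≤ _ := h1
    _ ≤ 1 * 2 ^ (finrank k H - 1) := Nat.mul_le_mul_right _ h3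
    _ = _ := one_mul _

theorem noTor_of_irr {f : L → L} (hf : Rst k f) {χ : Dual k L} (ρ : L →ₗ[k] End k V)
    (hρ : Rep f χ ρ) (h : Irr ρ) (hd : 2 ^ finrank k L ≤ finrank k V ^ 2) {z : L}
    {H : LieIdeal k L} (hc : Cfg f χ z H) : NoTor f χ z H := by
  intro t ht htf htR
  by_contra ht0
  classical
  have h2k : (2 : k) = 0 := by
    have : ((2 : ℕ) : k) = 0 := CharP.cast_eq_zero k 2
    exact_mod_cast this
  have hVnt : Nontrivial V := h.1
  -- the subspace `Vz`
  let Vz : Submodule k V := LinearMap.ker (ρ z - 1)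
  have hVzmem : ∀ v, v ∈ Vz ↔ ρ z v = v := by
    intro v
    rw [LinearMap.mem_ker, LinearMap.sub_apply, Module.End.one_apply, sub_eq_zero]
  have hVz : ∀ x ∈ (cz z : LieSubalgebra k L), ∀ v ∈ Vz, ρ x v ∈ Vz := by
    intro x hx v hv
    rw [hVzmem] at hv ⊢
    have h1 := hρ.lie x z
    have hx' : ⁅x, z⁆ = 0 := hx
    rw [hx', map_zero] at h1
    have h3 := congrArg (fun a : End k V => a v) h1
    simp only [LinearMap.zero_apply, LinearMap.sub_apply, Module.End.mul_apply] at h3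
    rw [hv] at h3
    exact (sub_eq_zero.mp h3.symm).symm
  have hzz : (ρ z - 1) * (ρ z - 1) = 0 := by
    have h1 := hρ.sq z
    rw [hc.fz, map_zero, hc.χz, one_pow, map_one, zero_add] at h1
    have h3 : (ρ z - 1) * (ρ z - 1) = ρ z * ρ z + 1 - (2 : k) • ρ z := by
      rw [two_smul]
      noncomm_ring
    rw [h3, h1, h2k, zero_smul, sub_zero]
    have : (1 : End k V) + 1 = (2 : k) • 1 := by rw [two_smul]
    rw [this, h2k, zero_smul]
  have hVz0 : Vz ≠ ⊥ := by
    intro hbot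
    obtain ⟨v, hv⟩ := exists_ne (0 : V)
    have h1 : (ρ z - 1) ((ρ z - 1) v) = 0 := by
      have := congrArg (fun a : End k V => a v) hzz
      simpa only [Module.End.mul_apply, LinearMap.zero_apply] using this
    have h3 : (ρ z - 1) v ∈ Vz := h1
    rw [hbot, Submodule.mem_bot] at h3
    have h4 : v ∈ Vz := h3
    rw [hbot, Submodule.mem_bot] at h4
    exact hv h4
  have hrepz := rep_rs ρ hρ (cz z) (cz_f hf z) Vz hVz
  have htcz : t ∈ (cz z : LieSubalgebra k L) := ht.1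
  obtain ⟨s, hs, hscomm⟩ := exists_tprime hf hc (rs ρ (cz z) Vz hVz) hrepz
    (by
      intro x hx
      ext v
      rw [rs_apply, hx]
      exact (hVzmem v).mp v.2)
    ⟨t, htcz⟩ ht htf htR
  set σ := rs ρ (cz z) Vz hVz with hσ
  -- an eigenspace of `t'`
  have hVznt : Nontrivial Vz := Submodule.nontrivial_iff_ne_bot.mpr hVz0
  obtain ⟨c1, hc1⟩ := Module.End.exists_eigenvalue (σ ⟨t, htcz⟩ - s)
  let W2' : Submodule k Vz := Module.End.eigenspace (σ ⟨t, htcz⟩ - s) c1
  have hW2' : ∀ v, v ∈ W2' ↔ (σ ⟨t, htcz⟩ - s) v = c1 • v := fun v =>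
    Module.End.mem_eigenspace_iff
  let W2 : Submodule k V := W2'.map Vz.subtype
  have hW20 : W2 ≠ ⊥ := by
    intro hbot
    apply hc1
    change W2' = ⊥
    rw [Submodule.eq_bot_iff]
    intro v hv
    have : (v : V) ∈ W2 := ⟨v, hv, rfl⟩
    rw [hbot, Submodule.mem_bot] at this
    exact Subtype.ext this
  have hW2 : ∀ x ∈ (cz z : LieSubalgebra k L), ∀ w ∈ W2, ρ x w ∈ W2 := by
    rintro x hx _ ⟨v, hv, rfl⟩
    refine ⟨σ ⟨x, hx⟩ v, ?_, rfl⟩
    change σ ⟨x, hx⟩ v ∈ W2'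
    rw [hW2']
    have h1 := congrArg (fun a : End k Vz => a v) (hscomm ⟨x, hx⟩)
    simp only [Module.End.mul_apply] at h1
    have hv' : (σ ⟨t, htcz⟩ - s) v = c1 • v := (hW2' v).mp hv
    rw [h1, hv', map_smul]
  obtain ⟨W3, hW3, hW32, hW30, hirr3⟩ := exists_irr ρ (cz z) W2 hW20 hW2
  have hW3z : ∀ w ∈ W3, w ∈ Vz := by
    intro w hw
    obtain ⟨v, _, rfl⟩ := hW32 hw
    exact v.2
  have hW3z' : ∀ w ∈ W3, ρ z w = w := fun w hw => (hVzmem w).mp (hW3z w hw)
  set σ3 := rs ρ (cz z) W3 hW3 with hσ3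
  have hrep3 := rep_rs ρ hρ (cz z) (cz_f hf z) W3 hW3
  set 𝒜3 := Algebra.adjoin k (σ3 '' HH z H) with h𝒜3
  -- transfer of the algebra generated by `H`
  have htrans : ∀ a ∈ Algebra.adjoin k (σ '' HH z H), ∃ a' ∈ 𝒜3, ∀ w : W3,
      ((a' w : W3) : V) = ((a ⟨w, hW3z w w.2⟩ : Vz) : V) := by
    intro a ha
    induction ha using Algebra.adjoin_induction with
    | mem a ha =>
      obtain ⟨b, hb, rfl⟩ := ha
      exact ⟨σ3 b, Algebra.subset_adjoin ⟨b, hb, rfl⟩, fun w => rfl⟩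
    | algebraMap c =>
      refine ⟨algebraMap k _ c, 𝒜3.algebraMap_mem c, fun w => ?_⟩
      rw [Module.algebraMap_end_apply, Module.algebraMap_end_apply]
      rfl
    | add a b _ _ ha hb =>
      obtain ⟨a', ha', ha''⟩ := ha
      obtain ⟨b', hb', hb''⟩ := hb
      refine ⟨a' + b', 𝒜3.add_mem ha' hb', fun w => ?_⟩
      rw [LinearMap.add_apply, LinearMap.add_apply, Submodule.coe_add, Submodule.coe_add, ha'', hb'']
    | mul a b _ _ ha hb =>
      obtain ⟨a', ha', ha''⟩ := ha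
      obtain ⟨b', hb', hb''⟩ := hb
      refine ⟨a' * b', 𝒜3.mul_mem ha' hb', fun w => ?_⟩
      rw [Module.End.mul_apply, Module.End.mul_apply, ha'']
      congr 2
      exact Subtype.ext (hb'' w)
  have ht3 : σ3 ⟨t, htcz⟩ ∈ 𝒜3 := by
    obtain ⟨s', hs', hs''⟩ := htrans s hs
    have : σ3 ⟨t, htcz⟩ = s' + algebraMap k _ c1 := by
      ext w
      have hw2 : (⟨w, hW3z w w.2⟩ : Vz) ∈ W2' := by
        obtain ⟨v, hv, hvw⟩ := hW32 w.2
        have : v = ⟨w, hW3z w w.2⟩ := Subtype.ext hvw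
        rw [← this]
        exact hv
      rw [hW2', LinearMap.sub_apply, sub_eq_iff_eq_add] at hw2
      have h1 := congrArg (fun v : Vz => (v : V)) hw2
      rw [LinearMap.add_apply, Submodule.coe_add, hs'', Module.algebraMap_end_apply, Submodule.coe_smul]
      change ρ t (w : V) = _
      change ρ t (w : V) = c1 • (w : V) + ((s ⟨w, hW3z w w.2⟩ : Vz) : V) at h1
      rw [h1, add_comm]
    rw [this]
    exact 𝒜3.add_mem hs' (𝒜3.algebraMap_mem c1)
  -- dimension of the algebra generated by `H`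
  have hdimH := finrank_adjoin_H hc ρ hρ W3 hW3 hW3z'
  -- the subspace `k t + H`
  have htH : t ∉ H := by
    intro htH
    obtain ⟨c, hcc⟩ := inR_H hc ht htH
    apply ht0
    rw [← htf, hcc, hf.smul, hc.fz, smul_zero]
  let D : Submodule k L := Submodule.span k {t} ⊔ (H : Submodule k L)
  have hDcz : D ≤ (cz z : LieSubalgebra k L).toSubmodule := by
    apply sup_le
    · rw [Submodule.span_singleton_le_iff_mem]
      exact htcz
    · intro x hx
      exact hc.H_cent x hx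
  have hDdim : finrank k D = finrank k H + 1 := by
    have h1 := Submodule.finrank_sup_add_finrank_inf_eq (Submodule.span k {t}) (H : Submodule k L)
    have h3 : Submodule.span k {t} ⊓ (H : Submodule k L) = ⊥ := by
      rw [Submodule.eq_bot_iff]
      rintro x ⟨hx1, hx2⟩
      obtain ⟨c, rfl⟩ := Submodule.mem_span_singleton.mp hx1
      by_cases hc0 : c = 0
      · rw [hc0, zero_smul]
      · exfalso
        apply htH
        have : t = c⁻¹ • (c • t) := by rw [smul_smul, inv_mul_cancel₀ hc0, one_smul]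
        rw [this]
        exact H.smul_mem _ hx2
    rw [h3, finrank_bot, finrank_span_singleton ht0] at h1
    have h4 : finrank k (H : Submodule k L) = finrank k H := rfl
    have h5 : finrank k D = finrank k (Submodule.span k {t} ⊔ (H : Submodule k L) : Submodule k L) :=
      rfl
    omega
  let D3 : Submodule k (cz z : LieSubalgebra k L) := D.comap (cz z : LieSubalgebra k L).toSubmodule.subtype
  have hD3dim : finrank k D3 = finrank k H + 1 := by
    rw [← hDdim]
    exact (Submodule.comapSubtypeEquivOfLe hDcz).finrank_eq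
  have hadj : Algebra.adjoin k (σ3 '' (D3 : Set _)) ≤ 𝒜3 := by
    apply Algebra.adjoin_le
    rintro _ ⟨x, hx, rfl⟩
    have hx' : (x : L) ∈ D := hx
    obtain ⟨y, hy, w, hw, hyw⟩ := Submodule.mem_sup.mp hx'
    obtain ⟨c, rfl⟩ := Submodule.mem_span_singleton.mp hy
    have hwcz : w ∈ (cz z : LieSubalgebra k L) := hc.H_cent w hw
    have : x = c • (⟨t, htcz⟩ : (cz z : LieSubalgebra k L)) + ⟨w, hwcz⟩ := Subtype.ext hyw.symm
    rw [this, map_add, map_smul]
    exact 𝒜3.add_mem (𝒜3.smul_mem ht3 c) (Algebra.subset_adjoin ⟨⟨w, hwcz⟩, hw, rfl⟩)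
  have hbc := bc σ3 hrep3 hirr3 D3
  have h5 : finrank k (Algebra.adjoin k (σ3 '' (D3 : Set _))) ≤ 2 ^ (finrank k H - 1) := by
    refine le_trans ?_ hdimH
    have hadj' : Subalgebra.toSubmodule (Algebra.adjoin k (σ3 '' (D3 : Set _))) ≤
        Subalgebra.toSubmodule 𝒜3 := hadj
    exact Submodule.finrank_mono hadj'
  have hcodim := finrank_cz hc
  have h6 : finrank k D3 ≤ finrank k (cz z : LieSubalgebra k L) := Submodule.finrank_le D3
  have h7 : 1 ≤ finrank k H := by
    have : Nontrivial H := ⟨⟨⟨z, hc.z_mem⟩, 0, fun h0 => hc.z_ne (congrArg Subtype.val h0)⟩⟩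
    exact finrank_pos
  have h8 := gen_irr ρ hρ h (cz z : LieSubalgebra k L).toSubmodule W3 hW30 hW3
  have h9 : finrank k L - finrank k (cz z : LieSubalgebra k L).toSubmodule = 1 := by
    have : finrank k (cz z : LieSubalgebra k L).toSubmodule = finrank k (cz z : LieSubalgebra k L) := rfl
    omega
  rw [h9, pow_one] at h8
  have h10 : finrank k W3 ^ 2 ≤ 2 ^ (finrank k L - 3) := by
    refine hbc.trans ((Nat.mul_le_mul_right _ h5).trans ?_)
    rw [← pow_add]
    apply Nat.pow_le_pow_right (by norm_num)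
    omega
  have h11 : finrank k V ^ 2 ≤ 4 * 2 ^ (finrank k L - 3) := by
    calc finrank k V ^ 2 ≤ (2 * finrank k W3) ^ 2 := Nat.pow_le_pow_left h8 2
      _ = 4 * finrank k W3 ^ 2 := by ring
      _ ≤ _ := Nat.mul_le_mul_left _ h10
  have h12 : 2 ^ finrank k L = 8 * 2 ^ (finrank k L - 3) := by
    have : finrank k L = 3 + (finrank k L - 3) := by omega
    conv_lhs => rw [this, pow_add]
    norm_num
  have h13 : 0 < 2 ^ (finrank k L - 3) := by positivity
  omega

end Pool.Agent.SkS
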