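import Pool.Agent.Lib.SkS.Basic
import Pool.Agent.Lib.SkS.Low
import Pool.Agent.Lib.SkS.Red
import Pool.Agent.Lib.SkS.RedRep
import Pool.Agent.Lib.SkS.G12
import Pool.Agent.Lib.SkS.Str1
import Pool.Agent.Lib.SkS.Str2
import Pool.Agent.Lib.SkS.Str3
import Pool.Agent.Lib.SkS.TorI
import Pool.Agent.Lib.SkS.TorII
import Pool.Agent.Lib.SkS.Bridge

/-!
# Main: the two inductions and the final theorem
-/

namespace Pool.Agent.SkS

open Module

section

variable {k L : Type} [Field k] [CharP k 2] [LieRing L] [LieAlgebra k L] [FiniteDimensional k L]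

/-- data attached to an abelian ideal of dimension at least two -/
lemma ideal_data {f : L → L} (hf : Rst k f) (χ : Dual k L)
    (hcen : ∀ c : L, (∀ y : L, ⁅c, y⁆ = 0) → c = 0) (M : LieIdeal k L)
    (hM : ∀ x ∈ M, ∀ y ∈ M, ⁅x, y⁆ = 0) (h2 : 2 ≤ finrank k M)
    (hnd : ∀ m ∈ M, (∀ y : L, χ ⁅y, m⁆ = 0) → m = 0) :
    (∀ m ∈ M, f m = 0) ∧ (∃ z0 ∈ M, χ z0 = 1) ∧
      ∃ K : Submodule k L, (∀ m, m ∈ K ↔ m ∈ M ∧ χ m = 0) ∧ 1 ≤ finrank k K := by
  have hfM : ∀ m ∈ M, f m = 0 := by
    intro m hm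
    apply hcen
    intro y
    rw [hf.lie]
    exact hM m hm _ (lie_mem_left k L M m y hm)
  have hz : ∃ z1 ∈ M, χ z1 ≠ 0 := by
    by_contra hcon
    push Not at hcon
    have : ∀ m ∈ M, m = 0 := fun m hm => hnd m hm (fun y => hcon _ (lie_mem_right k L M y m hm))
    have hbot : (M : Submodule k L) = ⊥ := by
      rw [Submodule.eq_bot_iff]
      exact this
    have : finrank k M = 0 := by
      change finrank k (M : Submodule k L) = 0
      rw [hbot, finrank_bot]
    omega
  obtain ⟨z1, hz1, hχ1⟩ := hz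
  refine ⟨hfM, ⟨(χ z1)⁻¹ • z1, M.smul_mem _ hz1, ?_⟩, (M : Submodule k L) ⊓ LinearMap.ker χ, ?_, ?_⟩
  · rw [map_smul, smul_eq_mul, inv_mul_cancel₀ hχ1]
  · intro m
    simp
  · by_contra hcon
    push Not at hcon
    have h0 : finrank k ((M : Submodule k L) ⊓ LinearMap.ker χ : Submodule k L) = 0 := by omega
    have h1 := Submodule.finrank_sup_add_finrank_inf_eq (M : Submodule k L) (LinearMap.ker χ)
    have h3 := LinearMap.finrank_range_add_finrank_ker χ
    have h4 : finrank k (LinearMap.range χ) ≤ 1 := by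
      have := Submodule.finrank_le (LinearMap.range χ)
      simpa using this
    have h5 := Submodule.finrank_le ((M : Submodule k L) ⊔ LinearMap.ker χ)
    have h6 : finrank k (M : Submodule k L) = finrank k M := rfl
    omega

theorem big_of_nondeg [IsAlgClosed k] : ∀ (n : ℕ) (L : Type) [LieRing L] [LieAlgebra k L]
    [FiniteDimensional k L] [LieAlgebra.IsSolvable L] (f : L → L) (χ : Dual k L),
    finrank k L = n → Rst k f → Nondeg χ → Big f χ := by
  intro n
  induction n using Nat.strong_induction_on with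
  | _ n ih =>
  intro L _ _ _ _ f χ hn hf hχ
  have hcen : ∀ c : L, (∀ y : L, ⁅c, y⁆ = 0) → c = 0 := by
    intro c hc
    apply hχ
    intro y
    rw [hc, map_zero]
  have hnd : ∀ m : L, (∀ y : L, χ ⁅y, m⁆ = 0) → m = 0 := by
    intro m hm
    apply hχ
    intro y
    rw [← lie_skew, map_neg, hm, neg_zero]
  by_cases hab : AbOne k L
  · rcases subsingleton_or_nontrivial L with hL | hL
    · intro V _ _ _ ρ _ hirr
      have : finrank k L = 0 := finrank_zero_of_subsingleton
      rw [this, pow_zero]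
      haveI := hirr.1
      have : 0 < finrank k V := finrank_pos
      nlinarith
    · obtain ⟨z, H, hc⟩ := exists_cfg hf hab hcen χ (fun M _ m _ hy => hnd m hy)
      have hT := noTor_of_nondeg hf hχ hc
      have h0 := L0_le hf hab hc hT
      obtain ⟨T, hTz, hs⟩ := two_dim hab hc h0
      exact base_big hc.χz hc.fz hTz hs
  · unfold AbOne at hab
    push Not at hab
    obtain ⟨M, hM, hM2⟩ := hab
    have hnd' : ∀ m ∈ M, (∀ y : L, χ ⁅y, m⁆ = 0) → m = 0 := fun m _ => hnd m
    obtain ⟨hfM, ⟨z0, hz0, hχ0⟩, K, hK, hK1⟩ := ideal_data hf χ hcen M hM hM2 hnd'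
    obtain ⟨L', _, _, f', χ', D, hf', hfin', hsol', hdim, -, hN, -⟩ := red hf χ M hM hfM hnd' K hK
    intro V _ _ _ ρ hρ hirr
    have hlt : finrank k L' < n := by omega
    have hbig := ih _ hlt L' f' χ' rfl hf' (hN hχ)
    obtain ⟨W, ρ', hW0, hWK, hρ', hirr', -⟩ := redRep ρ hρ hirr.1 K
      (fun x hx y hy => hM x ((hK x).1 hx).1 y ((hK y).1 hy).1)
      (fun m hm => hfM m ((hK m).1 hm).1) (fun m hm => ((hK m).1 hm).2) D
    have h1 := hbig W ρ' hρ' hirr'
    let V0 : Submodule k V :=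
      { carrier := {v | ∀ m ∈ K, ρ m v = 0}
        add_mem' := by
          intro a b ha hb m hm
          rw [map_add, ha m hm, hb m hm, add_zero]
        zero_mem' := by
          intro m _
          rw [map_zero]
        smul_mem' := by
          intro c a ha m hm
          rw [map_smul, ha m hm, smul_zero] }
    have h2 := low ρ hρ M hM hfM z0 hz0 hχ0 hnd' K hK V0 (fun v => Iff.rfl)
    have h3 : finrank k W ≤ finrank k V0 := Submodule.finrank_mono hWK
    have h4 : 2 ^ finrank k K * finrank k W ≤ finrank k V :=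
      (Nat.mul_le_mul_left _ h3).trans h2
    calc 2 ^ finrank k L = (2 ^ finrank k K) ^ 2 * 2 ^ finrank k L' := by
          rw [← hdim, pow_add, ← pow_mul, mul_comm 2 (finrank k K), mul_comm]
      _ ≤ (2 ^ finrank k K) ^ 2 * finrank k W ^ 2 := Nat.mul_le_mul_left _ h1
      _ = (2 ^ finrank k K * finrank k W) ^ 2 := by rw [mul_pow]
      _ ≤ finrank k V ^ 2 := Nat.pow_le_pow_left h4 2

theorem nondeg_of_irr [IsAlgClosed k] : ∀ (n : ℕ) (L : Type) [LieRing L] [LieAlgebra k L]
    [FiniteDimensional k L] [LieAlgebra.IsSolvable L] (f : L → L) (χ : Dual k L)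
    (V : Type) [AddCommGroup V] [Module k V] [FiniteDimensional k V] (ρ : L →ₗ[k] End k V),
    finrank k L = n → Rst k f → Rep f χ ρ → Irr ρ → 2 ^ finrank k L ≤ finrank k V ^ 2 →
    Nondeg χ := by
  intro n
  induction n using Nat.strong_induction_on with
  | _ n ih =>
  intro L _ _ _ _ f χ V _ _ _ ρ hn hf hρ hirr hd
  have hcen : ∀ c : L, (∀ y : L, ⁅c, y⁆ = 0) → c = 0 := center_zero ρ hρ hirr hd
  have hnd : ∀ M : LieIdeal k L, (∀ x ∈ M, ∀ y ∈ M, ⁅x, y⁆ = 0) →
      ∀ m ∈ M, (∀ y : L, χ ⁅y, m⁆ = 0) → m = 0 := fun M hM m hm hy => G2 hf ρ hρ hirr hd M hM m hm hy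
  by_cases hab : AbOne k L
  · rcases subsingleton_or_nontrivial L with hL | hL
    · intro x _
      exact Subsingleton.elim _ _
    · obtain ⟨z, H, hc⟩ := exists_cfg hf hab hcen χ hnd
      have hT := noTor_of_irr hf ρ hρ hirr hd hc
      have h0 := L0_le hf hab hc hT
      obtain ⟨T, hTz, hs⟩ := two_dim hab hc h0
      exact base_nondeg hc.χz hTz hs
  · unfold AbOne at hab
    push Not at hab
    obtain ⟨M, hM, hM2⟩ := hab
    have hnd' := hnd M hM
    obtain ⟨hfM, ⟨z0, hz0, hχ0⟩, K, hK, hK1⟩ := ideal_data hf χ hcen M hM hM2 hnd'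
    obtain ⟨L', _, _, f', χ', D, hf', hfin', hsol', hdim, hdim1, -, hN⟩ :=
      red hf χ M hM hfM hnd' K hK
    apply hN
    have hlt : finrank k L' < n := by omega
    obtain ⟨W, ρ', hW0, hWK, hρ', hirr', hact⟩ := redRep ρ hρ hirr.1 K
      (fun x hx y hy => hM x ((hK x).1 hx).1 y ((hK y).1 hy).1)
      (fun m hm => hfM m ((hK m).1 hm).1) (fun m hm => ((hK m).1 hm).2) D
    have hst : ∀ x ∈ D.L1.toSubmodule, ∀ w ∈ W, ρ x w ∈ W := by
      intro x hx w hw
      have := hact ⟨x, hx⟩ ⟨w, hw⟩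
      rw [← this]
      exact Subtype.property _
    have h1 := gen_irr ρ hρ hirr D.L1.toSubmodule W hW0 hst
    have h2 : finrank k L - finrank k D.L1.toSubmodule = finrank k K := by
      have : finrank k D.L1.toSubmodule = finrank k D.L1 := rfl
      omega
    rw [h2] at h1
    refine ih _ hlt L' f' χ' W ρ' rfl hf' hρ' hirr' ?_
    have h3 : 2 ^ finrank k L ≤ (2 ^ finrank k K * finrank k W) ^ 2 :=
      hd.trans (Nat.pow_le_pow_left h1 2)
    rw [← hdim, pow_add, mul_pow, ← pow_mul, mul_comm (finrank k K) 2, mul_comm] at h3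
    exact Nat.le_of_mul_le_mul_left h3 (by positivity)

end

/-- Skryabin's equivalence for solvable restricted Lie algebras in characteristic two -/
theorem main (k : Type) [Field k] [IsAlgClosed k] [CharP k 2] (L : Type) [LieRing L]
    [LieAlgebra k L] [FiniteDimensional k L] [LieAlgebra.IsSolvable L] (f : L → L) (h : Frz k f)
    (χ : Dual k L) : IsSimpleRing (UU f χ) ↔ Nondeg χ := by
  have hf := rst_of_frz h
  constructor
  · intro hs
    obtain ⟨V, _, _, _, ρ, hρ, hirr, hd⟩ := good_of_simple h χ hs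
    exact nondeg_of_irr _ L f χ V ρ rfl hf hρ hirr hd
  · intro hχ
    exact simple_of_big h χ (big_of_nondeg _ L f χ rfl hf hχ)

end Pool.Agent.SkS
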