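import Pool.Agent.Lib.SkS.Defs

/-!
# Module Span: ordered monomials with exponents 0, 1 span the algebra generated by `θ(L)`

Proof.  Let `F_j` be the span of all products of at most `j` elements of `θ(L)`
(`F_0 = k·1`, `F_{j+1} = F_j + θ(L) F_j`, increasing, `F_i F_j ≤ F_{i+j}`).
(★) for every `ε` and every `i`: `x_i E(x, ε)` lies in `span {E(x, ε') : |ε'| ≤ |ε|+1} + F_{|ε|}`, `x_i = θ(b_i)`,
`|ε| = Σ ε_i`.  Induction on `n` with `List.ofFn_succ`: `E(x,ε) = x_0^{ε_0} E(tail x, tail ε)`
(for the induction let `x : Fin n → A` be any family with `x_i ∈ F_1`, `x_i x_j - x_j x_i ∈ F_1`, `x_i^2 ∈ F_1`).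
 * `i = 0`, `ε_0 = 0`: a monomial.  `i = 0`, `ε_0 = 1`: `x_0^2 E(tail) ∈ F_1 F_{|tail ε|} ≤ F_{|ε|}`.
 * `i = i'+1`, `ε_0 = 0`: induction hypothesis.  `ε_0 = 1`: `x_i x_0 E(tail) = x_0 (x_i E(tail)) + (x_i x_0 - x_0 x_i) E(tail)`;
   the second summand is in `F_1 F_{|tail ε|} ≤ F_{|ε|}`, the first in `x_0 (span {E(0,ε')} + F_{|tail ε|})`.
Then `F_j ≤ span {E(x,ε) : |ε| ≤ j}` by induction on `j`, and `adjoin = ⋃ F_j`.
The same argument gives the statement for a spanning family `b` (`hb`), which is what is asked.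
-/

namespace Pool.Agent.SkS

open Module

variable {k L : Type} [Field k] [LieRing L] [LieAlgebra k L]


/-- the weight of an exponent vector -/
private def wt {n : ℕ} (ε : Fin n → Fin 2) : ℕ := ∑ i, (ε i : ℕ)

/-- the span of the monomials of weight at most `j` -/
private def X {k A : Type} [Field k] [Ring A] [Algebra k A] {n : ℕ} (x : Fin n → A) (j : ℕ) :
    Submodule k A := Submodule.span k {a | ∃ ε, wt ε ≤ j ∧ E x ε = a}

private lemma E_succ {A : Type} [Ring A] {n : ℕ} (x : Fin (n + 1) → A) (ε : Fin (n + 1) → Fin 2) :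
    E x ε = x 0 ^ (ε 0 : ℕ) * E (fun i => x i.succ) (fun i => ε i.succ) := by
  unfold E
  rw [List.ofFn_succ, List.prod_cons]

private lemma wt_succ {n : ℕ} (ε : Fin (n + 1) → Fin 2) :
    wt ε = (ε 0 : ℕ) + wt (fun i => ε i.succ) := by
  unfold wt
  rw [Fin.sum_univ_succ]

private lemma X_mono {k A : Type} [Field k] [Ring A] [Algebra k A] {n : ℕ} (x : Fin n → A)
    {i j : ℕ} (h : i ≤ j) : (X x i : Submodule k A) ≤ X x j :=
  Submodule.span_mono (fun _ ⟨ε, h1, h2⟩ => ⟨ε, h1.trans h, h2⟩)

private lemma one_mem_pow {k A : Type} [Field k] [Ring A] [Algebra k A] {G : Submodule k A}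
    (h1 : (1 : A) ∈ G) (m : ℕ) : (1 : A) ∈ G ^ m := by
  induction m with
  | zero =>
    rw [pow_zero]
    exact Submodule.one_le.mp le_rfl
  | succ m ih =>
    rw [pow_succ]
    have := Submodule.mul_mem_mul ih h1
    rwa [one_mul] at this

private lemma G_mono {k A : Type} [Field k] [Ring A] [Algebra k A] {G : Submodule k A}
    (h1 : (1 : A) ∈ G) {i j : ℕ} (h : i ≤ j) : G ^ i ≤ G ^ j := by
  obtain ⟨m, rfl⟩ := Nat.exists_eq_add_of_le h
  rw [pow_add]
  intro a ha
  have := Submodule.mul_mem_mul ha (one_mem_pow h1 m)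
  rwa [mul_one] at this

private lemma tail_X {k A : Type} [Field k] [Ring A] [Algebra k A] {n : ℕ} (x : Fin (n + 1) → A)
    (j : ℕ) : (X (fun i => x i.succ) j : Submodule k A) ≤ X x j := by
  unfold X
  rw [Submodule.span_le]
  rintro _ ⟨ε, h1, rfl⟩
  refine Submodule.subset_span ⟨Fin.cons 0 ε, ?_, ?_⟩
  · rw [wt_succ]
    simpa using h1
  · rw [E_succ]
    simp

private lemma head_X {k A : Type} [Field k] [Ring A] [Algebra k A] {n : ℕ} (x : Fin (n + 1) → A)
    (j : ℕ) (a : A) (ha : a ∈ (X (fun i => x i.succ) j : Submodule k A)) :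
    x 0 * a ∈ (X x (j + 1) : Submodule k A) := by
  have h : (X (fun i => x i.succ) j : Submodule k A) ≤
      (X x (j + 1) : Submodule k A).comap (LinearMap.mulLeft k (x 0)) := by
    conv_lhs => unfold X
    rw [Submodule.span_le]
    rintro _ ⟨ε, h1, rfl⟩
    change x 0 * _ ∈ X x (j + 1)
    refine Submodule.subset_span ⟨Fin.cons 1 ε, ?_, ?_⟩
    · rw [wt_succ]
      simp only [Fin.cons_zero, Fin.cons_succ]
      have h2 : ((1 : Fin 2) : ℕ) = 1 := rfl
      have h3 : wt (fun i => ε i) = wt ε := rfl
      omega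
    · rw [E_succ]
      simp
  exact h ha

private lemma E_mem_pow {k A : Type} [Field k] [Ring A] [Algebra k A] {G : Submodule k A}
    (h1 : (1 : A) ∈ G) : ∀ (n : ℕ) (x : Fin n → A), (∀ i, x i ∈ G) → ∀ (ε : Fin n → Fin 2),
      E x ε ∈ G ^ (wt ε) := by
  intro n
  induction n with
  | zero =>
    intro x _ ε
    have : E x ε = 1 := by simp [E]
    rw [this]
    exact one_mem_pow h1 _
  | succ n ih =>
    intro x hx ε
    rw [E_succ, wt_succ, pow_add]
    refine Submodule.mul_mem_mul ?_ (ih _ (fun i => hx i.succ) _)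
    exact Submodule.pow_mem_pow _ (hx 0) _

private lemma key {k A : Type} [Field k] [Ring A] [Algebra k A] (G : Submodule k A)
    (h1 : (1 : A) ∈ G) :
    ∀ (n : ℕ) (x : Fin n → A), (∀ i, x i ∈ G) → (∀ i j, x i * x j - x j * x i ∈ G) →
      (∀ i, x i * x i ∈ G) → ∀ (ε : Fin n → Fin 2) (i : Fin n),
        x i * E x ε ∈ X x (wt ε + 1) ⊔ G ^ (wt ε) := by
  intro n
  induction n with
  | zero =>
    intro x _ _ _ ε i
    exact i.elim0
  | succ n ih =>
    intro x hx hcomm hsq ε i
    set ε' : Fin n → Fin 2 := fun i => ε i.succ with hε'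
    have hE : E (fun i => x i.succ) ε' ∈ G ^ (wt ε') := E_mem_pow h1 n _ (fun i => hx i.succ) ε'
    have hε0 : (ε 0 : ℕ) = 0 ∨ (ε 0 : ℕ) = 1 := by omega
    rw [E_succ, wt_succ, ← hε']
    refine Fin.cases ?_ (fun i' => ?_) i
    · rcases hε0 with h0 | h0
      · rw [h0, pow_zero, one_mul, zero_add]
        apply Submodule.mem_sup_left
        exact head_X x _ _ (Submodule.subset_span ⟨ε', le_rfl, rfl⟩)
      · rw [h0, pow_one]
        apply Submodule.mem_sup_right
        rw [← mul_assoc, pow_add, pow_one]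
        exact Submodule.mul_mem_mul (hsq 0) hE
    · rcases hε0 with h0 | h0
      · rw [h0, pow_zero, one_mul, zero_add]
        have := ih (fun i => x i.succ) (fun i => hx i.succ) (fun i j => hcomm i.succ j.succ)
          (fun i => hsq i.succ) ε' i'
        exact sup_le_sup_right (tail_X x _) _ this
      · rw [h0, pow_one]
        have h2 : x i'.succ * (x 0 * E (fun i => x i.succ) ε') =
            x 0 * (x i'.succ * E (fun i => x i.succ) ε') +
            (x i'.succ * x 0 - x 0 * x i'.succ) * E (fun i => x i.succ) ε' := by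
          noncomm_ring
        rw [h2]
        apply Submodule.add_mem
        · have := ih (fun i => x i.succ) (fun i => hx i.succ) (fun i j => hcomm i.succ j.succ)
            (fun i => hsq i.succ) ε' i'
          obtain ⟨a, ha, b, hb, hab⟩ := Submodule.mem_sup.mp this
          rw [← hab, mul_add]
          apply Submodule.add_mem
          · apply Submodule.mem_sup_left
            have := head_X x _ a ha
            rw [show 1 + wt ε' + 1 = wt ε' + 1 + 1 by omega]
            exact this
          · apply Submodule.mem_sup_right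
            rw [pow_add, pow_one]
            exact Submodule.mul_mem_mul (hx 0) hb
        · apply Submodule.mem_sup_right
          rw [pow_add, pow_one]
          exact Submodule.mul_mem_mul (hcomm _ _) hE

theorem span_E {A : Type} [Ring A] [Algebra k A] {f : L → L} {χ : Dual k L} (θ : L →ₗ[k] A)
    (hθ : Rep f χ θ) {n : ℕ} (b : Fin n → L) (hb : Submodule.span k (Set.range b) = ⊤) :
    Subalgebra.toSubmodule (Algebra.adjoin k (Set.range θ)) ≤
      Submodule.span k (Set.range (E (fun i => θ (b i)))) := by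
  set x : Fin n → A := fun i => θ (b i) with hx
  set G : Submodule k A := 1 ⊔ LinearMap.range θ with hG
  have h1 : (1 : A) ∈ G := Submodule.mem_sup_left (Submodule.one_le.mp le_rfl)
  have hθG : ∀ y, θ y ∈ G := fun y => Submodule.mem_sup_right ⟨y, rfl⟩
  have hxG : ∀ i, x i ∈ G := fun i => hθG _
  have hcomm : ∀ i j, x i * x j - x j * x i ∈ G := by
    intro i j
    rw [← hθ.lie]
    exact hθG _
  have hsq : ∀ i, x i * x i ∈ G := by
    intro i
    rw [hθ.sq, Algebra.algebraMap_eq_smul_one]
    exact G.add_mem (hθG _) (G.smul_mem _ h1)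
  have hpow : ∀ j, G ^ j ≤ X x j := by
    intro j
    induction j with
    | zero =>
      rw [pow_zero, Submodule.one_le]
      refine Submodule.subset_span ⟨0, ?_, ?_⟩
      · simp [wt]
      · simp [E]
    | succ j ih =>
      rw [pow_succ', Submodule.mul_le]
      intro g hg u hu
      have hu' := ih hu
      -- reduce to monomials
      have hred : (X x j : Submodule k A) ≤ (X x (j + 1)).comap (LinearMap.mulLeft k g) := by
        conv_lhs => unfold X
        rw [Submodule.span_le]
        rintro _ ⟨ε, h3, rfl⟩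
        change g * E x ε ∈ X x (j + 1)
        have hG2 : G ≤ (X x (j + 1)).comap (LinearMap.mulRight k (E x ε)) := by
          rw [hG]
          apply sup_le
          · rw [Submodule.one_le]
            change 1 * E x ε ∈ X x (j + 1)
            rw [one_mul]
            exact Submodule.subset_span ⟨ε, h3.trans (Nat.le_succ j), rfl⟩
          · rw [LinearMap.range_eq_map, ← hb, Submodule.map_span, Submodule.span_le]
            rintro _ ⟨_, ⟨i, rfl⟩, rfl⟩
            change x i * E x ε ∈ X x (j + 1)
            have h4 := key G h1 n x hxG hcomm hsq ε i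
            have h5 : X x (wt ε + 1) ⊔ G ^ (wt ε) ≤ X x (j + 1) := by
              apply sup_le
              · exact X_mono x (by omega)
              · exact (G_mono h1 h3).trans (ih.trans (X_mono x (Nat.le_succ j)))
            exact h5 h4
        exact hG2 hg
      exact hred hu'
  have hX : ∀ j, (X x j : Submodule k A) ≤ Submodule.span k (Set.range (E x)) := by
    intro j
    unfold X
    apply Submodule.span_mono
    rintro _ ⟨ε, _, rfl⟩
    exact ⟨ε, rfl⟩
  intro a ha
  have hex : ∃ j, a ∈ G ^ j := by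
    rw [Subalgebra.mem_toSubmodule] at ha
    induction ha using Algebra.adjoin_induction with
    | mem a ha =>
      obtain ⟨y, rfl⟩ := ha
      refine ⟨1, ?_⟩
      rw [pow_one]
      exact hθG y
    | algebraMap c =>
      refine ⟨0, ?_⟩
      rw [pow_zero, Algebra.algebraMap_eq_smul_one]
      exact Submodule.smul_mem _ _ (Submodule.one_le.mp le_rfl)
    | add a b _ _ ha hb =>
      obtain ⟨i, hi⟩ := ha
      obtain ⟨j, hj⟩ := hb
      exact ⟨max i j, Submodule.add_mem _ (G_mono h1 (le_max_left i j) hi)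
        (G_mono h1 (le_max_right i j) hj)⟩
    | mul a b _ _ ha hb =>
      obtain ⟨i, hi⟩ := ha
      obtain ⟨j, hj⟩ := hb
      refine ⟨i + j, ?_⟩
      rw [pow_add]
      exact Submodule.mul_mem_mul hi hj
  obtain ⟨j, hj⟩ := hex
  exact hX j (hpow j hj)

end Pool.Agent.SkS
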